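import Mathlib

/-!
# The sourceless single random current of the Ising model on `ℤ^d`: definitions
-/

namespace Pool.Agent.H90.SC

open Filter Topology MeasureTheory
open scoped ENNReal

/-- The vertices of `ℤ^d`. -/
abbrev Vtx (d : ℕ) : Type := Fin d → ℤ

/-- The edges of `ℤ^d`: the pair `(x, i)` stands for the edge between `x` and `x + e_i`. -/
abbrev Edg (d : ℕ) : Type := Vtx d × Fin d

/-- The second end point `x + e_i` of the edge `(x, i)`; the first one is `x`. -/
def tip {d : ℕ} (e : Edg d) : Vtx d := e.1 + Pi.single e.2 1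

/-- The box `[-N, N]^d`. -/
noncomputable def box (d N : ℕ) : Finset (Vtx d) := Fintype.piFinset fun _ => Finset.Icc (-(N : ℤ)) N

/-- The edges with both end points in the box. -/
noncomputable def boxE (d N : ℕ) : Finset (Edg d) := (box d N ×ˢ Finset.univ).filter fun e => tip e ∈ box d N

/-- A current `m` on the finite edge set `E` is sourceless if at every vertex the sum of its values
over the incident edges is even. -/
def Sourceless {d : ℕ} (E : Finset (Edg d)) (m : E → ℕ) : Prop :=
  ∀ x : Vtx d, Even (∑ e : E, if x = e.1.1 ∨ x = tip e.1 then m e else 0)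

/-- Extension of a current on `E` by `0`. -/
def ext0 {d : ℕ} (E : Finset (Edg d)) (m : E → ℕ) : Edg d → ℕ :=
  fun e => if h : e ∈ E then m ⟨e, h⟩ else 0

open Classical in
/-- Total weight of the sourceless currents on `E` whose extension by `0` lies in `A`. -/
noncomputable def curSum {d : ℕ} (β : ℝ) (E : Finset (Edg d)) (A : Set (Edg d → ℕ)) : ℝ :=
  ∑' m : E → ℕ, if Sourceless E m ∧ ext0 E m ∈ A then ∏ e, β ^ m e / (m e).factorial else 0

/-- The probability of `A` under the sourceless random current measure on `E`. -/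
noncomputable def Pcur {d : ℕ} (β : ℝ) (E : Finset (Edg d)) (A : Set (Edg d → ℕ)) : ℝ :=
  curSum β E A / curSum β E Set.univ

/-- `μ` is the limit, along a subsequence of the boxes `[-N, N]^d`, of the sourceless current
measures (convergence of the probabilities of all cylinder events). -/
def IsLimit (d : ℕ) (β : ℝ) (μ : Measure (Edg d → ℕ)) : Prop :=
  ∃ φ : ℕ → ℕ, StrictMono φ ∧ ∀ (F : Finset (Edg d)) (k : Edg d → ℕ),
    Tendsto (fun j => Pcur β (boxE d (φ j)) {n | ∀ e ∈ F, n e = k e}) atTop
      (𝓝 (μ.real {n | ∀ e ∈ F, n e = k e}))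

/-- The graph on `ℤ^d` with edge set `O`. -/
def graphOf {d : ℕ} (O : Set (Edg d)) : SimpleGraph (Vtx d) :=
  SimpleGraph.fromRel fun x y => ∃ e ∈ O, x = e.1 ∧ y = tip e

/-- The graph with edge set `O` has an infinite connected component. -/
def HasInfinite {d : ℕ} (O : Set (Edg d)) : Prop :=
  ∃ v : Vtx d, {w | (graphOf O).Reachable v w}.Infinite

/-- The spin at `x`, with value `1` outside the box (plus boundary condition). -/
noncomputable def spin {d N : ℕ} (σ : box d N → Bool) (x : Vtx d) : ℝ :=
  if h : x ∈ box d N then (if σ ⟨x, h⟩ then 1 else -1) else 1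

/-- The edges with at least one end point in the box. -/
noncomputable def touchE (d N : ℕ) : Finset (Edg d) :=
  (boxE d (N + 1)).filter fun e => e.1 ∈ box d N ∨ tip e ∈ box d N

/-- The mean of the spin at the origin for the Ising model on the box with plus boundary
condition. -/
noncomputable def magN (d N : ℕ) (β : ℝ) : ℝ :=
  (∑ σ : box d N → Bool, spin σ 0 * Real.exp (β * ∑ e ∈ touchE d N, spin σ e.1 * spin σ (tip e))) /
    ∑ σ : box d N → Bool, Real.exp (β * ∑ e ∈ touchE d N, spin σ e.1 * spin σ (tip e))

/-- `⟨σ_0⟩^+_β`. -/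
noncomputable def mag (d : ℕ) (β : ℝ) : ℝ := limsup (fun N => magN d N β) atTop

/-- The critical inverse temperature `inf {β ≥ 0 : ⟨σ_0⟩^+_β > 0}` of the Ising model on `ℤ^d`
(`∞` if the set is empty). -/
noncomputable def betaC (d : ℕ) : ℝ≥0∞ := sInf (ENNReal.ofReal '' {β : ℝ | 0 ≤ β ∧ 0 < mag d β})

end Pool.Agent.H90.SC
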