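import Pool.Agent.H90.SC.Model

/-!
# SCUR H1a: high temperature expansion of the Ising model with plus boundary condition

`mean d N β v` is the mean of the spin at `v` (`v ∉ box`: the spin is `1`). With `x = tanh β`,
`exp (β s) = cosh β (1 + x s)` for `s = ± 1`, so numerator and denominator of `mean` are
`cosh β ^ |touchE|` times `∑ σ, spin σ v ∏ e ∈ touchE, (1 + x spin σ e.1 spin σ (tip e))`; expand
the product over the subsets `H ⊆ touchE` (`Finset.prod_one_add` or `Finset.prod_add`):
`∑ σ, spin σ v ∏ e ∈ H, spin σ e.1 spin σ (tip e) = ∑ σ, ∏ u ∈ box, (spin σ u)^(m u)` with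
`m u = (number of edges of H at u) + [u = v]` (every edge has two different end points); this is
`2^|box|` if all `m u` are even, else `0` (`Finset.prod_univ_sum` / `Fintype.piFinset`, or flip the
spin at `u`). So `∑ σ .. = 2^|box| * Wv d N x v`, where in `Wv` the sum is over the `H` whose set of
odd vertices in the box is `{v}` (empty if `v ∉ box`), and `W0` is the same with the empty set.
`mean_le_one`: `|spin| ≤ 1` and the weights are positive. `W0 ≥ 1` (`H = ∅`).
-/

namespace Pool.Agent.H90.SC

/-- The mean of the spin at `v` for the Ising model on the box with plus boundary condition. -/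
noncomputable def mean (d N : ℕ) (β : ℝ) (v : Vtx d) : ℝ :=
  (∑ σ : box d N → Bool, spin σ v * Real.exp (β * ∑ e ∈ touchE d N, spin σ e.1 * spin σ (tip e))) /
    ∑ σ : box d N → Bool, Real.exp (β * ∑ e ∈ touchE d N, spin σ e.1 * spin σ (tip e))

open Classical in
/-- Sum of `x^|H|` over the `H ⊆ touchE` for which the set of odd vertices in the box is `{v}`
(the empty set if `v ∉ box`). -/
noncomputable def Wv (d N : ℕ) (x : ℝ) (v : Vtx d) : ℝ :=
  ∑ H ∈ (touchE d N).powerset.filter (fun H => ∀ u ∈ box d N,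
    (Odd (H.filter fun e => u = e.1 ∨ u = tip e).card ↔ u = v)), x ^ H.card

open Classical in
/-- Sum of `x^|H|` over the `H ⊆ touchE` for which all the vertices in the box are even. -/
noncomputable def W0 (d N : ℕ) (x : ℝ) : ℝ :=
  ∑ H ∈ (touchE d N).powerset.filter (fun H => ∀ u ∈ box d N,
    ¬ Odd (H.filter fun e => u = e.1 ∨ u = tip e).card), x ^ H.card

theorem H1a_spin_cases {d N : ℕ} (σ : box d N → Bool) (v : Vtx d) :
    spin σ v = 1 ∨ spin σ v = -1 := by
  unfold spin
  split_ifs <;> simp

theorem H1a_den_pos (d N : ℕ) (β : ℝ) :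
    0 < ∑ σ : box d N → Bool, Real.exp (β * ∑ e ∈ touchE d N, spin σ e.1 * spin σ (tip e)) :=
  Finset.sum_pos (fun _ _ => Real.exp_pos _) ⟨fun _ => true, Finset.mem_univ _⟩

theorem mean_le_one (d N : ℕ) (β : ℝ) (v : Vtx d) : mean d N β v ≤ 1 := by
  unfold mean
  rw [div_le_one (H1a_den_pos d N β)]
  apply Finset.sum_le_sum
  intro σ _
  have h0 := Real.exp_pos (β * ∑ e ∈ touchE d N, spin σ e.1 * spin σ (tip e))
  rcases H1a_spin_cases σ v with h | h
  · rw [h, one_mul]
  · rw [h]
    linarith

theorem neg_one_le_mean (d N : ℕ) (β : ℝ) (v : Vtx d) : -1 ≤ mean d N β v := by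
  unfold mean
  rw [le_div_iff₀ (H1a_den_pos d N β), neg_one_mul, ← Finset.sum_neg_distrib]
  apply Finset.sum_le_sum
  intro σ _
  have h0 := Real.exp_pos (β * ∑ e ∈ touchE d N, spin σ e.1 * spin σ (tip e))
  rcases H1a_spin_cases σ v with h | h
  · rw [h, one_mul]
    linarith
  · rw [h]
    linarith

theorem W0_pos (d N : ℕ) (x : ℝ) (hx : 0 ≤ x) : 0 < W0 d N x := by
  unfold W0
  refine Finset.sum_pos' (fun H _ => pow_nonneg hx _) ⟨∅, ?_, ?_⟩
  · rw [Finset.mem_filter]
    exact ⟨Finset.empty_mem_powerset _, fun u _ => by simp⟩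
  · simp

theorem H1a_tip_ne {d : ℕ} (e : Edg d) : e.1 ≠ tip e := by
  unfold tip
  intro h
  have := congrFun h e.2
  simp at this

theorem H1a_key {d N : ℕ} (σ : box d N → Bool) (w : Vtx d) :
    (∏ u ∈ box d N, if u = w then spin σ u else 1) = spin σ w := by
  rw [Finset.prod_ite_eq' (box d N) w (fun u => spin σ u)]
  by_cases hw : w ∈ box d N
  · rw [if_pos hw]
  · rw [if_neg hw]
    unfold spin
    rw [dif_neg hw]

/-- one factor for an edge, as a product over the vertices of the box -/
theorem H1a_edge {d N : ℕ} (σ : box d N → Bool) (e : Edg d) :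
    spin σ e.1 * spin σ (tip e) =
      ∏ u ∈ box d N, if u = e.1 ∨ u = tip e then spin σ u else 1 := by
  rw [← H1a_key σ e.1, ← H1a_key σ (tip e), ← Finset.prod_mul_distrib]
  apply Finset.prod_congr rfl
  intro u _
  by_cases h1 : u = e.1
  · have h2 : u ≠ tip e := by
      rw [h1]
      exact H1a_tip_ne e
    rw [if_pos h1, if_neg h2, if_pos (Or.inl h1), mul_one]
  · by_cases h2 : u = tip e
    · rw [if_neg h1, if_pos h2, if_pos (Or.inr h2), one_mul]
    · rw [if_neg h1, if_neg h2, if_neg (by tauto), mul_one]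

theorem H1a_edges {d N : ℕ} (σ : box d N → Bool) (H : Finset (Edg d)) :
    ∏ e ∈ H, (spin σ e.1 * spin σ (tip e)) =
      ∏ u ∈ box d N, spin σ u ^ (H.filter fun e => u = e.1 ∨ u = tip e).card := by
  rw [Finset.prod_congr rfl fun e _ => H1a_edge σ e, Finset.prod_comm]
  apply Finset.prod_congr rfl
  intro u _
  rw [Finset.prod_ite, Finset.prod_const, Finset.prod_const_one, mul_one]

theorem H1a_two (m : ℕ) : ∑ b : Bool, (if b then (1 : ℝ) else -1) ^ m =
    if Even m then 2 else 0 := by
  rw [Fintype.sum_bool]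
  by_cases h : Even m
  · rw [if_pos h]
    simp [h.neg_one_pow]
    norm_num
  · rw [if_neg h]
    rw [Nat.not_even_iff_odd] at h
    simp [h.neg_one_pow]

theorem H1a_sum_prod {d N : ℕ} (m : Vtx d → ℕ) :
    ∑ σ : box d N → Bool, ∏ u ∈ box d N, spin σ u ^ m u =
      if (∀ u ∈ box d N, Even (m u)) then 2 ^ (box d N).card else 0 := by
  have h1 : ∀ σ : box d N → Bool, ∏ u ∈ box d N, spin σ u ^ m u =
      ∏ u : box d N, (if σ u then (1 : ℝ) else -1) ^ m u := by
    intro σ
    rw [← Finset.prod_coe_sort (box d N) (fun u => spin σ u ^ m u)]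
    apply Finset.prod_congr rfl
    intro u _
    unfold spin
    rw [dif_pos u.2]
  rw [Finset.sum_congr rfl fun σ _ => h1 σ]
  have h2 := Finset.prod_univ_sum (fun _ : box d N => (Finset.univ : Finset Bool))
    (fun u b => (if b then (1 : ℝ) else -1) ^ m u)
  rw [Fintype.piFinset_univ] at h2
  rw [← h2, Finset.prod_congr rfl fun (u : box d N) _ => H1a_two (m u)]
  by_cases h : ∀ u ∈ box d N, Even (m u)
  · rw [if_pos h, Finset.prod_congr rfl fun (u : box d N) _ => if_pos (h u u.2),
      Finset.prod_const, Finset.card_univ, Fintype.card_coe]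
  · rw [if_neg h]
    push Not at h
    obtain ⟨u, hu, hne⟩ := h
    apply Finset.prod_eq_zero (Finset.mem_univ (⟨u, hu⟩ : box d N))
    exact if_neg hne

theorem H1a_exp (β s : ℝ) (hs : s = 1 ∨ s = -1) :
    Real.exp (β * s) = Real.cosh β * (1 + Real.tanh β * s) := by
  have hc : Real.cosh β ≠ 0 := (Real.cosh_pos β).ne'
  have ht : Real.cosh β * Real.tanh β = Real.sinh β := by
    rw [Real.tanh_eq_sinh_div_cosh, mul_div_cancel₀ _ hc]
  rcases hs with h | h
  · rw [h, mul_one, mul_one, mul_add, ht, mul_one, Real.cosh_add_sinh]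
  · rw [h, mul_neg_one, mul_neg_one, mul_add, mul_one, mul_neg, ht, ← sub_eq_add_neg,
      Real.cosh_sub_sinh]

theorem H1a_weight {d N : ℕ} (β : ℝ) (σ : box d N → Bool) :
    Real.exp (β * ∑ e ∈ touchE d N, spin σ e.1 * spin σ (tip e)) =
      Real.cosh β ^ (touchE d N).card * ∑ H ∈ (touchE d N).powerset,
        Real.tanh β ^ H.card * ∏ e ∈ H, (spin σ e.1 * spin σ (tip e)) := by
  rw [Finset.mul_sum, Real.exp_sum]
  have h1 : ∀ e ∈ touchE d N, Real.exp (β * (spin σ e.1 * spin σ (tip e))) =
      Real.cosh β * (1 + Real.tanh β * (spin σ e.1 * spin σ (tip e))) := by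
    intro e _
    apply H1a_exp
    rcases H1a_spin_cases σ e.1 with h | h <;> rcases H1a_spin_cases σ (tip e) with h' | h' <;>
      rw [h, h'] <;> norm_num
  rw [Finset.prod_congr rfl h1, Finset.prod_mul_distrib, Finset.prod_const, Finset.prod_one_add]
  congr 1
  apply Finset.sum_congr rfl
  intro H _
  rw [Finset.prod_mul_distrib, Finset.prod_const]

/-- the general expansion with sources `c` -/
theorem H1a_Z {d N : ℕ} (β : ℝ) (c : Vtx d → ℕ) :
    ∑ σ : box d N → Bool, (∏ u ∈ box d N, spin σ u ^ c u) *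
        Real.exp (β * ∑ e ∈ touchE d N, spin σ e.1 * spin σ (tip e)) =
      Real.cosh β ^ (touchE d N).card * 2 ^ (box d N).card * ∑ H ∈ (touchE d N).powerset,
        if (∀ u ∈ box d N, Even (c u + (H.filter fun e => u = e.1 ∨ u = tip e).card))
          then Real.tanh β ^ H.card else 0 := by
  have h1 : ∀ σ : box d N → Bool, (∏ u ∈ box d N, spin σ u ^ c u) *
      Real.exp (β * ∑ e ∈ touchE d N, spin σ e.1 * spin σ (tip e)) =
      Real.cosh β ^ (touchE d N).card * ∑ H ∈ (touchE d N).powerset,
        Real.tanh β ^ H.card * ∏ u ∈ box d N,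
          spin σ u ^ (c u + (H.filter fun e => u = e.1 ∨ u = tip e).card) := by
    intro σ
    rw [H1a_weight, mul_left_comm, Finset.mul_sum]
    congr 1
    apply Finset.sum_congr rfl
    intro H _
    rw [H1a_edges, mul_left_comm, ← Finset.prod_mul_distrib]
    congr 1
    apply Finset.prod_congr rfl
    intro u _
    rw [pow_add]
  rw [Finset.sum_congr rfl fun σ _ => h1 σ, ← Finset.mul_sum, Finset.sum_comm, mul_assoc]
  congr 1
  rw [Finset.mul_sum]
  apply Finset.sum_congr rfl
  intro H _
  rw [← Finset.mul_sum, H1a_sum_prod]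
  split_ifs
  · ring
  · ring

theorem mean_eq (d N : ℕ) (β : ℝ) (v : Vtx d) :
    mean d N β v = Wv d N (Real.tanh β) v / W0 d N (Real.tanh β) := by
  have hnum : ∑ σ : box d N → Bool, spin σ v *
      Real.exp (β * ∑ e ∈ touchE d N, spin σ e.1 * spin σ (tip e)) =
      Real.cosh β ^ (touchE d N).card * 2 ^ (box d N).card * Wv d N (Real.tanh β) v := by
    have h1 := H1a_Z (N := N) β (fun u : Vtx d => if u = v then 1 else 0)
    have h2 : ∀ σ : box d N → Bool, (∏ u ∈ box d N, spin σ u ^ (if u = v then 1 else 0)) =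
        spin σ v := by
      intro σ
      rw [← H1a_key σ v]
      apply Finset.prod_congr rfl
      intro u _
      by_cases h : u = v
      · rw [if_pos h, if_pos h, pow_one]
      · rw [if_neg h, if_neg h, pow_zero]
    rw [Finset.sum_congr rfl fun σ _ => by rw [h2 σ]] at h1
    rw [h1]
    congr 1
    unfold Wv
    rw [Finset.sum_filter]
    apply Finset.sum_congr rfl
    intro H _
    have hiff : (∀ u ∈ box d N, Even ((if u = v then 1 else 0) +
        (H.filter fun e => u = e.1 ∨ u = tip e).card)) ↔ (∀ u ∈ box d N,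
        (Odd (H.filter fun e => u = e.1 ∨ u = tip e).card ↔ u = v)) := by
      apply forall_congr'
      intro u
      apply imp_congr_right
      intro _
      by_cases h : u = v
      · simp only [h, if_true, iff_true]
        rw [add_comm, Nat.even_add_one, Nat.not_even_iff_odd]
      · simp only [h, if_false, iff_false, zero_add]
        rw [Nat.not_odd_iff_even]
    by_cases h : ∀ u ∈ box d N, (Odd (H.filter fun e => u = e.1 ∨ u = tip e).card ↔ u = v)
    · rw [if_pos (hiff.2 h), if_pos h]
    · rw [if_neg (fun h' => h (hiff.1 h')), if_neg h]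
  have hden : ∑ σ : box d N → Bool,
      Real.exp (β * ∑ e ∈ touchE d N, spin σ e.1 * spin σ (tip e)) =
      Real.cosh β ^ (touchE d N).card * 2 ^ (box d N).card * W0 d N (Real.tanh β) := by
    have h1 := H1a_Z (N := N) β (fun _ : Vtx d => 0)
    simp only [pow_zero, Finset.prod_const_one, one_mul, zero_add] at h1
    rw [h1]
    congr 1
    unfold W0
    rw [Finset.sum_filter]
    apply Finset.sum_congr rfl
    intro H _
    have hiff : (∀ u ∈ box d N, Even (H.filter fun e => u = e.1 ∨ u = tip e).card) ↔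
        (∀ u ∈ box d N, ¬ Odd (H.filter fun e => u = e.1 ∨ u = tip e).card) := by
      apply forall_congr'
      intro u
      apply imp_congr_right
      intro _
      rw [Nat.not_odd_iff_even]
    by_cases h : ∀ u ∈ box d N, ¬ Odd (H.filter fun e => u = e.1 ∨ u = tip e).card
    · rw [if_pos (hiff.2 h), if_pos h]
    · rw [if_neg (fun h' => h (hiff.1 h')), if_neg h]
  unfold mean
  rw [hnum, hden]
  apply mul_div_mul_left
  have := Real.cosh_pos β
  positivity

end Pool.Agent.H90.SC
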