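import Pool.Agent.H90.SC.Defs

/-!
# SCUR A1: elementary rules for `Ex`

`Ex E p f = ∑ ω ⊆ E, (∏ e ∈ ω, p e) * (∏ e ∈ E \ ω, (1 - p e)) * f ω`.
Everything follows from `Ex_union` (split a subset of `A ∪ B` into its parts in `A` and in `B`),
from `Finset.prod_add` / `Finset.prod_powerset`-type identities (for `Ex_const`:
`∏ e ∈ E, (p e + (1 - p e)) = 1`, see `Finset.prod_add`), and from linearity of finite sums.
-/

namespace Pool.Agent.H90.SC

variable {ε : Type*} [DecidableEq ε]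

theorem Ex_const (E : Finset ε) (p : ε → ℝ) (c : ℝ) : Ex E p (fun _ => c) = c := by
  unfold Ex
  rw [← Finset.sum_mul, ← Finset.prod_add]
  simp

theorem Ex_congr {E : Finset ε} {p : ε → ℝ} {f g : Finset ε → ℝ} (h : ∀ ω, ω ⊆ E → f ω = g ω) :
    Ex E p f = Ex E p g := by
  unfold Ex
  refine Finset.sum_congr rfl ?_
  intro ω hω
  rw [h ω (Finset.mem_powerset.1 hω)]

theorem Ex_congr_p {E : Finset ε} {p q : ε → ℝ} {f : Finset ε → ℝ} (h : ∀ e ∈ E, p e = q e) :
    Ex E p f = Ex E q f := by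
  unfold Ex
  refine Finset.sum_congr rfl ?_
  intro ω hω
  have hω' := Finset.mem_powerset.1 hω
  have h1 : ∏ e ∈ ω, p e = ∏ e ∈ ω, q e := Finset.prod_congr rfl (fun e he => h e (hω' he))
  have h2 : ∏ e ∈ E \ ω, (1 - p e) = ∏ e ∈ E \ ω, (1 - q e) :=
    Finset.prod_congr rfl (fun e he => by rw [h e (Finset.mem_sdiff.1 he).1])
  rw [h1, h2]

theorem Ex_add (E : Finset ε) (p : ε → ℝ) (f g : Finset ε → ℝ) :
    Ex E p (fun ω => f ω + g ω) = Ex E p f + Ex E p g := by
  unfold Ex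
  rw [← Finset.sum_add_distrib]
  refine Finset.sum_congr rfl ?_
  intro ω _
  ring

theorem Ex_sub (E : Finset ε) (p : ε → ℝ) (f g : Finset ε → ℝ) :
    Ex E p (fun ω => f ω - g ω) = Ex E p f - Ex E p g := by
  unfold Ex
  rw [← Finset.sum_sub_distrib]
  refine Finset.sum_congr rfl ?_
  intro ω _
  ring

theorem Ex_mul_left (E : Finset ε) (p : ε → ℝ) (c : ℝ) (f : Finset ε → ℝ) :
    Ex E p (fun ω => c * f ω) = c * Ex E p f := by
  unfold Ex
  rw [Finset.mul_sum]
  refine Finset.sum_congr rfl ?_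
  intro ω _
  ring

theorem Ex_sum {ι : Type*} (I : Finset ι) (E : Finset ε) (p : ε → ℝ) (f : ι → Finset ε → ℝ) :
    Ex E p (fun ω => ∑ i ∈ I, f i ω) = ∑ i ∈ I, Ex E p (f i) := by
  unfold Ex
  rw [Finset.sum_comm]
  refine Finset.sum_congr rfl ?_
  intro ω _
  rw [Finset.mul_sum]

theorem Ex_mono {E : Finset ε} {p : ε → ℝ} (hp : ∀ e ∈ E, 0 ≤ p e ∧ p e ≤ 1)
    {f g : Finset ε → ℝ} (h : ∀ ω, ω ⊆ E → f ω ≤ g ω) : Ex E p f ≤ Ex E p g := by
  unfold Ex
  refine Finset.sum_le_sum ?_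
  intro ω hω
  have hω' := Finset.mem_powerset.1 hω
  have h1 : 0 ≤ ∏ e ∈ ω, p e := Finset.prod_nonneg (fun e he => (hp e (hω' he)).1)
  have h2 : 0 ≤ ∏ e ∈ E \ ω, (1 - p e) := Finset.prod_nonneg (fun e he => by
    have := (hp e (Finset.mem_sdiff.1 he).1).2
    linarith)
  exact mul_le_mul_of_nonneg_left (h ω hω') (mul_nonneg h1 h2)

theorem Ex_nonneg {E : Finset ε} {p : ε → ℝ} (hp : ∀ e ∈ E, 0 ≤ p e ∧ p e ≤ 1)
    {f : Finset ε → ℝ} (h : ∀ ω, ω ⊆ E → 0 ≤ f ω) : 0 ≤ Ex E p f := by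
  have h0 := Ex_mono (E := E) (p := p) hp (f := fun _ => 0) (g := f) h
  rwa [Ex_const] at h0

theorem Ex_union {A B : Finset ε} (hd : Disjoint A B) (p : ε → ℝ) (f : Finset ε → ℝ) :
    Ex (A ∪ B) p f = Ex A p (fun ω => Ex B p (fun ω' => f (ω ∪ ω'))) := by
  unfold Ex
  simp only [Finset.mul_sum]
  rw [← Finset.sum_product']
  symm
  refine Finset.sum_bij' (fun x _ => x.1 ∪ x.2) (fun η _ => (η ∩ A, η ∩ B)) ?_ ?_ ?_ ?_ ?_
  · rintro ⟨ω, ω'⟩ hx
    rw [Finset.mem_product, Finset.mem_powerset, Finset.mem_powerset] at hx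
    rw [Finset.mem_powerset]
    exact Finset.union_subset_union hx.1 hx.2
  · intro η _
    rw [Finset.mem_product, Finset.mem_powerset, Finset.mem_powerset]
    exact ⟨Finset.inter_subset_right, Finset.inter_subset_right⟩
  · rintro ⟨ω, ω'⟩ hx
    rw [Finset.mem_product, Finset.mem_powerset, Finset.mem_powerset] at hx
    obtain ⟨h1, h2⟩ := hx
    simp only [Prod.mk.injEq]
    constructor
    · ext e
      simp only [Finset.mem_inter, Finset.mem_union]
      constructor
      · rintro ⟨h | h, hA⟩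
        · exact h
        · exact absurd (h2 h) (Finset.disjoint_left.1 hd hA)
      · intro h
        exact ⟨Or.inl h, h1 h⟩
    · ext e
      simp only [Finset.mem_inter, Finset.mem_union]
      constructor
      · rintro ⟨h | h, hB⟩
        · exact absurd hB (Finset.disjoint_left.1 hd (h1 h))
        · exact h
      · intro h
        exact ⟨Or.inr h, h2 h⟩
  · intro η hη
    have hη' := Finset.mem_powerset.1 hη
    show (η ∩ A) ∪ (η ∩ B) = η
    rw [← Finset.inter_union_distrib_left]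
    exact Finset.inter_eq_left.2 hη'
  · rintro ⟨ω, ω'⟩ hx
    rw [Finset.mem_product, Finset.mem_powerset, Finset.mem_powerset] at hx
    obtain ⟨h1, h2⟩ := hx
    simp only at h1 h2 ⊢
    have d1 : Disjoint ω ω' := Finset.disjoint_of_subset_left h1 (Finset.disjoint_of_subset_right h2 hd)
    have d2 : Disjoint (A \ ω) (B \ ω') :=
      Finset.disjoint_of_subset_left Finset.sdiff_subset
        (Finset.disjoint_of_subset_right Finset.sdiff_subset hd)
    have e1 : (A ∪ B) \ (ω ∪ ω') = (A \ ω) ∪ (B \ ω') := by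
      ext e
      simp only [Finset.mem_sdiff, Finset.mem_union]
      constructor
      · rintro ⟨hA | hB, hn⟩
        · exact Or.inl ⟨hA, fun h => hn (Or.inl h)⟩
        · exact Or.inr ⟨hB, fun h => hn (Or.inr h)⟩
      · rintro (⟨hA, hn⟩ | ⟨hB, hn⟩)
        · refine ⟨Or.inl hA, ?_⟩
          rintro (h | h)
          · exact hn h
          · exact Finset.disjoint_left.1 hd hA (h2 h)
        · refine ⟨Or.inr hB, ?_⟩
          rintro (h | h)
          · exact Finset.disjoint_left.1 hd (h1 h) hB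
          · exact hn h
    rw [e1, Finset.prod_union d1, Finset.prod_union d2]
    ring

end Pool.Agent.H90.SC
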