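import Pool.Agent.H90.SC.A1

/-!
# SCUR A2: independence for `Ex`

`Dep A f` says that `f ω` depends only on `ω ∩ A` (`A` need not be a subset of `E`).

* `Ex_restrict`: write `E = A ∪ (E \ A)` and use `Ex_union`, `Ex_const` (for `ω ⊆ A` and
  `ω' ⊆ E \ A` one has `(ω ∪ ω') ∩ A = ω ∩ A`, so `f (ω ∪ ω') = f ω`).
* `Ex_mul_indep`: `E = (E ∩ A) ∪ (E \ A)`; on `ω ∪ ω'` the function `f` depends only on `ω` and
  `g` only on `ω'`.
* `Ex_prod_indep`: induction on `I` with `Ex_mul_indep`; the product over `I` depends on the union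
  `I.biUnion A`.
* single edge formulas.
-/

namespace Pool.Agent.H90.SC

variable {ε : Type*} [DecidableEq ε]

theorem Dep.mono {A B : Finset ε} (h : A ⊆ B) {f : Finset ε → ℝ} (hf : Dep A f) : Dep B f := by
  intro ω ω' hω
  apply hf
  have h1 : (ω ∩ B) ∩ A = (ω' ∩ B) ∩ A := by rw [hω]
  rwa [Finset.inter_assoc, Finset.inter_assoc, Finset.inter_eq_right.2 h] at h1

theorem Dep.mul {A B : Finset ε} {f g : Finset ε → ℝ} (hf : Dep A f) (hg : Dep B g) :
    Dep (A ∪ B) (fun ω => f ω * g ω) := by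
  intro ω ω' h
  have h1 := Dep.mono (Finset.subset_union_left (s₁ := A) (s₂ := B)) hf ω ω' h
  have h2 := Dep.mono (Finset.subset_union_right (s₁ := A) (s₂ := B)) hg ω ω' h
  simp only [h1, h2]

theorem Dep.prod {ι : Type*} [DecidableEq ι] (I : Finset ι) (A : ι → Finset ε)
    (f : ι → Finset ε → ℝ) (hf : ∀ i ∈ I, Dep (A i) (f i)) :
    Dep (I.biUnion A) (fun ω => ∏ i ∈ I, f i ω) := by
  intro ω ω' h
  apply Finset.prod_congr rfl
  intro i hi
  exact Dep.mono (Finset.subset_biUnion_of_mem A hi) (hf i hi) ω ω' h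

theorem Ex_restrict {A E : Finset ε} (hA : A ⊆ E) (p : ε → ℝ) {f : Finset ε → ℝ}
    (hf : Dep A f) : Ex E p f = Ex A p f := by
  have hE : E = A ∪ (E \ A) := (Finset.union_sdiff_of_subset hA).symm
  have hd : Disjoint A (E \ A) := Finset.disjoint_sdiff
  rw [hE, Ex_union hd]
  apply Ex_congr
  intro ω hω
  have : Ex (E \ A) p (fun ω' => f (ω ∪ ω')) = Ex (E \ A) p (fun _ => f ω) := by
    apply Ex_congr
    intro ω' hω'
    apply hf
    rw [Finset.union_inter_distrib_right]
    have : ω' ∩ A = ∅ := by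
      rw [← Finset.disjoint_iff_inter_eq_empty]
      exact Finset.disjoint_of_subset_left hω' Finset.sdiff_disjoint
    rw [this, Finset.union_empty]
  rw [this, Ex_const]

theorem Ex_mul_indep {A B : Finset ε} (hd : Disjoint A B) (E : Finset ε) (p : ε → ℝ)
    {f g : Finset ε → ℝ} (hf : Dep A f) (hg : Dep B g) :
    Ex E p (fun ω => f ω * g ω) = Ex E p f * Ex E p g := by
  have hE : E = (E ∩ A) ∪ (E \ A) := by
    rw [Finset.union_comm]
    exact (Finset.sdiff_union_inter E A).symm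
  have hd' : Disjoint (E ∩ A) (E \ A) :=
    Finset.disjoint_of_subset_left Finset.inter_subset_right Finset.disjoint_sdiff
  have hf' : ∀ ω ω', ω ⊆ E ∩ A → ω' ⊆ E \ A → f (ω ∪ ω') = f ω := by
    intro ω ω' _ hω'
    apply hf
    rw [Finset.union_inter_distrib_right]
    have : ω' ∩ A = ∅ := by
      rw [← Finset.disjoint_iff_inter_eq_empty]
      exact Finset.disjoint_of_subset_left hω' Finset.sdiff_disjoint
    rw [this, Finset.union_empty]
  have hg' : ∀ ω ω', ω ⊆ E ∩ A → ω' ⊆ E \ A → g (ω ∪ ω') = g ω' := by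
    intro ω ω' hω _
    apply hg
    rw [Finset.union_inter_distrib_right]
    have : ω ∩ B = ∅ := by
      rw [← Finset.disjoint_iff_inter_eq_empty]
      exact Finset.disjoint_of_subset_left (hω.trans Finset.inter_subset_right) hd
    rw [this, Finset.empty_union]
  have e1 : Ex E p (fun ω => f ω * g ω) =
      Ex (E ∩ A) p (fun ω => Ex (E \ A) p (fun ω' => f (ω ∪ ω') * g (ω ∪ ω'))) := by
    conv_lhs => rw [hE]
    rw [Ex_union hd']
  have e2 : Ex E p f = Ex (E ∩ A) p f := by
    conv_lhs => rw [hE]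
    rw [Ex_union hd']
    apply Ex_congr
    intro ω hω
    have : Ex (E \ A) p (fun ω' => f (ω ∪ ω')) = Ex (E \ A) p (fun _ => f ω) :=
      Ex_congr fun ω' hω' => hf' ω ω' hω hω'
    rw [this, Ex_const]
  have e3 : Ex E p g = Ex (E \ A) p g := by
    conv_lhs => rw [hE]
    rw [Ex_union hd']
    have : Ex (E ∩ A) p (fun ω => Ex (E \ A) p (fun ω' => g (ω ∪ ω'))) =
        Ex (E ∩ A) p (fun _ => Ex (E \ A) p g) :=
      Ex_congr fun ω hω => Ex_congr fun ω' hω' => hg' ω ω' hω hω'
    rw [this, Ex_const]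
  rw [e1, e2, e3]
  have e4 : Ex (E ∩ A) p (fun ω => Ex (E \ A) p (fun ω' => f (ω ∪ ω') * g (ω ∪ ω'))) =
      Ex (E ∩ A) p (fun ω => Ex (E \ A) p g * f ω) := by
    apply Ex_congr
    intro ω hω
    rw [← mul_comm (f ω), ← Ex_mul_left]
    apply Ex_congr
    intro ω' hω'
    rw [hf' ω ω' hω hω', hg' ω ω' hω hω']
  rw [e4, Ex_mul_left, mul_comm]

theorem Ex_prod_indep {ι : Type*} [DecidableEq ι] (I : Finset ι) (A : ι → Finset ε)
    (f : ι → Finset ε → ℝ)
    (hd : ∀ i ∈ I, ∀ j ∈ I, i ≠ j → Disjoint (A i) (A j)) (hf : ∀ i ∈ I, Dep (A i) (f i))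
    (E : Finset ε) (p : ε → ℝ) :
    Ex E p (fun ω => ∏ i ∈ I, f i ω) = ∏ i ∈ I, Ex E p (f i) := by
  induction I using Finset.induction_on with
  | empty => simp only [Finset.prod_empty]; exact Ex_const E p 1
  | insert a I ha ih =>
    have h1 : (fun ω => ∏ i ∈ insert a I, f i ω) = fun ω => f a ω * ∏ i ∈ I, f i ω := by
      funext ω
      rw [Finset.prod_insert ha]
    rw [h1, Finset.prod_insert ha]
    have hdis : Disjoint (A a) (I.biUnion A) := by
      rw [Finset.disjoint_biUnion_right]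
      intro i hi
      exact hd a (Finset.mem_insert_self a I) i (Finset.mem_insert_of_mem hi)
        (fun h => ha (h ▸ hi))
    rw [Ex_mul_indep hdis E p (hf a (Finset.mem_insert_self a I))
      (Dep.prod I A f fun i hi => hf i (Finset.mem_insert_of_mem hi)),
      ih (fun i hi j hj => hd i (Finset.mem_insert_of_mem hi) j (Finset.mem_insert_of_mem hj))
        (fun i hi => hf i (Finset.mem_insert_of_mem hi))]

private theorem A2_dep_mem (e : ε) : Dep {e} (ind fun ω : Finset ε => e ∈ ω) := by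
  intro ω ω' h
  have : e ∈ ω ↔ e ∈ ω' := by
    constructor
    · intro he
      have : e ∈ ω ∩ {e} := Finset.mem_inter.2 ⟨he, Finset.mem_singleton_self e⟩
      rw [h] at this
      exact (Finset.mem_inter.1 this).1
    · intro he
      have : e ∈ ω' ∩ {e} := Finset.mem_inter.2 ⟨he, Finset.mem_singleton_self e⟩
      rw [← h] at this
      exact (Finset.mem_inter.1 this).1
  by_cases he : e ∈ ω'
  · simp [ind, this, he]
  · simp [ind, this, he]

/-- One link is open with probability `p e`. -/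
theorem Ex_mem {E : Finset ε} (p : ε → ℝ) {e : ε} (he : e ∈ E) :
    Ex E p (ind fun ω => e ∈ ω) = p e := by
  rw [Ex_restrict (Finset.singleton_subset_iff.2 he) p (A2_dep_mem e)]
  have h1 : ({e} : Finset ε).powerset = {∅, {e}} := by
    ext s
    simp [Finset.subset_singleton_iff]
  have h2 : (∅ : Finset ε) ≠ {e} := (Finset.singleton_ne_empty e).symm
  simp only [Ex, h1]
  rw [Finset.sum_pair h2]
  simp [ind]

/-- Two different links are both open with probability `p e * p e'`. -/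
theorem Ex_mem_mem {E : Finset ε} (p : ε → ℝ) {e e' : ε} (he : e ∈ E) (he' : e' ∈ E)
    (hne : e ≠ e') : Ex E p (ind fun ω => e ∈ ω ∧ e' ∈ ω) = p e * p e' := by
  have h : (ind fun ω : Finset ε => e ∈ ω ∧ e' ∈ ω) = fun ω =>
      (ind fun ω : Finset ε => e ∈ ω) ω * (ind fun ω : Finset ε => e' ∈ ω) ω := by
    funext ω
    by_cases h1 : e ∈ ω <;> by_cases h2 : e' ∈ ω <;> simp [ind, h1, h2]
  rw [h, Ex_mul_indep (Finset.disjoint_singleton.2 hne) E p (A2_dep_mem e) (A2_dep_mem e'),
    Ex_mem p he, Ex_mem p he']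

end Pool.Agent.H90.SC
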