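import Pool.Agent.H90.SC.A1

/-!
# SCUR A3: change of index set for `Ex`

The map `ω ↦ ω.image ι` is a bijection from the subsets of `E` onto the subsets of `E.image ι`
(`ι` injective on `E`); products transform by `Finset.prod_image`, and
`(E.image ι) \ (ω.image ι) = (E \ ω).image ι`.
-/

namespace Pool.Agent.H90.SC

private lemma A3_inj {ε ε' : Type*} [DecidableEq ε'] {E : Finset ε} {ι : ε → ε'}
    (hι : Set.InjOn ι (E : Set ε)) {ω ω' : Finset ε} (h : ω ⊆ E) (h' : ω' ⊆ E)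
    (he : ω.image ι = ω'.image ι) : ω ⊆ ω' := by
  intro e he1
  have h1 : ι e ∈ ω'.image ι := by rw [← he]; exact Finset.mem_image_of_mem ι he1
  obtain ⟨e', he', hee⟩ := Finset.mem_image.1 h1
  have : e' = e := hι (Finset.mem_coe.2 (h' he')) (Finset.mem_coe.2 (h he1)) hee
  rwa [← this]

private lemma A3_sdiff {ε ε' : Type*} [DecidableEq ε] [DecidableEq ε'] {E : Finset ε} {ι : ε → ε'}
    (hι : Set.InjOn ι (E : Set ε)) {ω : Finset ε} (h : ω ⊆ E) :
    (E.image ι) \ (ω.image ι) = (E \ ω).image ι := by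
  ext x
  simp only [Finset.mem_sdiff, Finset.mem_image]
  constructor
  · rintro ⟨⟨e, he, rfl⟩, hn⟩
    exact ⟨e, ⟨he, fun hw => hn ⟨e, hw, rfl⟩⟩, rfl⟩
  · rintro ⟨e, ⟨he, hw⟩, rfl⟩
    refine ⟨⟨e, he, rfl⟩, ?_⟩
    rintro ⟨e', he', hee⟩
    have : e' = e := hι (Finset.mem_coe.2 (h he')) (Finset.mem_coe.2 he) hee
    exact hw (this ▸ he')

theorem Ex_image {ε ε' : Type*} [DecidableEq ε] [DecidableEq ε'] (E : Finset ε) (ι : ε → ε')
    (hι : Set.InjOn ι (E : Set ε)) (p : ε' → ℝ) (f : Finset ε' → ℝ) :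
    Ex (E.image ι) p f = Ex E (fun e => p (ι e)) (fun ω => f (ω.image ι)) := by
  unfold Ex
  rw [Finset.powerset_image, Finset.sum_image]
  · apply Finset.sum_congr rfl
    intro ω hω
    have hs : ω ⊆ E := Finset.mem_powerset.1 hω
    have h1 : ∏ e ∈ ω.image ι, p e = ∏ e ∈ ω, p (ι e) :=
      Finset.prod_image (hι.mono (Finset.coe_subset.2 hs))
    have h2 : ∏ e ∈ (E \ ω).image ι, (1 - p e) = ∏ e ∈ E \ ω, (1 - p (ι e)) :=
      Finset.prod_image (hι.mono (Finset.coe_subset.2 Finset.sdiff_subset))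
    rw [A3_sdiff hι hs, h1, h2]
  · intro ω hω ω' hω' he
    have hs : ω ⊆ E := Finset.mem_powerset.1 (Finset.mem_coe.1 hω)
    have hs' : ω' ⊆ E := Finset.mem_powerset.1 (Finset.mem_coe.1 hω')
    exact Finset.Subset.antisymm (A3_inj hι hs hs' he) (A3_inj hι hs' hs he.symm)

end Pool.Agent.H90.SC
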