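import Pool.Agent.H90.SC.A1

/-!
# SCUR A4: second moment inequality

Cauchy-Schwarz (`Finset.sum_mul_sq_le_sq_mul_sq` or `inner_mul_le_norm_mul_norm`) applied to
`√w * X` and `√w * 1_{X ≠ 0}`, where `w ω = (∏ e ∈ ω, p e) * ∏ e ∈ E \ ω, (1 - p e) ≥ 0`.
-/

namespace Pool.Agent.H90.SC

variable {ε : Type*} [DecidableEq ε]

theorem Ex_second_moment {E : Finset ε} {p : ε → ℝ} (hp : ∀ e ∈ E, 0 ≤ p e ∧ p e ≤ 1)
    (X : Finset ε → ℝ) :
    (Ex E p X) ^ 2 ≤ Ex E p (fun ω => X ω ^ 2) * Ex E p (ind fun ω => X ω ≠ 0) := by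
  have hw : ∀ ω ∈ E.powerset, 0 ≤ (∏ e ∈ ω, p e) * (∏ e ∈ E \ ω, (1 - p e)) := by
    intro ω hω
    rw [Finset.mem_powerset] at hω
    apply mul_nonneg
    · exact Finset.prod_nonneg fun e he => (hp e (hω he)).1
    · exact Finset.prod_nonneg fun e he => sub_nonneg.2 (hp e (Finset.mem_sdiff.1 he).1).2
  unfold Ex
  apply Finset.sum_sq_le_sum_mul_sum_of_sq_le_mul
  · intro ω hω
    exact mul_nonneg (hw ω hω) (sq_nonneg _)
  · intro ω hω
    apply mul_nonneg (hw ω hω)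
    unfold ind
    split_ifs
    · exact zero_le_one
    · exact le_refl _
  · intro ω _
    by_cases h : X ω = 0
    · simp [h]
    · have h1 : ind (fun ω => X ω ≠ 0) ω = 1 := by
        unfold ind
        rw [if_pos h]
      rw [h1]
      exact le_of_eq (by ring)

end Pool.Agent.H90.SC
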