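import Pool.Agent.H90.SC.A1

/-!
# SCUR A5: Harris' inequality for `Ex`

Either from Mathlib's `fkg` (file `Mathlib/Combinatorics/SetFamily/FourFunctions.lean`; the weight
`μ ω = (∏ e ∈ ω, p e) * ∏ e ∈ E \ ω, (1 - p e)` on the finite distributive lattice of subsets of `E`
satisfies the lattice condition with equality), or by induction on `E`:
`E = insert e E'`, `Ex E p f = p e * Ex E' p (f (insert e ·)) + (1 - p e) * Ex E' p f`
(from `Ex_union`), and `(p a + (1-p) b) (p a' + (1-p) b') ≤ p a a' + (1-p) b b'` when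
`b ≤ a`, `b' ≤ a'`.
-/

namespace Pool.Agent.H90.SC

variable {ε : Type*} [DecidableEq ε]

private theorem A5_split {e : ε} {E : Finset ε} (he : e ∉ E) (p : ε → ℝ) (f : Finset ε → ℝ) :
    Ex (insert e E) p f = p e * Ex E p (fun ω => f (insert e ω)) + (1 - p e) * Ex E p f := by
  have hd : Disjoint ({e} : Finset ε) E := Finset.disjoint_singleton_left.2 he
  rw [← Finset.singleton_union, Ex_union hd]
  unfold Ex
  have hps : ({e} : Finset ε).powerset = {∅, {e}} := by
    ext s
    simp [Finset.subset_singleton_iff]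
  rw [hps, Finset.sum_pair (Finset.singleton_ne_empty e).symm]
  simp only [Finset.prod_empty, Finset.sdiff_empty, Finset.prod_singleton, Finset.sdiff_self,
    Finset.empty_union, one_mul, mul_one, Finset.singleton_union]
  ring

theorem Ex_harris {E : Finset ε} {p : ε → ℝ} (hp : ∀ e ∈ E, 0 ≤ p e ∧ p e ≤ 1)
    {f g : Finset ε → ℝ} (hf : ∀ ω ω', ω ⊆ ω' → f ω ≤ f ω') (hg : ∀ ω ω', ω ⊆ ω' → g ω ≤ g ω') :
    Ex E p f * Ex E p g ≤ Ex E p (fun ω => f ω * g ω) := by
  classical
  induction E using Finset.induction_on generalizing f g with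
  | empty =>
      simp [Ex]
  | insert e E he ih =>
      have hp' : ∀ x ∈ E, 0 ≤ p x ∧ p x ≤ 1 := fun x hx => hp x (Finset.mem_insert_of_mem hx)
      obtain ⟨h0, h1⟩ := hp e (Finset.mem_insert_self e E)
      rw [A5_split he, A5_split he, A5_split he]
      have hf1 : ∀ ω ω', ω ⊆ ω' → f (insert e ω) ≤ f (insert e ω') :=
        fun ω ω' h => hf _ _ (Finset.insert_subset_insert e h)
      have hg1 : ∀ ω ω', ω ⊆ ω' → g (insert e ω) ≤ g (insert e ω') :=
        fun ω ω' h => hg _ _ (Finset.insert_subset_insert e h)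
      have i1 := ih hp' hf1 hg1
      have i0 := ih hp' hf hg
      have mf : Ex E p f ≤ Ex E p (fun ω => f (insert e ω)) :=
        Ex_mono hp' fun ω _ => hf _ _ (Finset.subset_insert e ω)
      have mg : Ex E p g ≤ Ex E p (fun ω => g (insert e ω)) :=
        Ex_mono hp' fun ω _ => hg _ _ (Finset.subset_insert e ω)
      generalize Ex E p (fun ω => f (insert e ω) * g (insert e ω)) = c1 at *
      generalize Ex E p (fun ω => f ω * g ω) = c0 at *
      generalize Ex E p (fun ω => f (insert e ω)) = a at *
      generalize Ex E p (fun ω => g (insert e ω)) = a' at *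
      generalize Ex E p f = b at *
      generalize Ex E p g = b' at *
      have k1 : p e * (a * a') ≤ p e * c1 := mul_le_mul_of_nonneg_left i1 h0
      have k0 : (1 - p e) * (b * b') ≤ (1 - p e) * c0 :=
        mul_le_mul_of_nonneg_left i0 (by linarith)
      have k2 : 0 ≤ p e * (1 - p e) * ((a - b) * (a' - b')) :=
        mul_nonneg (mul_nonneg h0 (by linarith)) (mul_nonneg (by linarith) (by linarith))
      nlinarith [k0, k1, k2]

end Pool.Agent.H90.SC
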