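import Pool.Agent.H90.SC.A2

/-!
# SCUR A6: thinning

`chords a b M ω = {e ∈ ω ∩ M : a e and b e are connected by edges of ω \ M}`.
Averaging `f` over all subsets of `chords a b M ω`, `ω` Bernoulli(`x`), is the same as evaluating
`f (chords a b M ω)` with the edges of `M` open with probability `x / 2` only.

Proof: by `Ex_union` for `E = (E \ M) ∪ M` both sides are averages over `K ⊆ E \ M` (same weights)
of an expectation over `B ⊆ M`; for fixed `K` let `G = {e ∈ M : Conn a b K (a e) (b e)}`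
(`(K ∪ B) \ M = K`, `(K ∪ B) ∩ M = B`), so that `chords = B ∩ G`. It remains to see, for `G ⊆ M`,
`Ex M x (fun B => (1/2)^|B ∩ G| * ∑ F ⊆ B ∩ G, f F) = Ex M (x/2) (fun B => f (B ∩ G))`: restrict
both sides to `G` (`Ex_restrict`), and then
`∑ B ⊆ G, x^|B| (1-x)^|G \ B| (1/2)^|B| ∑ F ⊆ B, f F = ∑ F ⊆ G, f F * (x/2)^|F| * (1 - x/2)^|G \ F|`
(exchange the sums; for fixed `F` the sum over `B = F ∪ C`, `C ⊆ G \ F`, is
`(x/2)^|F| * (x/2 + (1-x))^|G \ F|`).
-/

namespace Pool.Agent.H90.SC

variable {ε V : Type*} [DecidableEq ε] [DecidableEq V]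

private theorem A6_insert {e : ε} {G : Finset ε} (he : e ∉ G) (p : ε → ℝ)
    (f : Finset ε → ℝ) :
    Ex (insert e G) p f = (1 - p e) * Ex G p f + p e * Ex G p (fun ω => f (insert e ω)) := by
  have hd : Disjoint ({e} : Finset ε) G := Finset.disjoint_singleton_left.2 he
  have h1 : ∀ g : Finset ε → ℝ, Ex {e} p g = (1 - p e) * g ∅ + p e * g {e} := by
    intro g
    unfold Ex
    have h2 : ({e} : Finset ε).powerset = {∅, {e}} := by
      ext t
      simp [Finset.subset_singleton_iff]
    rw [h2, Finset.sum_pair (by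
      intro h
      have := Finset.mem_singleton_self e
      rw [← h] at this
      exact absurd this (Finset.notMem_empty e))]
    simp
  have h3 : insert e G = {e} ∪ G := Finset.insert_eq e G
  rw [h3, Ex_union hd, h1]
  have h4 : (fun ω' : Finset ε => f (∅ ∪ ω')) = f := by
    funext ω
    rw [Finset.empty_union]
  have h5 : (fun ω' : Finset ε => f ({e} ∪ ω')) = fun ω => f (insert e ω) := by
    funext ω
    rw [Finset.insert_eq]
  rw [h4, h5]

private theorem A6_core (G : Finset ε) (x : ℝ) : ∀ f : Finset ε → ℝ,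
    Ex G (fun _ => x) (fun B => (1 / 2 : ℝ) ^ B.card * ∑ F ∈ B.powerset, f F) =
      Ex G (fun _ => x / 2) f := by
  induction G using Finset.induction_on with
  | empty =>
    intro f
    unfold Ex
    simp
  | @insert e G he ih =>
    intro f
    rw [A6_insert he, A6_insert he, ih f]
    have h1 : Ex G (fun _ => x) (fun ω => (1 / 2 : ℝ) ^ (insert e ω).card *
        ∑ F ∈ (insert e ω).powerset, f F) =
        Ex G (fun _ => x) (fun ω => 1 / 2 * ((1 / 2 : ℝ) ^ ω.card * ∑ F ∈ ω.powerset, f F) +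
          1 / 2 * ((1 / 2 : ℝ) ^ ω.card * ∑ F ∈ ω.powerset, f (insert e F))) := by
      refine Ex_congr ?_
      intro ω hω
      have hn : e ∉ ω := fun h => he (hω h)
      rw [Finset.card_insert_of_notMem hn, Finset.sum_powerset_insert hn, pow_succ]
      ring
    rw [h1, Ex_add, Ex_mul_left, Ex_mul_left, ih f, ih (fun F => f (insert e F))]
    ring

omit [DecidableEq V] in
private theorem A6_chords (a b : ε → V) (M K : Finset ε) (hK : Disjoint K M) :
    ∃ G : Finset ε, G ⊆ M ∧ ∀ B : Finset ε, B ⊆ M → chords a b M (K ∪ B) = B ∩ G := by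
  classical
  refine ⟨M.filter fun e => Conn a b K (a e) (b e), Finset.filter_subset _ _, ?_⟩
  intro B hB
  have h1 : (K ∪ B) ∩ M = B := by
    ext e
    simp only [Finset.mem_inter, Finset.mem_union]
    constructor
    · rintro ⟨h | h, hM⟩
      · exact absurd hM (Finset.disjoint_left.1 hK h)
      · exact h
    · intro h
      exact ⟨Or.inr h, hB h⟩
  have h2 : (K ∪ B) \ M = K := by
    ext e
    simp only [Finset.mem_sdiff, Finset.mem_union]
    constructor
    · rintro ⟨h | h, hM⟩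
      · exact h
      · exact absurd (hB h) hM
    · intro h
      exact ⟨Or.inl h, Finset.disjoint_left.1 hK h⟩
  ext e
  unfold chords
  rw [h1, h2]
  simp only [Finset.mem_filter, Finset.mem_inter]
  constructor
  · rintro ⟨h, hc⟩
    exact ⟨h, hB h, hc⟩
  · rintro ⟨h, _, hc⟩
    exact ⟨h, hc⟩

private theorem A6_fix (M G : Finset ε) (hG : G ⊆ M) (x : ℝ) (f : Finset ε → ℝ) :
    Ex M (fun _ => x) (fun B => (1 / 2 : ℝ) ^ (B ∩ G).card * ∑ F ∈ (B ∩ G).powerset, f F) =
      Ex M (fun _ => x / 2) (fun B => f (B ∩ G)) := by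
  have d1 : Dep G (fun B : Finset ε =>
      (1 / 2 : ℝ) ^ (B ∩ G).card * ∑ F ∈ (B ∩ G).powerset, f F) := by
    intro ω ω' h
    simp only [h]
  have d2 : Dep G (fun B : Finset ε => f (B ∩ G)) := by
    intro ω ω' h
    simp only [h]
  rw [Ex_restrict hG _ d1, Ex_restrict hG _ d2]
  have h1 : Ex G (fun _ => x)
      (fun B => (1 / 2 : ℝ) ^ (B ∩ G).card * ∑ F ∈ (B ∩ G).powerset, f F) =
      Ex G (fun _ => x) (fun B => (1 / 2 : ℝ) ^ B.card * ∑ F ∈ B.powerset, f F) := by
    refine Ex_congr ?_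
    intro ω hω
    rw [Finset.inter_eq_left.2 hω]
  have h2 : Ex G (fun _ => x / 2) (fun B => f (B ∩ G)) = Ex G (fun _ => x / 2) f := by
    refine Ex_congr ?_
    intro ω hω
    rw [Finset.inter_eq_left.2 hω]
  rw [h1, h2, A6_core]

theorem Ex_thin (a b : ε → V) (E M : Finset ε) (hM : M ⊆ E) (x : ℝ) (f : Finset ε → ℝ) :
    Ex E (fun _ => x) (fun B => (1 / 2 : ℝ) ^ (chords a b M B).card *
        ∑ F ∈ (chords a b M B).powerset, f F) =
      Ex E (fun e => if e ∈ M then x / 2 else x) (fun ω => f (chords a b M ω)) := by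
  have hE : E = (E \ M) ∪ M := (Finset.sdiff_union_of_subset hM).symm
  have hd : Disjoint (E \ M) M := Finset.sdiff_disjoint
  rw [hE, Ex_union hd, Ex_union hd]
  have h0 : ∀ g : Finset ε → ℝ, Ex (E \ M) (fun e => if e ∈ M then x / 2 else x) g =
      Ex (E \ M) (fun _ => x) g := by
    intro g
    refine Ex_congr_p ?_
    intro e he
    rw [if_neg (Finset.mem_sdiff.1 he).2]
  have h1 : ∀ g : Finset ε → ℝ, Ex M (fun e => if e ∈ M then x / 2 else x) g =
      Ex M (fun _ => x / 2) g := by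
    intro g
    refine Ex_congr_p ?_
    intro e he
    rw [if_pos he]
  rw [h0]
  simp only [h1]
  refine Ex_congr ?_
  intro K hK
  have hKM : Disjoint K M := Finset.disjoint_of_subset_left hK hd
  obtain ⟨G, hG, hch⟩ := A6_chords a b M K hKM
  have e1 : Ex M (fun _ => x) (fun B => (1 / 2 : ℝ) ^ (chords a b M (K ∪ B)).card *
        ∑ F ∈ (chords a b M (K ∪ B)).powerset, f F) =
      Ex M (fun _ => x)
        (fun B => (1 / 2 : ℝ) ^ (B ∩ G).card * ∑ F ∈ (B ∩ G).powerset, f F) := by
    refine Ex_congr ?_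
    intro B hB
    rw [hch B hB]
  have e2 : Ex M (fun _ => x / 2) (fun B => f (chords a b M (K ∪ B))) =
      Ex M (fun _ => x / 2) (fun B => f (B ∩ G)) := by
    refine Ex_congr ?_
    intro B hB
    rw [hch B hB]
  rw [e1, e2, A6_fix M G hG]

end Pool.Agent.H90.SC
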