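import Pool.Agent.H90.SC.Defs

/-!
# SCUR B1: the chord lemma

`S ⊆ ω`, and every `s ∈ S` lies on an even subgraph `insert s P` with `P ⊆ ω \ S`. Then for a
uniform even subgraph `η` of `ω`, the set `η ∩ S` is uniform among the subsets of `S`; so for an
increasing `f` the mean of `f η` is at least the mean of `f F`, `F ⊆ S` uniform.

Proof. (1) even sets are closed under symmetric difference (`symmDiff`): at every vertex the number
of incident edges of `η ∆ η'` has the parity of the sum. Also `∅` is even.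
(2) For `s ∈ S` let `C s = insert s P_s`, so `C s ∩ S = {s}` and `C s ⊆ ω`. For `F ⊆ S` there is (by
induction on `F`) an even `D F ⊆ ω` with `D F ∩ S = F`.
(3) For `F ⊆ S` the map `η ↦ η ∆ D F` is a bijection of the even subgraphs `η` of `ω` with
`η ∩ S = ∅` onto those with `η ∩ S = F`; hence all the fibres of `η ↦ η ∩ S` have the same
cardinality `m`, and the number of even subgraphs is `m * 2 ^ S.card`.
(4) `∑ η, f η ≥ ∑ η, f (η ∩ S) = ∑ F ⊆ S, m * f F`.
-/

namespace Pool.Agent.H90.SC

variable {ε V : Type*} [DecidableEq ε] [DecidableEq V]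

private theorem B1_card_symmDiff {ε : Type*} [DecidableEq ε] (A B : Finset ε) :
    (symmDiff A B).card + 2 * (A ∩ B).card = A.card + B.card := by
  have h1 := Finset.card_sdiff_add_card_inter A B
  have h2 := Finset.card_sdiff_add_card_inter B A
  rw [Finset.inter_comm B A] at h2
  have h3 : (symmDiff A B).card = (A \ B).card + (B \ A).card := by
    rw [symmDiff_def, Finset.sup_eq_union, Finset.card_union_of_disjoint]
    exact disjoint_sdiff_sdiff
  omega

private theorem B1_empty (a b : ε → V) : IsEv a b ∅ := by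
  intro v
  simp

private theorem B1_symm {a b : ε → V} {η η' : Finset ε} (h : IsEv a b η) (h' : IsEv a b η') :
    IsEv a b (symmDiff η η') := by
  intro v
  have e : (symmDiff η η').filter (fun e => a e = v ∨ b e = v) =
      symmDiff (η.filter fun e => a e = v ∨ b e = v) (η'.filter fun e => a e = v ∨ b e = v) := by
    ext x
    simp only [Finset.mem_filter, Finset.mem_symmDiff]
    tauto
  rw [e]
  have h1 := B1_card_symmDiff (η.filter fun e => a e = v ∨ b e = v)
    (η'.filter fun e => a e = v ∨ b e = v)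
  have h2 := h v
  have h3 := h' v
  rw [Nat.even_iff] at h2 h3 ⊢
  omega

private theorem B1_exists {a b : ε → V} {ω S : Finset ε} (hS : S ⊆ ω)
    (hc : ∀ s ∈ S, ∃ P, P ⊆ ω \ S ∧ IsEv a b (insert s P)) (F : Finset ε) (hF : F ⊆ S) :
    ∃ D, D ⊆ ω ∧ IsEv a b D ∧ D ∩ S = F := by
  induction F using Finset.induction_on with
  | empty => exact ⟨∅, Finset.empty_subset _, B1_empty a b, Finset.empty_inter _⟩
  | insert s F hs ih =>
    obtain ⟨D, hD, hev, hDS⟩ := ih ((Finset.subset_insert _ _).trans hF)
    have hsS : s ∈ S := hF (Finset.mem_insert_self _ _)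
    obtain ⟨P, hP, hPev⟩ := hc s hsS
    refine ⟨symmDiff D (insert s P), ?_, B1_symm hev hPev, ?_⟩
    · intro x hx
      rw [Finset.mem_symmDiff] at hx
      rcases hx with hx | hx
      · exact hD hx.1
      · rcases Finset.mem_insert.mp hx.1 with rfl | h
        · exact hS hsS
        · exact (Finset.mem_sdiff.mp (hP h)).1
    · ext x
      have h1 : x ∈ F ↔ x ∈ D ∧ x ∈ S := by rw [← hDS, Finset.mem_inter]
      have h2 : x ∈ P → x ∉ S := fun h => (Finset.mem_sdiff.mp (hP h)).2
      by_cases hxs : x = s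
      · subst hxs
        have h3 : x ∉ D := fun h => hs (h1.mpr ⟨h, hsS⟩)
        simp only [Finset.mem_inter, Finset.mem_symmDiff, Finset.mem_insert, true_or, h3, hsS,
          and_true, not_true_eq_false, not_false_eq_true, or_true]
      · simp only [Finset.mem_inter, Finset.mem_symmDiff, Finset.mem_insert, hxs, false_or]
        tauto

open Classical in
theorem chord_avg (a b : ε → V) (ω S : Finset ε) (hS : S ⊆ ω)
    (hc : ∀ s ∈ S, ∃ P, P ⊆ ω \ S ∧ IsEv a b (insert s P)) (f : Finset ε → ℝ)
    (hf : ∀ η η', η ⊆ η' → f η ≤ f η') :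
    ((ω.powerset.filter (IsEv a b)).card : ℝ) * ((1 / 2 : ℝ) ^ S.card * ∑ F ∈ S.powerset, f F) ≤
      ∑ η ∈ ω.powerset.filter (IsEv a b), f η := by
  obtain ⟨D, hD⟩ : ∃ D : Finset ε → Finset ε, ∀ F, F ⊆ S →
      D F ⊆ ω ∧ IsEv a b (D F) ∧ D F ∩ S = F := by
    have h : ∀ F : Finset ε, ∃ D, F ⊆ S → D ⊆ ω ∧ IsEv a b D ∧ D ∩ S = F := by
      intro F
      by_cases hF : F ⊆ S
      · obtain ⟨D, hD⟩ := B1_exists hS hc F hF
        exact ⟨D, fun _ => hD⟩
      · exact ⟨∅, fun h => absurd h hF⟩
    choose D hD using h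
    exact ⟨D, hD⟩
  set Ev := ω.powerset.filter (IsEv a b) with hEv
  have hmaps : ∀ η ∈ Ev, η ∩ S ∈ S.powerset := fun η _ =>
    Finset.mem_powerset.mpr Finset.inter_subset_right
  have hfib : ∀ F ∈ S.powerset, (Ev.filter fun η => η ∩ S = F).card =
      (Ev.filter fun η => η ∩ S = ∅).card := by
    intro F hF
    rw [Finset.mem_powerset] at hF
    obtain ⟨h1, h2, h3⟩ := hD F hF
    refine Finset.card_nbij' (fun η => symmDiff η (D F)) (fun η => symmDiff η (D F)) ?_ ?_ ?_ ?_
    · intro η hη
      rw [Finset.mem_coe, Finset.mem_filter, hEv, Finset.mem_filter, Finset.mem_powerset] at hη ⊢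
      obtain ⟨⟨h4, h5⟩, h6⟩ := hη
      refine ⟨⟨?_, B1_symm h5 h2⟩, ?_⟩
      · intro x hx
        rw [Finset.mem_symmDiff] at hx
        rcases hx with hx | hx
        · exact h4 hx.1
        · exact h1 hx.1
      · ext x
        have h7 : x ∈ F ↔ x ∈ D F ∧ x ∈ S := by
          conv_lhs => rw [← h3]
          rw [Finset.mem_inter]
        have h8 : x ∈ F ↔ x ∈ η ∧ x ∈ S := by rw [← h6, Finset.mem_inter]
        simp only [Finset.mem_inter, Finset.mem_symmDiff, Finset.notMem_empty, iff_false]
        tauto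
    · intro η hη
      rw [Finset.mem_coe, Finset.mem_filter, hEv, Finset.mem_filter, Finset.mem_powerset] at hη ⊢
      obtain ⟨⟨h4, h5⟩, h6⟩ := hη
      refine ⟨⟨?_, B1_symm h5 h2⟩, ?_⟩
      · intro x hx
        rw [Finset.mem_symmDiff] at hx
        rcases hx with hx | hx
        · exact h4 hx.1
        · exact h1 hx.1
      · ext x
        have h7 : x ∈ F ↔ x ∈ D F ∧ x ∈ S := by
          conv_lhs => rw [← h3]
          rw [Finset.mem_inter]
        have h8 : ¬ (x ∈ η ∧ x ∈ S) := by
          intro h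
          have := Finset.mem_inter.mpr h
          rw [h6] at this
          exact Finset.notMem_empty _ this
        simp only [Finset.mem_inter, Finset.mem_symmDiff]
        tauto
    · intro η _
      exact symmDiff_symmDiff_cancel_right _ _
    · intro η _
      exact symmDiff_symmDiff_cancel_right _ _
  set m := (Ev.filter fun η => η ∩ S = ∅).card with hm
  have hcard : (Ev.card : ℝ) = 2 ^ S.card * (m : ℝ) := by
    have h1 := Finset.card_eq_sum_card_fiberwise (f := fun η => η ∩ S) (s := Ev)
      (t := S.powerset) hmaps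
    rw [Finset.sum_congr rfl hfib, Finset.sum_const, Finset.card_powerset, smul_eq_mul] at h1
    rw [h1]
    push_cast
    ring
  have hsum : ∑ η ∈ Ev, f (η ∩ S) = (m : ℝ) * ∑ F ∈ S.powerset, f F := by
    rw [← Finset.sum_fiberwise_of_maps_to (g := fun η => η ∩ S) hmaps, Finset.mul_sum]
    refine Finset.sum_congr rfl fun F hF => ?_
    have h2 : ∑ η ∈ Ev with η ∩ S = F, f (η ∩ S) = ∑ η ∈ Ev with η ∩ S = F, f F := by
      refine Finset.sum_congr rfl fun η hη => ?_
      rw [(Finset.mem_filter.mp hη).2]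
    rw [h2, Finset.sum_const, hfib F hF, nsmul_eq_mul]
  have hle : ∑ η ∈ Ev, f (η ∩ S) ≤ ∑ η ∈ Ev, f η :=
    Finset.sum_le_sum fun η _ => hf _ _ Finset.inter_subset_left
  refine le_trans (le_of_eq ?_) hle
  rw [hsum, hcard]
  have h3 : (2 : ℝ) ^ S.card * (1 / 2) ^ S.card = 1 := by
    rw [← mul_pow]
    norm_num
  linear_combination (m : ℝ) * (∑ F ∈ S.powerset, f F) * h3

end Pool.Agent.H90.SC
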