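import Pool.Agent.H90.SC.Defs

/-!
# SCUR B2: a connected pair of vertices is the boundary of a set of edges

By induction on the `ReflTransGen` chain from `u` to `w` in `K` one finds `P ⊆ K` such that for
every vertex `v` the number of edges of `P` incident to `v` is odd iff exactly one of `v = u`,
`v = w` holds (start with `P = ∅`, `w = u`; to add the step `w → w'` along the edge `e ∈ K` replace
`P` by `P ∆ {e}`; `a e ≠ b e`). For `u = a s`, `w = b s`, `s ∉ K`, the set `insert s P` is even.
-/

namespace Pool.Agent.H90.SC

variable {ε V : Type*} [DecidableEq ε] [DecidableEq V]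

private theorem B2_toggle (a b : ε → V) (P : Finset ε) (e : ε) :
    ∃ P' : Finset ε, P' ⊆ insert e P ∧ ∀ v,
      (Odd (P'.filter fun e => a e = v ∨ b e = v).card ↔
        ¬ (Odd (P.filter fun e => a e = v ∨ b e = v).card ↔ (a e = v ∨ b e = v))) := by
  by_cases he : e ∈ P
  · refine ⟨P.erase e, (Finset.erase_subset _ _).trans (Finset.subset_insert _ _), fun v => ?_⟩
    rw [Finset.filter_erase]
    by_cases hv : a e = v ∨ b e = v
    · have hmem : e ∈ P.filter fun e => a e = v ∨ b e = v := Finset.mem_filter.2 ⟨he, hv⟩
      rw [← Finset.card_erase_add_one hmem, Nat.odd_add_one]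
      simp only [hv, iff_true, not_not]
    · have hnm : e ∉ P.filter fun e => a e = v ∨ b e = v := fun h => hv (Finset.mem_filter.1 h).2
      rw [Finset.erase_eq_of_notMem hnm]
      simp only [hv, iff_false, not_not]
  · refine ⟨insert e P, Finset.Subset.refl _, fun v => ?_⟩
    rw [Finset.filter_insert]
    by_cases hv : a e = v ∨ b e = v
    · rw [if_pos hv, Finset.card_insert_of_notMem (fun h => he (Finset.mem_filter.1 h).1),
        Nat.odd_add_one]
      simp only [hv, iff_true]
    · rw [if_neg hv]
      simp only [hv, iff_false, not_not]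

private theorem B2_path (a b : ε → V) (hab : ∀ e, a e ≠ b e) (K : Finset ε) (u w : V)
    (h : Conn a b K u w) : ∃ P, P ⊆ K ∧ ∀ v,
      (Odd (P.filter fun e => a e = v ∨ b e = v).card ↔ ¬ ((v = u) ↔ (v = w))) := by
  induction h with
  | refl =>
    refine ⟨∅, Finset.empty_subset _, fun v => ?_⟩
    simp
  | tail _ hstep ih =>
    obtain ⟨P, hPK, hP⟩ := ih
    obtain ⟨e, heK, he⟩ := hstep
    obtain ⟨P', hP', hodd⟩ := B2_toggle a b P e
    refine ⟨P', hP'.trans (Finset.insert_subset heK hPK), fun v => ?_⟩
    rw [hodd v, hP v]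
    have hne := hab e
    rcases he with ⟨rfl, rfl⟩ | ⟨rfl, rfl⟩
    · by_cases h1 : v = a e
      · subst h1
        by_cases h5 : a e = u <;> simp_all
      · by_cases h2 : v = b e
        · subst h2
          by_cases h5 : b e = u <;> simp_all
        · have h3 : ¬ (a e = v ∨ b e = v) := by
            rintro (h3 | h3)
            · exact h1 h3.symm
            · exact h2 h3.symm
          by_cases h5 : v = u <;> simp_all
    · by_cases h1 : v = a e
      · subst h1
        by_cases h5 : a e = u <;> simp_all
      · by_cases h2 : v = b e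
        · subst h2
          by_cases h5 : b e = u <;> simp_all
        · have h3 : ¬ (a e = v ∨ b e = v) := by
            rintro (h3 | h3)
            · exact h1 h3.symm
            · exact h2 h3.symm
          by_cases h5 : v = u <;> simp_all

theorem conn_even (a b : ε → V) (hab : ∀ e, a e ≠ b e) (K : Finset ε) (s : ε) (hs : s ∉ K)
    (h : Conn a b K (a s) (b s)) : ∃ P, P ⊆ K ∧ IsEv a b (insert s P) := by
  obtain ⟨P, hPK, hP⟩ := B2_path a b hab K (a s) (b s) h
  refine ⟨P, hPK, fun v => ?_⟩
  have hsP : s ∉ P := fun h' => hs (hPK h')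
  rw [Finset.filter_insert]
  have hne := hab s
  by_cases hv : a s = v ∨ b s = v
  · rw [if_pos hv, Finset.card_insert_of_notMem (fun h => hsP (Finset.mem_filter.1 h).1),
      Nat.even_add_one, Nat.not_even_iff_odd, hP v]
    rcases hv with rfl | rfl
    · intro h1
      exact hne (h1.1 rfl)
    · intro h1
      exact hne (h1.2 rfl).symm
  · rw [if_neg hv, ← Nat.not_odd_iff_even, hP v]
    intro h1
    exact h1 ⟨fun h2 => absurd (Or.inl h2.symm) hv, fun h2 => absurd (Or.inr h2.symm) hv⟩

end Pool.Agent.H90.SC
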