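import Pool.Agent.H90.SC.A5
import Pool.Agent.H90.SC.A6
import Pool.Agent.H90.SC.B1
import Pool.Agent.H90.SC.B2

/-!
# SCUR B3: the loop O(1) model dominates the thinned chords of Bernoulli percolation

Write `Ev ω` for the set of even subgraphs of `ω`.
(1) For `η ⊆ E`: `∑ ω, η ⊆ ω ⊆ E, x^|ω| (1-x)^|E \ ω| = x^|η|`; hence for every `F`
`∑ η even, x^|η| F η = Ex E x (fun ω => ∑ η ∈ Ev ω, F η)` (exchange of sums).
(2) `S ω = chords a b M ω` is a subset of `ω` and every `s ∈ S ω` has its end points connected in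
`ω \ M`, which does not meet `S ω`: by `conn_even` (module B2) and `chord_avg` (module B1)
`∑ η ∈ Ev ω, f η ≥ |Ev ω| * h ω`, `h ω = (1/2)^|S ω| * ∑ F ⊆ S ω, f F`.
(3) `|Ev ω|` and `h` are increasing in `ω` (for `h`: `ω ↦ S ω` is increasing because `Conn` is
monotone in the set of edges, and `S ↦ (1/2)^|S| ∑ F ⊆ S, f F` is increasing in `S`: add one
element `e` to `S`, the sum over the subsets of `insert e S` is
`∑ F ⊆ S, (f F + f (insert e F)) ≥ 2 * ∑ F ⊆ S, f F`). By `Ex_harris` (module A5)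
`Ex |Ev| h ≥ Ex |Ev| * Ex h`, and `Ex |Ev| = ∑ η even, x^|η|` by (1), `Ex h` by `Ex_thin`
(module A6).
-/

namespace Pool.Agent.H90.SC

variable {ε V : Type*} [DecidableEq ε] [DecidableEq V]

private theorem B3_up (E η : Finset ε) (hη : η ⊆ E) (x : ℝ) :
    ∑ ω ∈ E.powerset with η ⊆ ω, (∏ _e ∈ ω, x) * (∏ _e ∈ E \ ω, (1 - x)) = x ^ η.card := by
  have h1 := Ex_const (E \ η) (fun _ => x) (1 : ℝ)
  unfold Ex at h1
  have h2 : ∑ ω ∈ E.powerset with η ⊆ ω, (∏ _e ∈ ω, x) * (∏ _e ∈ E \ ω, (1 - x)) =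
      ∑ C ∈ (E \ η).powerset, x ^ η.card *
        ((∏ _e ∈ C, x) * (∏ _e ∈ (E \ η) \ C, (1 - x)) * 1) := by
    refine Finset.sum_nbij' (fun ω => ω \ η) (fun C => η ∪ C) ?_ ?_ ?_ ?_ ?_
    · intro ω hω
      rw [Finset.mem_filter, Finset.mem_powerset] at hω
      rw [Finset.mem_powerset]
      exact Finset.sdiff_subset_sdiff hω.1 le_rfl
    · intro C hC
      rw [Finset.mem_powerset] at hC
      rw [Finset.mem_filter, Finset.mem_powerset]
      exact ⟨Finset.union_subset hη (hC.trans Finset.sdiff_subset), Finset.subset_union_left⟩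
    · intro ω hω
      rw [Finset.mem_filter, Finset.mem_powerset] at hω
      exact Finset.union_sdiff_of_subset hω.2
    · intro C hC
      rw [Finset.mem_powerset] at hC
      have hd : Disjoint C η := Finset.disjoint_of_subset_left hC Finset.sdiff_disjoint
      exact Finset.union_sdiff_cancel_left hd.symm
    · intro ω hω
      rw [Finset.mem_filter, Finset.mem_powerset] at hω
      have h3 : (E \ η) \ (ω \ η) = E \ ω := by
        ext z
        simp only [Finset.mem_sdiff]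
        constructor
        · rintro ⟨⟨h4, h5⟩, h6⟩
          exact ⟨h4, fun h7 => h6 ⟨h7, h5⟩⟩
        · rintro ⟨h4, h5⟩
          exact ⟨⟨h4, fun h6 => h5 (hω.2 h6)⟩, fun h6 => h5 h6.1⟩
      have h4 : η.card + (ω \ η).card = ω.card := by
        rw [Finset.card_sdiff_of_subset hω.2]
        have := Finset.card_le_card hω.2
        omega
      rw [h3]
      simp only [Finset.prod_const]
      rw [← h4, pow_add]
      ring
  rw [h2, ← Finset.mul_sum, h1, mul_one]

open Classical in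
private theorem B3_swap (a b : ε → V) (E : Finset ε) (x : ℝ) (F : Finset ε → ℝ) :
    ∑ η ∈ E.powerset.filter (IsEv a b), x ^ η.card * F η =
      Ex E (fun _ => x) (fun ω => ∑ η ∈ ω.powerset.filter (IsEv a b), F η) := by
  unfold Ex
  have h1 : ∀ ω ∈ E.powerset, (∏ _e ∈ ω, x) * (∏ _e ∈ E \ ω, (1 - x)) *
      ∑ η ∈ ω.powerset.filter (IsEv a b), F η =
      ∑ η ∈ E.powerset.filter (IsEv a b), if η ⊆ ω then
        (∏ _e ∈ ω, x) * (∏ _e ∈ E \ ω, (1 - x)) * F η else 0 := by
    intro ω hω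
    rw [Finset.mem_powerset] at hω
    rw [Finset.mul_sum, ← Finset.sum_filter]
    refine Finset.sum_congr ?_ fun _ _ => rfl
    ext η
    simp only [Finset.mem_filter, Finset.mem_powerset]
    constructor
    · rintro ⟨h2, h3⟩
      exact ⟨⟨h2.trans hω, h3⟩, h2⟩
    · rintro ⟨⟨_, h3⟩, h2⟩
      exact ⟨h2, h3⟩
  rw [Finset.sum_congr rfl h1, Finset.sum_comm]
  refine Finset.sum_congr rfl fun η hη => ?_
  rw [Finset.mem_filter, Finset.mem_powerset] at hη
  rw [← Finset.sum_filter, ← Finset.sum_mul, B3_up E η hη.1 x]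

private theorem B3_avg_insert (f : Finset ε → ℝ) (hf : ∀ η η', η ⊆ η' → f η ≤ f η')
    (S : Finset ε) (e : ε) (he : e ∉ S) :
    (1 / 2 : ℝ) ^ S.card * ∑ F ∈ S.powerset, f F ≤
      (1 / 2 : ℝ) ^ (insert e S).card * ∑ F ∈ (insert e S).powerset, f F := by
  rw [Finset.card_insert_of_notMem he, Finset.sum_powerset_insert he, pow_succ]
  have h1 : ∑ F ∈ S.powerset, f F ≤ ∑ F ∈ S.powerset, f (insert e F) :=
    Finset.sum_le_sum fun F _ => hf _ _ (Finset.subset_insert _ _)
  have h2 : (0 : ℝ) < (1 / 2) ^ S.card := by positivity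
  nlinarith

private theorem B3_avg_mono (f : Finset ε → ℝ) (hf : ∀ η η', η ⊆ η' → f η ≤ f η')
    (S T : Finset ε) (hST : S ⊆ T) :
    (1 / 2 : ℝ) ^ S.card * ∑ F ∈ S.powerset, f F ≤
      (1 / 2 : ℝ) ^ T.card * ∑ F ∈ T.powerset, f F := by
  have key : ∀ C : Finset ε, Disjoint S C → (1 / 2 : ℝ) ^ S.card * ∑ F ∈ S.powerset, f F ≤
      (1 / 2 : ℝ) ^ (S ∪ C).card * ∑ F ∈ (S ∪ C).powerset, f F := by
    intro C
    induction C using Finset.induction_on with
    | empty =>
      intro _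
      rw [Finset.union_empty]
    | insert e C he ih =>
      intro hd
      rw [Finset.disjoint_insert_right] at hd
      refine (ih hd.2).trans ?_
      rw [Finset.union_insert]
      refine B3_avg_insert f hf _ _ ?_
      rw [Finset.mem_union, not_or]
      exact ⟨hd.1, he⟩
  have h1 := key (T \ S) Finset.disjoint_sdiff
  rwa [Finset.union_sdiff_of_subset hST] at h1

private theorem B3_conn_mono {a b : ε → V} {K K' : Finset ε} (h : K ⊆ K') {u v : V}
    (hc : Conn a b K u v) : Conn a b K' u v := by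
  unfold Conn at hc ⊢
  induction hc with
  | refl => exact Relation.ReflTransGen.refl
  | tail _ h2 ih =>
    obtain ⟨e, he, h1⟩ := h2
    exact ih.tail ⟨e, h he, h1⟩

private theorem B3_chords_mono (a b : ε → V) (M ω ω' : Finset ε) (h : ω ⊆ ω') :
    chords a b M ω ⊆ chords a b M ω' := by
  classical
  intro e he
  unfold chords at he ⊢
  rw [Finset.mem_filter, Finset.mem_inter] at he ⊢
  exact ⟨⟨h he.1.1, he.1.2⟩, B3_conn_mono (Finset.sdiff_subset_sdiff h le_rfl) he.2⟩

open Classical in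
theorem loop_ge (a b : ε → V) (hab : ∀ e, a e ≠ b e) (E M : Finset ε) (hM : M ⊆ E) (x : ℝ)
    (hx0 : 0 ≤ x) (hx1 : x ≤ 1) (f : Finset ε → ℝ) (hf0 : ∀ η, 0 ≤ f η)
    (hf : ∀ η η', η ⊆ η' → f η ≤ f η') :
    (∑ η ∈ E.powerset.filter (IsEv a b), x ^ η.card) *
        Ex E (fun e => if e ∈ M then x / 2 else x) (fun ω => f (chords a b M ω)) ≤
      ∑ η ∈ E.powerset.filter (IsEv a b), x ^ η.card * f η := by
  set h : Finset ε → ℝ := fun ω => (1 / 2 : ℝ) ^ (chords a b M ω).card *
    ∑ F ∈ (chords a b M ω).powerset, f F with hh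
  set c : Finset ε → ℝ := fun ω => ((ω.powerset.filter (IsEv a b)).card : ℝ) with hc
  have hp : ∀ e ∈ E, 0 ≤ (fun _ : ε => x) e ∧ (fun _ : ε => x) e ≤ 1 := fun _ _ => ⟨hx0, hx1⟩
  have h1 : ∀ ω, c ω * h ω ≤ ∑ η ∈ ω.powerset.filter (IsEv a b), f η := by
    intro ω
    refine chord_avg a b ω (chords a b M ω) ?_ ?_ f hf
    · intro e he
      unfold chords at he
      rw [Finset.mem_filter, Finset.mem_inter] at he
      exact he.1.1
    · intro s hs
      unfold chords at hs
      rw [Finset.mem_filter, Finset.mem_inter] at hs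
      obtain ⟨P, hP, hev⟩ := conn_even a b hab (ω \ M) s
        (fun h2 => (Finset.mem_sdiff.mp h2).2 hs.1.2) hs.2
      refine ⟨P, fun z hz => ?_, hev⟩
      have h3 := Finset.mem_sdiff.mp (hP hz)
      rw [Finset.mem_sdiff]
      refine ⟨h3.1, fun h4 => h3.2 ?_⟩
      unfold chords at h4
      rw [Finset.mem_filter, Finset.mem_inter] at h4
      exact h4.1.2
  have hcm : ∀ ω ω', ω ⊆ ω' → c ω ≤ c ω' := by
    intro ω ω' hω
    simp only [hc]
    exact_mod_cast Finset.card_le_card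
      (Finset.filter_subset_filter _ (Finset.powerset_mono.mpr hω))
  have hhm : ∀ ω ω', ω ⊆ ω' → h ω ≤ h ω' := by
    intro ω ω' hω
    exact B3_avg_mono f hf _ _ (B3_chords_mono a b M ω ω' hω)
  have e1 : (∑ η ∈ E.powerset.filter (IsEv a b), x ^ η.card) = Ex E (fun _ => x) c := by
    have h2 := B3_swap a b E x (fun _ => 1)
    simp only [mul_one, Finset.sum_const, nsmul_eq_mul] at h2
    exact h2
  have e2 := Ex_thin a b E M hM x f
  rw [e1, ← e2, B3_swap a b E x f]
  exact (Ex_harris hp hcm hhm).trans (Ex_mono hp fun ω _ => h1 ω)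

end Pool.Agent.H90.SC
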