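import Mathlib

/-!
# SCUR C1: product of convergent series over a finite index set

For nonnegative `a i j` with `HasSum (a i) (c i)` one has
`HasSum (fun m : ι → ℕ => ∏ i, a i (m i)) (∏ i, c i)`.

Possible proofs: induction over `Fintype` (`Fintype.induction_empty_option` or reduce to `Fin n`
with `Fin.consEquiv` / `Fin.insertNthEquiv`) with `HasSum.mul_of_nonneg`-type lemmas
(`HasSum.mul` needs summability of the product, which follows for nonnegative terms from
`Summable.mul_of_nonneg`); or `MeasureTheory.integral_fintype_prod_eq_prod` for counting measures;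
or directly: the finite products over boxes `Fintype.piFinset` are `∏ i, ∑ j ∈ s i, a i j`
(`Finset.prod_univ_sum`).
-/

namespace Pool.Agent.H90.SC

/-- the boxes `{0, …, n-1}^ι` -/
private theorem C1_box_sum {ι : Type*} [Fintype ι] [DecidableEq ι] (a : ι → ℕ → ℝ) (n : ℕ) :
    ∑ m ∈ Fintype.piFinset (fun _ : ι => Finset.range n), ∏ i, a i (m i)
      = ∏ i, ∑ j ∈ Finset.range n, a i j := by
  rw [Finset.prod_univ_sum]

private theorem C1_tendsto_box {ι : Type*} [Fintype ι] [DecidableEq ι] :
    Filter.Tendsto (fun n : ℕ => Fintype.piFinset (fun _ : ι => Finset.range n))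
      Filter.atTop Filter.atTop := by
  apply Filter.tendsto_atTop_finset_of_monotone
  · intro n m hnm x hx
    rw [Fintype.mem_piFinset] at hx ⊢
    intro i
    exact Finset.mem_range.2 (lt_of_lt_of_le (Finset.mem_range.1 (hx i)) hnm)
  · intro x
    refine ⟨∑ i, x i + 1, ?_⟩
    rw [Fintype.mem_piFinset]
    intro i
    apply Finset.mem_range.2
    apply Nat.lt_succ_of_le
    exact Finset.single_le_sum (f := x) (fun _ _ => Nat.zero_le _) (Finset.mem_univ i)

theorem hasSum_pi_prod {ι : Type*} [Fintype ι] (a : ι → ℕ → ℝ) (c : ι → ℝ)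
    (h0 : ∀ i j, 0 ≤ a i j) (h : ∀ i, HasSum (a i) (c i)) :
    HasSum (fun m : ι → ℕ => ∏ i, a i (m i)) (∏ i, c i) := by
  classical
  have hlim : Filter.Tendsto (fun n : ℕ =>
      ∑ m ∈ Fintype.piFinset (fun _ : ι => Finset.range n), ∏ i, a i (m i))
      Filter.atTop (nhds (∏ i, c i)) := by
    have h1 : Filter.Tendsto (fun n : ℕ => ∏ i, ∑ j ∈ Finset.range n, a i j)
        Filter.atTop (nhds (∏ i, c i)) :=
      tendsto_finsetProd _ (fun i _ => (h i).tendsto_sum_nat)
    refine h1.congr ?_
    intro n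
    exact (C1_box_sum a n).symm
  have hnn : ∀ m : ι → ℕ, 0 ≤ ∏ i, a i (m i) :=
    fun m => Finset.prod_nonneg (fun i _ => h0 i (m i))
  have hbound : ∀ u : Finset (ι → ℕ), ∑ m ∈ u, ∏ i, a i (m i) ≤ ∏ i, c i := by
    intro u
    obtain ⟨N, hN⟩ := ((Filter.tendsto_atTop.1 (C1_tendsto_box (ι := ι))) u).exists
    calc ∑ m ∈ u, ∏ i, a i (m i)
        ≤ ∑ m ∈ Fintype.piFinset (fun _ : ι => Finset.range N), ∏ i, a i (m i) :=
          Finset.sum_le_sum_of_subset_of_nonneg hN (fun m _ _ => hnn m)
      _ = ∏ i, ∑ j ∈ Finset.range N, a i j := C1_box_sum a N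
      _ ≤ ∏ i, c i := by
          apply Finset.prod_le_prod
          · intro i _
            exact Finset.sum_nonneg (fun j _ => h0 i j)
          · intro i _
            exact sum_le_hasSum _ (fun j _ => h0 i j) (h i)
  have hs : Summable (fun m : ι → ℕ => ∏ i, a i (m i)) :=
    summable_of_sum_le hnn hbound
  have h2 : Filter.Tendsto (fun n : ℕ =>
      ∑ m ∈ Fintype.piFinset (fun _ : ι => Finset.range n), ∏ i, a i (m i))
      Filter.atTop (nhds (∑' m : ι → ℕ, ∏ i, a i (m i))) := by
    have h4 : Filter.Tendsto (fun s : Finset (ι → ℕ) => ∑ m ∈ s, ∏ i, a i (m i))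
        Filter.atTop (nhds (∑' m : ι → ℕ, ∏ i, a i (m i))) := by
      have h5 := hs.hasSum
      unfold HasSum at h5
      simpa using h5
    exact h4.comp (C1_tendsto_box (ι := ι))
  have h3 := tendsto_nhds_unique h2 hlim
  rw [← h3]
  exact hs.hasSum

end Pool.Agent.H90.SC
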