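import Pool.Agent.H90.SC.Defs
import Pool.Agent.H90.SC.C1

/-!
# SCUR C2: the odd part of the sourceless current is the loop O(1) model

For `m : E → ℕ` let `η = {e ∈ E : m e odd}`. `Sourceless E m` holds iff `η` is an even subgraph
(`Even (∑ ...)` iff the number of odd summands is even, `Finset.even_sum_iff_even_card_odd`).
For fixed `η ⊆ E`, `∑' m with odd part η, ∏ β^(m e)/(m e)! = ∏ e ∈ η, sinh β * ∏ e ∉ η, cosh β =
cosh β ^ |E| * tanh β ^ |η|` by `hasSum_pi_prod` (module C1) with
`a e j = β^j/j!` if `j` has the right parity and `0` otherwise (`Real.hasSum_sinh`,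
`Real.hasSum_cosh`, reindexed: the even/odd terms), and `curSum` is the finite sum over `η`.
`ext0 E m e = m e` for `e ∈ E`.
-/

namespace Pool.Agent.H90.SC

private theorem C2_congr {ι : Type*} {f g : ι → ℝ} {a : ℝ} (h : ∀ i, f i = g i) :
    HasSum f a ↔ HasSum g a := by
  rw [funext h]

open Classical in
/-- The odd part of a current. -/
private noncomputable def C2_od {d : ℕ} (E : Finset (Edg d)) (m : E → ℕ) : Finset (Edg d) :=
  E.filter fun e => Odd (ext0 E m e)

private theorem C2_ext0 {d : ℕ} (E : Finset (Edg d)) (m : E → ℕ) (e : E) :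
    ext0 E m e.1 = m e := by
  unfold ext0
  rw [dif_pos e.2]

private theorem C2_mem {d : ℕ} (E : Finset (Edg d)) (m : E → ℕ) (e : E) :
    e.1 ∈ C2_od E m ↔ Odd (m e) := by
  unfold C2_od
  rw [Finset.mem_filter, C2_ext0]
  exact ⟨fun h => h.2, fun h => ⟨e.2, h⟩⟩

private theorem C2_src {d : ℕ} (E : Finset (Edg d)) (m : E → ℕ) :
    Sourceless E m ↔ IsEv (fun e : Edg d => e.1) tip (C2_od E m) := by
  classical
  unfold Sourceless IsEv
  refine forall_congr' fun v => ?_
  rw [Finset.even_sum_iff_even_card_odd]
  have h : (Finset.univ.filter fun e : E =>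
      Odd (if v = e.1.1 ∨ v = tip e.1 then m e else 0)).map (Function.Embedding.subtype _) =
      (C2_od E m).filter fun e => e.1 = v ∨ tip e = v := by
    ext e
    simp only [Finset.mem_map, Finset.mem_filter, Finset.mem_univ, true_and,
      Function.Embedding.coe_subtype]
    constructor
    · rintro ⟨e', h1, rfl⟩
      split_ifs at h1 with h2
      · refine ⟨(C2_mem E m e').mpr h1, ?_⟩
        rcases h2 with h2 | h2
        · exact Or.inl h2.symm
        · exact Or.inr h2.symm
      · exact absurd h1 (by decide)
    · rintro ⟨h1, h2⟩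
      have h3 : e ∈ E := (Finset.mem_filter.mp h1).1
      refine ⟨⟨e, h3⟩, ?_, rfl⟩
      have h4 : v = e.1 ∨ v = tip e := by
        rcases h2 with h2 | h2
        · exact Or.inl h2.symm
        · exact Or.inr h2.symm
      rw [if_pos h4]
      exact (C2_mem E m ⟨e, h3⟩).mp h1
  rw [← h, Finset.card_map]

open Classical in
private theorem C2_sinh (β : ℝ) :
    HasSum (fun j : ℕ => if Odd j then β ^ j / (j.factorial : ℝ) else 0) (Real.sinh β) := by
  have hinj : Function.Injective (fun n : ℕ => 2 * n + 1) := by
    intro m n h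
    simp only at h
    omega
  rw [← hinj.hasSum_iff]
  · have h1 := Real.hasSum_sinh β
    refine (C2_congr fun n => ?_).mp h1
    simp only [Function.comp]
    rw [if_pos ⟨n, rfl⟩]
  · intro j hj
    refine if_neg fun h => hj ?_
    obtain ⟨k, hk⟩ := h
    exact ⟨k, hk.symm⟩

open Classical in
private theorem C2_cosh (β : ℝ) :
    HasSum (fun j : ℕ => if Odd j then 0 else β ^ j / (j.factorial : ℝ)) (Real.cosh β) := by
  have hinj : Function.Injective (fun n : ℕ => 2 * n) := by
    intro m n h
    simp only at h
    omega
  rw [← hinj.hasSum_iff]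
  · have h1 := Real.hasSum_cosh β
    refine (C2_congr fun n => ?_).mp h1
    simp only [Function.comp]
    rw [if_neg]
    rw [Nat.not_odd_iff_even]
    exact ⟨n, by ring⟩
  · intro j hj
    refine if_pos ?_
    rw [← Nat.not_even_iff_odd]
    intro h
    obtain ⟨k, hk⟩ := h
    exact hj ⟨k, by simp only; omega⟩

open Classical in
theorem curSum_odd {d : ℕ} (β : ℝ) (hβ : 0 ≤ β) (E : Finset (Edg d))
    (A : Set (Finset (Edg d))) :
    curSum β E {n | (E.filter fun e => Odd (n e)) ∈ A} =
      Real.cosh β ^ E.card *
        ∑ η ∈ E.powerset.filter (fun η => IsEv (fun e : Edg d => e.1) tip η ∧ η ∈ A),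
          Real.tanh β ^ η.card := by
  set w : (E → ℕ) → ℝ := fun m => ∏ e, β ^ m e / (m e).factorial with hw
  set T := E.powerset.filter (fun η => IsEv (fun e : Edg d => e.1) tip η ∧ η ∈ A) with hT
  have hint : ∀ m : E → ℕ, (if Sourceless E m ∧ ext0 E m ∈
      {n | (E.filter fun e => Odd (n e)) ∈ A} then w m else 0) =
      ∑ η ∈ T, if C2_od E m = η then w m else 0 := by
    intro m
    rw [Finset.sum_ite_eq]
    have h1 : (Sourceless E m ∧ ext0 E m ∈ {n | (E.filter fun e => Odd (n e)) ∈ A}) ↔
        C2_od E m ∈ T := by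
      rw [hT, Finset.mem_filter, Finset.mem_powerset, C2_src, Set.mem_ofPred_eq]
      constructor
      · rintro ⟨h2, h3⟩
        refine ⟨Finset.filter_subset _ _, h2, ?_⟩
        unfold C2_od
        convert h3
      · rintro ⟨_, h2, h3⟩
        refine ⟨h2, ?_⟩
        unfold C2_od at h3
        convert h3
    by_cases h2 : C2_od E m ∈ T
    · rw [if_pos h2, if_pos (h1.mpr h2)]
    · rw [if_neg h2, if_neg fun h3 => h2 (h1.mp h3)]
  have hone : ∀ η ∈ T, HasSum (fun m : E → ℕ => if C2_od E m = η then w m else 0)
      (Real.cosh β ^ E.card * Real.tanh β ^ η.card) := by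
    intro η hη
    have hηE : η ⊆ E := by
      rw [hT, Finset.mem_filter, Finset.mem_powerset] at hη
      exact hη.1
    have h1 := hasSum_pi_prod (ι := E)
      (fun e j => if (Odd j ↔ e.1 ∈ η) then β ^ j / (j.factorial : ℝ) else 0)
      (fun e => if e.1 ∈ η then Real.sinh β else Real.cosh β)
      (by
        intro e j
        split_ifs
        · positivity
        · exact le_rfl)
      (by
        intro e
        by_cases he : e.1 ∈ η
        · simp only [he, iff_true, if_true]
          exact C2_sinh β
        · simp only [he, iff_false, if_false]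
          refine (C2_congr fun j => ?_).mp (C2_cosh β)
          by_cases hj : Odd j
          · rw [if_pos hj, if_neg (not_not.mpr hj)]
          · rw [if_neg hj, if_pos hj])
    have h2 : ∏ e : E, (if e.1 ∈ η then Real.sinh β else Real.cosh β) =
        Real.cosh β ^ E.card * Real.tanh β ^ η.card := by
      rw [Finset.prod_coe_sort E (fun e => if e ∈ η then Real.sinh β else Real.cosh β)]
      have h3 : ∀ e ∈ E, (if e ∈ η then Real.sinh β else Real.cosh β) =
          Real.cosh β * (if e ∈ η then Real.tanh β else 1) := by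
        intro e _
        split_ifs
        · rw [Real.tanh_eq_sinh_div_cosh, mul_div_cancel₀ _ (Real.cosh_pos β).ne']
        · rw [mul_one]
      rw [Finset.prod_congr rfl h3, Finset.prod_mul_distrib, Finset.prod_const,
        Finset.prod_ite_mem, Finset.inter_eq_right.mpr hηE, Finset.prod_const]
    rw [h2] at h1
    refine (C2_congr fun m => ?_).mp h1
    by_cases h4 : C2_od E m = η
    · rw [if_pos h4, hw]
      refine Finset.prod_congr rfl fun e _ => ?_
      rw [if_pos]
      rw [← h4, C2_mem]
    · rw [if_neg h4]
      have h5 : ∃ e : E, ¬ (Odd (m e) ↔ e.1 ∈ η) := by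
        by_contra hc
        push Not at hc
        apply h4
        ext e
        by_cases he : e ∈ E
        · have := hc ⟨e, he⟩
          rw [← C2_mem] at this
          exact this
        · constructor
          · intro h6
            exact absurd (Finset.mem_filter.mp h6).1 he
          · intro h6
            exact absurd (hηE h6) he
      obtain ⟨e, he⟩ := h5
      exact Finset.prod_eq_zero (Finset.mem_univ e) (if_neg he)
  unfold curSum
  rw [Finset.mul_sum]
  have h6 := hasSum_sum hone
  rw [← h6.tsum_eq]
  refine tsum_congr fun m => ?_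
  exact hint m

end Pool.Agent.H90.SC
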