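import Pool.Agent.H90.SC.Defs
import Pool.Agent.H90.SC.C1

/-!
# SCUR C3: `Pcur` is a probability

The terms of `curSum β E A` are nonnegative and bounded by those of
`∑' m : E → ℕ, ∏ e, β^(m e)/(m e)!`, which is summable by `hasSum_pi_prod` (module C1, with
`∑' j, β^j/j! = exp β`). The current `m = 0` is sourceless with weight `1`, so
`curSum β E Set.univ ≥ 1 > 0`.
-/

namespace Pool.Agent.H90.SC

private theorem C3_prod_nonneg {ι : Type*} [Fintype ι] {β : ℝ} (hβ : 0 ≤ β) (m : ι → ℕ) :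
    0 ≤ ∏ e, β ^ m e / ((m e).factorial : ℝ) :=
  Finset.prod_nonneg fun e _ => div_nonneg (pow_nonneg hβ _) (Nat.cast_nonneg _)

private theorem C3_summable {ι : Type*} [Fintype ι] {β : ℝ} (hβ : 0 ≤ β) :
    Summable (fun m : ι → ℕ => ∏ e, β ^ m e / ((m e).factorial : ℝ)) :=
  (hasSum_pi_prod (fun (_ : ι) (j : ℕ) => β ^ j / (j.factorial : ℝ))
    (fun _ => ∑' j : ℕ, β ^ j / (j.factorial : ℝ))
    (fun _ j => div_nonneg (pow_nonneg hβ _) (Nat.cast_nonneg _))
    (fun _ => (Real.summable_pow_div_factorial β).hasSum)).summable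

open Classical in
private theorem C3_term_nonneg {d : ℕ} {β : ℝ} (hβ : 0 ≤ β) (E : Finset (Edg d))
    (A : Set (Edg d → ℕ)) (m : E → ℕ) : 0 ≤
      if Sourceless E m ∧ ext0 E m ∈ A then ∏ e, β ^ m e / ((m e).factorial : ℝ) else 0 := by
  split_ifs
  · exact C3_prod_nonneg hβ m
  · exact le_rfl

open Classical in
theorem summable_cur {d : ℕ} (β : ℝ) (hβ : 0 ≤ β) (E : Finset (Edg d)) (A : Set (Edg d → ℕ)) :
    Summable (fun m : E → ℕ =>
      if Sourceless E m ∧ ext0 E m ∈ A then ∏ e, β ^ m e / ((m e).factorial : ℝ) else 0) := by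
  refine Summable.of_nonneg_of_le (fun m => C3_term_nonneg hβ E A m) (fun m => ?_)
    (C3_summable (ι := E) hβ)
  split_ifs
  · exact le_rfl
  · exact C3_prod_nonneg hβ m

theorem curSum_univ_pos {d : ℕ} (β : ℝ) (hβ : 0 ≤ β) (E : Finset (Edg d)) :
    0 < curSum β E Set.univ := by
  classical
  unfold curSum
  refine (summable_cur β hβ E Set.univ).tsum_pos (fun m => C3_term_nonneg hβ E Set.univ m)
    (fun _ => 0) ?_
  have hS : Sourceless E (fun _ => 0) := by
    intro x
    simp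
  rw [if_pos ⟨hS, Set.mem_univ _⟩]
  refine Finset.prod_pos fun e _ => ?_
  rw [pow_zero, Nat.factorial_zero, Nat.cast_one, div_one]
  exact one_pos

theorem Pcur_nonneg {d : ℕ} (β : ℝ) (hβ : 0 ≤ β) (E : Finset (Edg d)) (A : Set (Edg d → ℕ)) :
    0 ≤ Pcur β E A := by
  unfold Pcur
  refine div_nonneg ?_ (curSum_univ_pos β hβ E).le
  unfold curSum
  exact tsum_nonneg fun m => C3_term_nonneg hβ E A m

theorem Pcur_univ {d : ℕ} (β : ℝ) (hβ : 0 ≤ β) (E : Finset (Edg d)) :
    Pcur β E Set.univ = 1 := by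
  unfold Pcur
  exact div_self (curSum_univ_pos β hβ E).ne'

theorem Pcur_mono {d : ℕ} (β : ℝ) (hβ : 0 ≤ β) (E : Finset (Edg d)) {A B : Set (Edg d → ℕ)}
    (h : A ⊆ B) : Pcur β E A ≤ Pcur β E B := by
  unfold Pcur
  refine div_le_div_of_nonneg_right ?_ (curSum_univ_pos β hβ E).le
  unfold curSum
  refine (summable_cur β hβ E A).tsum_le_tsum (fun m => ?_) (summable_cur β hβ E B)
  by_cases hA : Sourceless E m ∧ ext0 E m ∈ A
  · rw [if_pos hA, if_pos ⟨hA.1, h hA.2⟩]
  · rw [if_neg hA]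
    exact C3_term_nonneg hβ E B m

theorem Pcur_union {d : ℕ} (β : ℝ) (hβ : 0 ≤ β) (E : Finset (Edg d)) {A B : Set (Edg d → ℕ)}
    (h : Disjoint A B) : Pcur β E (A ∪ B) = Pcur β E A + Pcur β E B := by
  have key : curSum β E (A ∪ B) = curSum β E A + curSum β E B := by
    unfold curSum
    rw [← (summable_cur β hβ E A).tsum_add (summable_cur β hβ E B)]
    refine tsum_congr fun m => ?_
    by_cases hS : Sourceless E m
    · by_cases hA : ext0 E m ∈ A
      · have hB : ext0 E m ∉ B := fun hB => Set.disjoint_left.mp h hA hB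
        rw [if_pos ⟨hS, Or.inl hA⟩, if_pos ⟨hS, hA⟩, if_neg (fun h' => hB h'.2), add_zero]
      · by_cases hB : ext0 E m ∈ B
        · rw [if_pos ⟨hS, Or.inr hB⟩, if_neg (fun h' => hA h'.2), if_pos ⟨hS, hB⟩, zero_add]
        · rw [if_neg (fun h' => h'.2.elim hA hB), if_neg (fun h' => hA h'.2),
            if_neg (fun h' => hB h'.2), add_zero]
    · rw [if_neg (fun h' => hS h'.1), if_neg (fun h' => hS h'.1), if_neg (fun h' => hS h'.1),
        add_zero]
  unfold Pcur
  rw [key, add_div]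

theorem Pcur_compl {d : ℕ} (β : ℝ) (hβ : 0 ≤ β) (E : Finset (Edg d)) (A : Set (Edg d → ℕ)) :
    Pcur β E Aᶜ = 1 - Pcur β E A := by
  have h1 := Pcur_union β hβ E (disjoint_compl_right (a := A))
  rw [Set.union_compl_self, Pcur_univ β hβ E] at h1
  linarith

theorem Pcur_biUnion {d : ℕ} (β : ℝ) (hβ : 0 ≤ β) (E : Finset (Edg d)) {ι : Type*}
    (I : Finset ι) (A : ι → Set (Edg d → ℕ))
    (h : ∀ i ∈ I, ∀ j ∈ I, i ≠ j → Disjoint (A i) (A j)) :
    Pcur β E (⋃ i ∈ I, A i) = ∑ i ∈ I, Pcur β E (A i) := by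
  classical
  induction I using Finset.induction_on with
  | empty =>
    have h0 : (⋃ i ∈ (∅ : Finset ι), A i) = ∅ := by simp
    have h1 := Pcur_compl β hβ E (Set.univ : Set (Edg d → ℕ))
    rw [Set.compl_univ, Pcur_univ β hβ E, sub_self] at h1
    rw [h0, Finset.sum_empty, h1]
  | insert a s ha ih =>
    rw [Finset.set_biUnion_insert, Finset.sum_insert ha, Pcur_union β hβ E, ih]
    · intro i hi j hj hij
      exact h i (Finset.mem_insert_of_mem hi) j (Finset.mem_insert_of_mem hj) hij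
    · rw [Set.disjoint_iUnion₂_right]
      intro i hi
      refine h a (Finset.mem_insert_self _ _) i (Finset.mem_insert_of_mem hi) ?_
      rintro rfl
      exact ha hi

end Pool.Agent.H90.SC
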