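import Pool.Agent.H90.SC.B3
import Pool.Agent.H90.SC.C2
import Pool.Agent.H90.SC.C3

/-!
# SCUR C4: from the current to Bernoulli percolation
-/

namespace Pool.Agent.H90.SC

theorem tip_ne {d : ℕ} (e : Edg d) : e.1 ≠ tip e := by
  intro h
  have := congrFun h e.2
  simp [tip] at this

theorem Pcur_ge {d : ℕ} (β : ℝ) (hβ : 0 ≤ β) (E M : Finset (Edg d)) (hM : M ⊆ E)
    (A : Set (Finset (Edg d))) (hA : ∀ η η', η ⊆ η' → η ∈ A → η' ∈ A) :
    Ex E (fun e => if e ∈ M then Real.tanh β / 2 else Real.tanh β)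
        (ind fun ω => chords (fun e : Edg d => e.1) tip M ω ∈ A) ≤
      Pcur β E {n | (E.filter fun e => Odd (n e)) ∈ A} := by
  classical
  have hx0 : 0 ≤ Real.tanh β := by
    rw [Real.tanh_eq_sinh_div_cosh]
    exact div_nonneg (Real.sinh_nonneg_iff.2 hβ) (Real.cosh_pos β).le
  have hx1 : Real.tanh β ≤ 1 := by
    rw [Real.tanh_eq_sinh_div_cosh, div_le_one (Real.cosh_pos β)]
    exact (Real.sinh_lt_cosh β).le
  have hc : 0 < Real.cosh β ^ E.card := pow_pos (Real.cosh_pos β) _
  -- the function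
  set f : Finset (Edg d) → ℝ := ind fun η => η ∈ A with hf
  have hf0 : ∀ η, 0 ≤ f η := by
    intro η; simp only [hf, ind]; split_ifs <;> norm_num
  have hfm : ∀ η η', η ⊆ η' → f η ≤ f η' := by
    intro η η' h
    simp only [hf, ind]
    by_cases h1 : η ∈ A
    · rw [if_pos h1, if_pos (hA η η' h h1)]
    · rw [if_neg h1]; split_ifs <;> norm_num
  have key := loop_ge (fun e : Edg d => e.1) tip tip_ne E M hM (Real.tanh β) hx0 hx1 f hf0 hfm
  have h1 : curSum β E Set.univ = Real.cosh β ^ E.card *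
      ∑ η ∈ E.powerset.filter (IsEv (fun e : Edg d => e.1) tip), Real.tanh β ^ η.card := by
    have := curSum_odd β hβ E Set.univ
    simp only [Set.mem_univ, and_true, Set.setOf_true] at this
    rw [this]
  have h2 : curSum β E {n | (E.filter fun e => Odd (n e)) ∈ A} = Real.cosh β ^ E.card *
      ∑ η ∈ E.powerset.filter (IsEv (fun e : Edg d => e.1) tip), Real.tanh β ^ η.card * f η := by
    rw [curSum_odd β hβ E A]
    congr 1
    rw [Finset.sum_filter, Finset.sum_filter]
    refine Finset.sum_congr rfl fun η _ => ?_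
    simp only [hf, ind]
    by_cases h3 : IsEv (fun e : Edg d => e.1) tip η <;> by_cases h4 : η ∈ A <;> simp [h3, h4]
  have hpos := curSum_univ_pos β hβ E
  unfold Pcur
  rw [le_div_iff₀ hpos, h2, h1]
  have h5 : Ex E (fun e => if e ∈ M then Real.tanh β / 2 else Real.tanh β)
        (ind fun ω => chords (fun e : Edg d => e.1) tip M ω ∈ A) =
      Ex E (fun e => if e ∈ M then Real.tanh β / 2 else Real.tanh β)
        (fun ω => f (chords (fun e : Edg d => e.1) tip M ω)) := rfl
  rw [h5]
  nlinarith [mul_le_mul_of_nonneg_left key hc.le]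

end Pool.Agent.H90.SC
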