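import Mathlib

/-!
# SCUR D1: the numerical recursion of the cube second moment

Steps: (a) `∑ j ∈ range (m+1), j! (m-j)! ≤ 3 m!` (check `m ≤ 4`, then induction / compare).
(b) by strong induction on `r`: `z r ≤ ∑ c ∈ range (r+1), (3/p)^c (r-c)!`: indeed
`(1/p) ∑ j<r, (r-1-j)! z j ≤ (1/p) ∑ c (3/p)^c ∑ j, (r-1-j)! (j-c)! ≤ (1/p) ∑ c (3/p)^c 3 (r-1-c)!`.
(c) `k^c (k-c)! ≤ 3^c k!` for `c ≤ k`. (`a c = 3^c k!/((k-c)! k^c)` satisfies
`a (c+1) / a c = 3 (k-c)/k`, which is `≥ 1` for `c ≤ 2k/3` and `≤ 1` afterwards; so `a c` is at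
least `min (a 0) (a k)`; `a 0 = 1` and `a k = 3^k k!/k^k ≥ 1` because `k^k/k! ≤ e^k ≤ 3^k`,
`Real.pow_div_factorial_le_exp`.)
(d) `z k / k! ≤ ∑ c, (3 k/16)^c (k-c)!/k! ≤ ∑ c, (9/16)^c ≤ 16/7`.
-/

namespace Pool.Agent.H90.SC

private theorem D1_fac (a b : ℕ) :
    (a + 1).factorial * (b + 1).factorial ≤ (a + b + 1).factorial := by
  induction b with
  | zero => simp
  | succ b ih =>
      calc (a + 1).factorial * (b + 1 + 1).factorial
          = (b + 2) * ((a + 1).factorial * (b + 1).factorial) := by
            rw [Nat.factorial_succ (b + 1)]; ring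
        _ ≤ (a + b + 2) * (a + b + 1).factorial := Nat.mul_le_mul (by omega) ih
        _ = (a + (b + 1) + 1).factorial := by
            rw [show a + (b + 1) + 1 = (a + b + 1) + 1 by ring, Nat.factorial_succ (a + b + 1)]

private theorem D1_conv (m : ℕ) :
    ∑ j ∈ Finset.range (m + 1), j.factorial * (m - j).factorial ≤ 3 * m.factorial := by
  cases m with
  | zero => simp
  | succ n =>
      rw [Finset.sum_range_succ, Finset.sum_range_succ']
      have h : ∑ i ∈ Finset.range n, (i + 1).factorial * (n + 1 - (i + 1)).factorial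
          ≤ n * n.factorial := by
        calc ∑ i ∈ Finset.range n, (i + 1).factorial * (n + 1 - (i + 1)).factorial
            ≤ ∑ _i ∈ Finset.range n, n.factorial := by
              apply Finset.sum_le_sum
              intro i hi
              have hi' : i < n := Finset.mem_range.1 hi
              have h1 := D1_fac i (n - i - 1)
              rwa [show n - i - 1 + 1 = n + 1 - (i + 1) by omega,
                show i + (n - i - 1) + 1 = n by omega] at h1
          _ = n * n.factorial := by simp
      have h2 : (n + 1).factorial = (n + 1) * n.factorial := Nat.factorial_succ n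
      simp only [Nat.factorial_zero, Nat.sub_self, Nat.sub_zero, one_mul, mul_one]
      have h3 : n * n.factorial ≤ (n + 1).factorial := by
        rw [h2]; exact Nat.mul_le_mul (Nat.le_succ n) le_rfl
      omega

private theorem D1_pow (k c : ℕ) (hc : c ≤ k) : ((k : ℝ) + 1) ^ c ≤ 3 * (k : ℝ) ^ c := by
  rcases Nat.eq_zero_or_pos k with rfl | hk
  · have : c = 0 := by omega
    subst this
    norm_num
  · have hk' : (0 : ℝ) < k := by exact_mod_cast hk
    have h1 : ((k : ℝ) + 1) = k * (1 / k + 1) := by field_simp; ring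
    have h2 : (1 / (k : ℝ) + 1) ^ c ≤ 3 := by
      calc (1 / (k : ℝ) + 1) ^ c ≤ (Real.exp (1 / k)) ^ c := by
            apply pow_le_pow_left₀ (by positivity)
            exact Real.add_one_le_exp _
        _ = Real.exp (c * (1 / k)) := by rw [← Real.exp_nat_mul]
        _ ≤ Real.exp 1 := by
            apply Real.exp_le_exp.2
            rw [mul_one_div, div_le_one hk']
            exact_mod_cast hc
        _ ≤ 3 := by linarith [Real.exp_one_lt_d9]
    rw [h1, mul_pow]
    nlinarith [pow_pos hk' c]

private theorem D1_ff (k : ℕ) : ∀ c, c ≤ k →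
    (k : ℝ) ^ c * ((k - c).factorial : ℝ) ≤ 3 ^ c * (k.factorial : ℝ) := by
  induction k with
  | zero =>
      intro c hc
      have : c = 0 := by omega
      subst this
      simp
  | succ k ih =>
      intro c hc
      cases c with
      | zero => simp
      | succ c =>
          have hck : c ≤ k := by omega
          have h1 := ih c hck
          have h2 := D1_pow k c hck
          rw [show k + 1 - (c + 1) = k - c by omega, Nat.factorial_succ k]
          push_cast
          have hf : (0 : ℝ) ≤ ((k - c).factorial : ℝ) := by positivity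
          calc ((k : ℝ) + 1) ^ (c + 1) * ((k - c).factorial : ℝ)
              = ((k : ℝ) + 1) * (((k : ℝ) + 1) ^ c * ((k - c).factorial : ℝ)) := by ring
            _ ≤ ((k : ℝ) + 1) * (3 * (k : ℝ) ^ c * ((k - c).factorial : ℝ)) := by
                gcongr
            _ = ((k : ℝ) + 1) * 3 * ((k : ℝ) ^ c * ((k - c).factorial : ℝ)) := by ring
            _ ≤ ((k : ℝ) + 1) * 3 * (3 ^ c * (k.factorial : ℝ)) := by gcongr
            _ = 3 ^ (c + 1) * (((k : ℝ) + 1) * (k.factorial : ℝ)) := by ring

private theorem D1_z (p : ℝ) (hp : 0 < p) (z : ℕ → ℝ)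
    (hz : ∀ r, z r = (r.factorial : ℝ) +
      (1 / p) * ∑ j ∈ Finset.range r, ((r - 1 - j).factorial : ℝ) * z j) (r : ℕ) :
    z r ≤ ∑ c ∈ Finset.range (r + 1), (3 / p) ^ c * ((r - c).factorial : ℝ) := by
  set F : PowerSeries ℝ := PowerSeries.mk fun n => (n.factorial : ℝ) with hF
  set Q : PowerSeries ℝ := PowerSeries.mk fun n => (3 / p) ^ n with hQ
  have hco : ∀ r, PowerSeries.coeff r (Q * F) =
      ∑ c ∈ Finset.range (r + 1), (3 / p) ^ c * ((r - c).factorial : ℝ) := by
    intro r
    rw [PowerSeries.coeff_mul, Finset.Nat.sum_antidiagonal_eq_sum_range_succ_mk]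
    simp [hF, hQ]
  have hFF : ∀ n, PowerSeries.coeff n (F * F) ≤ 3 * (n.factorial : ℝ) := by
    intro n
    rw [PowerSeries.coeff_mul, Finset.Nat.sum_antidiagonal_eq_sum_range_succ_mk]
    simp only [hF, PowerSeries.coeff_mk]
    have := D1_conv n
    exact_mod_cast this
  rw [← hco]
  induction r using Nat.strong_induction_on with
  | _ r ih =>
    cases r with
    | zero =>
        rw [hz 0, hco]
        simp
    | succ n =>
        have h1 : ∑ j ∈ Finset.range (n + 1), ((n + 1 - 1 - j).factorial : ℝ) * z j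
            ≤ PowerSeries.coeff n ((Q * F) * F) := by
          rw [PowerSeries.coeff_mul, Finset.Nat.sum_antidiagonal_eq_sum_range_succ_mk]
          apply Finset.sum_le_sum
          intro j hj
          have hj' := Finset.mem_range.1 hj
          have h2 := ih j hj'
          simp only [hF, PowerSeries.coeff_mk]
          rw [mul_comm, show n + 1 - 1 - j = n - j by omega]
          exact mul_le_mul_of_nonneg_right h2 (by positivity)
        have h2 : PowerSeries.coeff n ((Q * F) * F) ≤ 3 * PowerSeries.coeff n (Q * F) := by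
          rw [mul_assoc, PowerSeries.coeff_mul, PowerSeries.coeff_mul, Finset.mul_sum]
          apply Finset.sum_le_sum
          intro x _
          have h3 := hFF x.2
          have h4 : 0 ≤ PowerSeries.coeff x.1 Q := by
            simp only [hQ, PowerSeries.coeff_mk]; positivity
          have h5 : PowerSeries.coeff x.2 F = (x.2.factorial : ℝ) := by
            simp [hF]
          rw [h5]
          nlinarith
        have h3 : PowerSeries.coeff (n + 1) (Q * F) =
            ((n + 1).factorial : ℝ) + (3 / p) * PowerSeries.coeff n (Q * F) := by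
          rw [PowerSeries.coeff_mul, PowerSeries.coeff_mul, Finset.Nat.sum_antidiagonal_succ,
            Finset.mul_sum]
          simp only [hF, hQ, PowerSeries.coeff_mk, pow_zero, one_mul]
          congr 1
          apply Finset.sum_congr rfl
          intro x _
          ring
        rw [hz (n + 1), h3]
        have h4 : 0 < 1 / p := by positivity
        have h5 : (1 / p) * ∑ j ∈ Finset.range (n + 1), ((n + 1 - 1 - j).factorial : ℝ) * z j
            ≤ (1 / p) * (3 * PowerSeries.coeff n (Q * F)) :=
          mul_le_mul_of_nonneg_left (h1.trans h2) h4.le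
        have h6 : (1 / p) * (3 * PowerSeries.coeff n (Q * F)) =
            (3 / p) * PowerSeries.coeff n (Q * F) := by ring
        linarith

theorem z_bound (k : ℕ) (hk : 1 ≤ k) (p : ℝ) (hp : 16 / (k : ℝ) ≤ p) (z : ℕ → ℝ)
    (hz : ∀ r, z r = (r.factorial : ℝ) +
      (1 / p) * ∑ j ∈ Finset.range r, ((r - 1 - j).factorial : ℝ) * z j) :
    z k ≤ 16 / 7 * (k.factorial : ℝ) := by
  have hk' : (0 : ℝ) < k := by exact_mod_cast hk
  have hp0 : 0 < p := lt_of_lt_of_le (by positivity) hp
  have hq : 3 / p ≤ (k : ℝ) * (3 / 16) := by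
    rw [div_le_iff₀ hp0]
    rw [div_le_iff₀ hk'] at hp
    nlinarith
  have h1 := D1_z p hp0 z hz k
  have h2 : ∑ c ∈ Finset.range (k + 1), (3 / p) ^ c * ((k - c).factorial : ℝ)
      ≤ ∑ c ∈ Finset.range (k + 1), (9 / 16 : ℝ) ^ c * (k.factorial : ℝ) := by
    apply Finset.sum_le_sum
    intro c hc
    have hc' : c ≤ k := by have := Finset.mem_range.1 hc; omega
    have h3 := D1_ff k c hc'
    calc (3 / p) ^ c * ((k - c).factorial : ℝ)
        ≤ ((k : ℝ) * (3 / 16)) ^ c * ((k - c).factorial : ℝ) := by
          gcongr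
      _ = (3 / 16) ^ c * ((k : ℝ) ^ c * ((k - c).factorial : ℝ)) := by
          rw [mul_pow]; ring
      _ ≤ (3 / 16) ^ c * (3 ^ c * (k.factorial : ℝ)) := by gcongr
      _ = (9 / 16 : ℝ) ^ c * (k.factorial : ℝ) := by
          rw [← mul_assoc, ← mul_pow]; norm_num
  have h4 : ∑ c ∈ Finset.range (k + 1), (9 / 16 : ℝ) ^ c ≤ 16 / 7 := by
    have h5 : Summable fun c : ℕ => (9 / 16 : ℝ) ^ c :=
      summable_geometric_of_lt_one (by norm_num) (by norm_num)
    have h6 := h5.sum_le_tsum (Finset.range (k + 1)) (fun i _ => by positivity)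
    rw [tsum_geometric_of_lt_one (by norm_num) (by norm_num)] at h6
    norm_num at h6 ⊢
    exact h6
  rw [← Finset.sum_mul] at h2
  have h7 : (0 : ℝ) < k.factorial := by positivity
  calc z k ≤ _ := h1
    _ ≤ _ := h2
    _ ≤ 16 / 7 * (k.factorial : ℝ) := mul_le_mul_of_nonneg_right h4 h7.le

end Pool.Agent.H90.SC
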