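import Pool.Agent.H90.SC.D2a

/-!
# SCUR D2b: number of increasing open paths in the cube, second moment

`c ω = (fun e => if e ∈ ω then 1 else 0)`, `N A = NP (c ω) r A` for a set `A` with `r` elements.
`N A` depends only on the edges `(B, b)` with `B.card < r`.

* First moment: `Ex (N A) = p^r r!` (induction on `r`: the last edges `(A.erase a, a)` are
  independent of `NP _ r (A.erase a)`).
* `0 < N A ↔ Rch _ r A` (induction).
* Second moment. Claim(r): for all `A A'` with `r` elements
  `Ex (N A N A') ≤ p^(2r) (r!)^2 + ∑ D ⊆ A ∩ A', ∑ b ∈ (A ∩ A') \ D,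
     p^(2r-1) |D|! z |D| ((r-1-|D|)!)^2`   (call the right side `RHS A A'`).
  It implies the theorem: `RHS A A' ≤ RHS A A`, and the number of pairs `(D, b)` in `A` with
  `|D| = j` is `choose r j * (r-j)`, and `choose r j (r-j) j! (r-1-j)! = r!`, so
  `RHS A A = p^(2r) r! (r! + (1/p) ∑ j<r, (r-1-j)! z j) = p^(2r) r! z r`.
  Induction for the claim: `N A N A' = ∑ a ∈ A, ∑ a' ∈ A', N (A-a) N (A'-a') c(A-a,a) c(A'-a',a')`;
  the last two factors are independent of the first two, and have mean product `p^2` if the two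
  edges are different and `p` if they are equal (only if `A = A'`, `a = a'`). So
  `Ex (N A N A') ≤ p^2 ∑ a a', Ex (N (A-a) N (A'-a')) + [A = A'] p ∑ a, Ex (N (A-a)^2)`.
  Last sum: `≤ p * r * p^(2(r-1)) (r-1)! z (r-1)` by the theorem for `r-1`: these are exactly the
  terms `|D| = r-1` of `RHS A A`. First sum: insert `RHS (A-a) (A'-a')` and exchange the sums: for
  `D ∪ {b} ⊆ A ∩ A'`, `|D| ≤ r-2`, the number of pairs `(a, a')` with `a ∈ A \ (D ∪ {b})`,
  `a' ∈ A' \ (D ∪ {b})` is `(r-1-|D|)^2`.
(Any other proof of `NP_second` is fine; `z` is given by the recursion `hz`.)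
-/

namespace Pool.Agent.H90.SC

open Finset

variable {n : ℕ}

private lemma NP_congr' (r : ℕ) : ∀ (A : Finset (Fin n)), A.card = r →
    ∀ (ω ω' : Finset (Finset (Fin n) × Fin n)),
    (∀ e : Finset (Fin n) × Fin n, e.1.card < r → (e ∈ ω ↔ e ∈ ω')) →
    NP (fun e => if e ∈ ω then (1 : ℝ) else 0) r A =
      NP (fun e => if e ∈ ω' then (1 : ℝ) else 0) r A := by
  induction r with
  | zero => intro A _ ω ω' _; rfl
  | succ r ih =>
    intro A hA ω ω' h
    simp only [NP]
    refine Finset.sum_congr rfl fun a ha => ?_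
    have hc : (A.erase a).card = r := by rw [card_erase_of_mem ha, hA]; rfl
    rw [ih (A.erase a) hc ω ω' (fun e he => h e (by omega))]
    have h1 := h (A.erase a, a) (by show (A.erase a).card < r + 1; omega)
    simp only [h1]

private lemma NP_dep (r : ℕ) (A : Finset (Fin n)) (hA : A.card = r) :
    Dep (univ.filter fun e : Finset (Fin n) × Fin n => e.1.card < r)
      (fun ω => NP (fun e => if e ∈ ω then (1 : ℝ) else 0) r A) := by
  intro ω ω' h
  refine NP_congr' r A hA ω ω' fun e he => ?_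
  have h1 : e ∈ ω ∩ (univ.filter fun e : Finset (Fin n) × Fin n => e.1.card < r) ↔
      e ∈ ω' ∩ (univ.filter fun e : Finset (Fin n) × Fin n => e.1.card < r) := by rw [h]
  simpa [he] using h1

private lemma pair_dep (r : ℕ) (e e' : Finset (Fin n) × Fin n) (he : e.1.card = r)
    (he' : e'.1.card = r) :
    Dep (univ.filter fun e : Finset (Fin n) × Fin n => e.1.card = r)
      (fun ω => (if e ∈ ω then (1 : ℝ) else 0) * (if e' ∈ ω then (1 : ℝ) else 0)) := by
  intro ω ω' h
  have h1 : ∀ e : Finset (Fin n) × Fin n, e.1.card = r → (e ∈ ω ↔ e ∈ ω') := by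
    intro e he
    have h1 : e ∈ ω ∩ (univ.filter fun e : Finset (Fin n) × Fin n => e.1.card = r) ↔
        e ∈ ω' ∩ (univ.filter fun e : Finset (Fin n) × Fin n => e.1.card = r) := by rw [h]
    simpa [he] using h1
  simp only [h1 e he, h1 e' he']

private lemma Ex_pair (p : ℝ) (e e' : Finset (Fin n) × Fin n) :
    Ex univ (fun _ => p) (fun ω : Finset (Finset (Fin n) × Fin n) =>
      (if e ∈ ω then (1 : ℝ) else 0) * (if e' ∈ ω then (1 : ℝ) else 0)) =
      if e = e' then p else p * p := by
  by_cases h : e = e'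
  · subst h
    rw [if_pos rfl]
    refine Eq.trans ?_ (Ex_mem (E := (univ : Finset (Finset (Fin n) × Fin n))) (fun _ => p)
      (mem_univ e))
    refine Ex_congr fun ω _ => ?_
    unfold ind
    by_cases h1 : e ∈ ω
    · rw [if_pos h1, if_pos h1, mul_one]
    · rw [if_neg h1, if_neg h1, mul_zero]
  · rw [if_neg h]
    refine Eq.trans ?_ (Ex_mem_mem (E := (univ : Finset (Finset (Fin n) × Fin n))) (fun _ => p)
      (mem_univ e) (mem_univ e') h)
    refine Ex_congr fun ω _ => ?_
    unfold ind
    by_cases h1 : e ∈ ω <;> by_cases h2 : e' ∈ ω <;> simp [h1, h2]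

/-- the second moment -/
private noncomputable def U (p : ℝ) (r : ℕ) (A A' : Finset (Fin n)) : ℝ :=
  Ex Finset.univ (fun _ => p) (fun ω => NP (fun e => if e ∈ ω then (1 : ℝ) else 0) r A *
    NP (fun e => if e ∈ ω then (1 : ℝ) else 0) r A')

private lemma U_succ (p : ℝ) (r : ℕ) (A A' : Finset (Fin n)) (hA : A.card = r + 1)
    (hA' : A'.card = r + 1) :
    U p (r + 1) A A' = ∑ a ∈ A, ∑ a' ∈ A', U p r (A.erase a) (A'.erase a') *
      (if ((A.erase a, a) : Finset (Fin n) × Fin n) = (A'.erase a', a') then p else p * p) := by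
  unfold U
  have h1 : Ex Finset.univ (fun _ => p) (fun ω => NP (fun e => if e ∈ ω then (1 : ℝ) else 0)
      (r + 1) A * NP (fun e => if e ∈ ω then (1 : ℝ) else 0) (r + 1) A') =
      Ex Finset.univ (fun _ => p) (fun ω => ∑ a ∈ A, ∑ a' ∈ A',
        (NP (fun e => if e ∈ ω then (1 : ℝ) else 0) r (A.erase a) *
          NP (fun e => if e ∈ ω then (1 : ℝ) else 0) r (A'.erase a')) *
        ((if ((A.erase a, a) : Finset (Fin n) × Fin n) ∈ ω then (1 : ℝ) else 0) *
          (if ((A'.erase a', a') : Finset (Fin n) × Fin n) ∈ ω then (1 : ℝ) else 0))) := by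
    refine Ex_congr fun ω _ => ?_
    simp only [NP]
    rw [Finset.sum_mul_sum]
    refine Finset.sum_congr rfl fun a _ => Finset.sum_congr rfl fun a' _ => ?_
    ring
  rw [h1, Ex_sum]
  refine Finset.sum_congr rfl fun a ha => ?_
  rw [Ex_sum]
  refine Finset.sum_congr rfl fun a' ha' => ?_
  have hc : (A.erase a).card = r := by rw [card_erase_of_mem ha, hA]; rfl
  have hc' : (A'.erase a').card = r := by rw [card_erase_of_mem ha', hA']; rfl
  have hd : Disjoint (univ.filter fun e : Finset (Fin n) × Fin n => e.1.card < r)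
      (univ.filter fun e : Finset (Fin n) × Fin n => e.1.card = r) := by
    rw [Finset.disjoint_filter]
    intro e _ h1 h2
    omega
  have hf : Dep (univ.filter fun e : Finset (Fin n) × Fin n => e.1.card < r)
      (fun ω => NP (fun e => if e ∈ ω then (1 : ℝ) else 0) r (A.erase a) *
          NP (fun e => if e ∈ ω then (1 : ℝ) else 0) r (A'.erase a')) := by
    intro ω ω' h
    have e1 := NP_dep r (A.erase a) hc ω ω' h
    have e2 := NP_dep r (A'.erase a') hc' ω ω' h
    simp only at e1 e2 ⊢
    rw [e1, e2]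
  rw [Ex_mul_indep hd univ (fun _ => p) hf (pair_dep r (A.erase a, a) (A'.erase a', a') hc hc'),
    Ex_pair]

private lemma U_nonneg (p : ℝ) (hp0 : 0 < p) (hp1 : p ≤ 1) (r : ℕ) (A A' : Finset (Fin n)) :
    0 ≤ U p r A A' := by
  refine Ex_nonneg (fun e _ => ⟨hp0.le, hp1⟩) fun ω _ => ?_
  exact mul_nonneg (NP_nonneg ω r A) (NP_nonneg ω r A')

/-- counting: pairs `(a, a')` and subsets avoiding them -/
private lemma count_erase (i : ℕ) (A A' : Finset (Fin n)) :
    ∑ a ∈ A, ∑ a' ∈ A', ((((A.erase a) ∩ (A'.erase a')).card.choose i : ℕ) : ℝ) =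
      ((A ∩ A').card.choose i : ℕ) * (((A.card - i : ℕ) : ℝ) * ((A'.card - i : ℕ) : ℝ)) := by
  have h1 : ∀ a ∈ A, ∀ a' ∈ A', ((((A.erase a) ∩ (A'.erase a')).card.choose i : ℕ) : ℝ) =
      ∑ E ∈ (A ∩ A').powersetCard i, (if a ∉ E then (1 : ℝ) else 0) *
        (if a' ∉ E then (1 : ℝ) else 0) := by
    intro a _ a' _
    have h2 : ((A.erase a) ∩ (A'.erase a')).powersetCard i =
        ((A ∩ A').powersetCard i).filter (fun E => a ∉ E ∧ a' ∉ E) := by
      ext E
      simp only [mem_powersetCard, mem_filter]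
      constructor
      · rintro ⟨hE, hc⟩
        refine ⟨⟨fun x hx => ?_, hc⟩, fun hx => ?_, fun hx => ?_⟩
        · have := hE hx
          simp only [mem_inter, mem_erase] at this ⊢
          exact ⟨this.1.2, this.2.2⟩
        · have := hE hx
          simp at this
        · have := hE hx
          simp at this
      · rintro ⟨⟨hE, hc⟩, h3, h4⟩
        refine ⟨fun x hx => ?_, hc⟩
        have := hE hx
        simp only [mem_inter, mem_erase] at this ⊢
        exact ⟨⟨fun h => h3 (h ▸ hx), this.1⟩, ⟨fun h => h4 (h ▸ hx), this.2⟩⟩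
    rw [← card_powersetCard, h2, Finset.card_filter]
    push_cast
    refine Finset.sum_congr rfl fun E _ => ?_
    by_cases h3 : a ∈ E <;> by_cases h4 : a' ∈ E <;> simp [h3, h4]
  have h5 : ∑ a ∈ A, ∑ a' ∈ A', ((((A.erase a) ∩ (A'.erase a')).card.choose i : ℕ) : ℝ) =
      ∑ E ∈ (A ∩ A').powersetCard i, (∑ a ∈ A, (if a ∉ E then (1 : ℝ) else 0)) *
        (∑ a' ∈ A', (if a' ∉ E then (1 : ℝ) else 0)) := by
    rw [Finset.sum_congr rfl fun a ha => Finset.sum_congr rfl fun a' ha' => h1 a ha a' ha']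
    rw [Finset.sum_congr rfl fun a ha => Finset.sum_comm]
    rw [Finset.sum_comm]
    refine Finset.sum_congr rfl fun E _ => ?_
    rw [Finset.sum_mul_sum]
  have h6 : ∀ B : Finset (Fin n), ∀ E ⊆ B,
      (∑ a ∈ B, (if a ∉ E then (1 : ℝ) else 0)) = ((B.card - E.card : ℕ) : ℝ) := by
    intro B E hE
    rw [← Finset.card_sdiff_of_subset hE, Finset.sum_boole]
    congr 2
    ext x
    simp
  rw [h5, Finset.sum_congr rfl (g := fun _ => (((A.card - i : ℕ) : ℝ) * ((A'.card - i : ℕ) : ℝ)))]
  · rw [Finset.sum_const, card_powersetCard, nsmul_eq_mul]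
  · intro E hE
    rw [mem_powersetCard] at hE
    rw [h6 A E (hE.1.trans inter_subset_left), h6 A' E (hE.1.trans inter_subset_right), hE.2]

private noncomputable def B (p : ℝ) (z : ℕ → ℝ) (r m : ℕ) : ℝ :=
  p ^ (2 * r) * (r.factorial : ℝ) ^ 2 + p ^ (2 * r - 1) *
    ∑ j ∈ range r, ((m.choose (j + 1) : ℕ) : ℝ) *
      (((j + 1).factorial : ℝ) * z j * ((r - 1 - j).factorial : ℝ) ^ 2)

private lemma z_nonneg (p : ℝ) (hp0 : 0 < p) (z : ℕ → ℝ)
    (hz : ∀ r, z r = (r.factorial : ℝ) +
      (1 / p) * ∑ j ∈ Finset.range r, ((r - 1 - j).factorial : ℝ) * z j) (r : ℕ) : 0 ≤ z r := by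
  induction r using Nat.strong_induction_on with
  | _ r ih =>
    rw [hz r]
    have : 0 ≤ ∑ j ∈ Finset.range r, ((r - 1 - j).factorial : ℝ) * z j :=
      Finset.sum_nonneg fun j hj => mul_nonneg (by positivity) (ih j (mem_range.mp hj))
    positivity

private lemma B_le (p : ℝ) (hp0 : 0 < p) (z : ℕ → ℝ)
    (hz : ∀ r, z r = (r.factorial : ℝ) +
      (1 / p) * ∑ j ∈ Finset.range r, ((r - 1 - j).factorial : ℝ) * z j)
    (r m : ℕ) (hm : m ≤ r) : B p z r m ≤ p ^ (2 * r) * (r.factorial : ℝ) * z r := by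
  have h1 : ∀ j ∈ range r, ((m.choose (j + 1) : ℕ) : ℝ) *
      (((j + 1).factorial : ℝ) * z j * ((r - 1 - j).factorial : ℝ) ^ 2) ≤
      (r.factorial : ℝ) * (((r - 1 - j).factorial : ℝ) * z j) := by
    intro j hj
    rw [mem_range] at hj
    have hzj := z_nonneg p hp0 z hz j
    have h2 : ((m.choose (j + 1) : ℕ) : ℝ) ≤ ((r.choose (j + 1) : ℕ) : ℝ) := by
      exact_mod_cast Nat.choose_le_choose _ hm
    have h3 : ((r.choose (j + 1) : ℕ) : ℝ) * (((j + 1).factorial : ℝ) *
        ((r - 1 - j).factorial : ℝ)) = (r.factorial : ℝ) := by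
      have h4 := Nat.choose_mul_factorial_mul_factorial (show j + 1 ≤ r by omega)
      rw [show r - (j + 1) = r - 1 - j by omega] at h4
      rw [← h4]
      push_cast
      ring
    calc ((m.choose (j + 1) : ℕ) : ℝ) *
        (((j + 1).factorial : ℝ) * z j * ((r - 1 - j).factorial : ℝ) ^ 2)
        ≤ ((r.choose (j + 1) : ℕ) : ℝ) *
        (((j + 1).factorial : ℝ) * z j * ((r - 1 - j).factorial : ℝ) ^ 2) :=
          mul_le_mul_of_nonneg_right h2 (by positivity)
      _ = (((r.choose (j + 1) : ℕ) : ℝ) * (((j + 1).factorial : ℝ) *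
        ((r - 1 - j).factorial : ℝ))) * (((r - 1 - j).factorial : ℝ) * z j) := by ring
      _ = _ := by rw [h3]
  have h5 : B p z r m ≤ p ^ (2 * r) * (r.factorial : ℝ) ^ 2 + p ^ (2 * r - 1) *
      ((r.factorial : ℝ) * ∑ j ∈ range r, ((r - 1 - j).factorial : ℝ) * z j) := by
    unfold B
    rw [Finset.mul_sum (range r) _ (r.factorial : ℝ)]
    have := Finset.sum_le_sum h1
    have hpp : 0 ≤ p ^ (2 * r - 1) := by positivity
    have := mul_le_mul_of_nonneg_left this hpp
    linarith
  refine h5.trans (le_of_eq ?_)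
  rcases Nat.eq_zero_or_pos r with h0 | h0
  · subst h0
    rw [hz 0]
    simp
  · rw [hz r]
    have h6 : p ^ (2 * r) = p ^ (2 * r - 1) * p := by
      rw [← pow_succ]
      congr 1
      omega
    rw [h6]
    field_simp

private lemma claim (p : ℝ) (hp0 : 0 < p) (hp1 : p ≤ 1) (z : ℕ → ℝ)
    (hz : ∀ r, z r = (r.factorial : ℝ) +
      (1 / p) * ∑ j ∈ Finset.range r, ((r - 1 - j).factorial : ℝ) * z j) (r : ℕ) :
    ∀ (A A' : Finset (Fin n)), A.card = r → A'.card = r → U p r A A' ≤ B p z r (A ∩ A').card := by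
  induction r with
  | zero =>
    intro A A' _ _
    unfold U B
    simp only [NP, mul_one, mul_zero, pow_zero, Nat.factorial_zero, Nat.cast_one, one_pow,
      range_zero, sum_empty, add_zero]
    rw [Ex_const]
  | succ r ih =>
    intro A A' hA hA'
    have hzr := z_nonneg p hp0 z hz
    rw [U_succ p r A A' hA hA']
    -- pointwise bound
    have hpt : ∀ a ∈ A, ∀ a' ∈ A', U p r (A.erase a) (A'.erase a') *
        (if ((A.erase a, a) : Finset (Fin n) × Fin n) = (A'.erase a', a') then p else p * p) ≤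
        p ^ 2 * B p z r ((A.erase a) ∩ (A'.erase a')).card +
          (if A = A' ∧ a = a' then p * (p ^ (2 * r) * (r.factorial : ℝ) * z r) else 0) := by
      intro a ha a' ha'
      have hc : (A.erase a).card = r := by rw [card_erase_of_mem ha, hA]; rfl
      have hc' : (A'.erase a').card = r := by rw [card_erase_of_mem ha', hA']; rfl
      have h1 := ih (A.erase a) (A'.erase a') hc hc'
      have h0 := U_nonneg p hp0 hp1 r (A.erase a) (A'.erase a')
      have h2 : p * p * U p r (A.erase a) (A'.erase a') ≤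
          p ^ 2 * B p z r ((A.erase a) ∩ (A'.erase a')).card := by
        have := mul_le_mul_of_nonneg_left h1 (by positivity : 0 ≤ p ^ 2)
        nlinarith
      by_cases h : A = A' ∧ a = a'
      · rw [if_pos h]
        have h3 : U p r (A.erase a) (A'.erase a') ≤ p ^ (2 * r) * (r.factorial : ℝ) * z r := by
          refine h1.trans (B_le p hp0 z hz r _ ?_)
          exact (card_le_card inter_subset_left).trans hc.le
        have h4 := mul_le_mul_of_nonneg_left h3 hp0.le
        have h5 : 0 ≤ p ^ 2 * B p z r ((A.erase a) ∩ (A'.erase a')).card :=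
          le_trans (by positivity) h2
        rw [if_pos (by rw [h.1, h.2])]
        nlinarith
      · rw [if_neg h, add_zero]
        by_cases h6 : ((A.erase a, a) : Finset (Fin n) × Fin n) = (A'.erase a', a')
        · exfalso
          apply h
          simp only [Prod.mk.injEq] at h6
          refine ⟨?_, h6.2⟩
          rw [← insert_erase ha, h6.1, h6.2, insert_erase ha']
        · rw [if_neg h6]
          linarith
    refine (Finset.sum_le_sum fun a ha => Finset.sum_le_sum fun a' ha' => hpt a ha a' ha').trans ?_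
    simp only [Finset.sum_add_distrib]
    -- first sum
    have hS1 : ∑ a ∈ A, ∑ a' ∈ A', p ^ 2 * B p z r ((A.erase a) ∩ (A'.erase a')).card =
        p ^ (2 * (r + 1)) * (((r + 1).factorial : ℕ) : ℝ) ^ 2 + p ^ (2 * (r + 1) - 1) *
          ∑ j ∈ range r, (((A ∩ A').card.choose (j + 1) : ℕ) : ℝ) *
            (((j + 1).factorial : ℝ) * z j * ((r + 1 - 1 - j).factorial : ℝ) ^ 2) := by
      have e1 : ∀ a ∈ A, ∀ a' ∈ A', p ^ 2 * B p z r ((A.erase a) ∩ (A'.erase a')).card =
          p ^ 2 * (p ^ (2 * r) * (r.factorial : ℝ) ^ 2) + ∑ j ∈ range r,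
            ((((A.erase a) ∩ (A'.erase a')).card.choose (j + 1) : ℕ) : ℝ) *
              (p ^ 2 * p ^ (2 * r - 1) *
                (((j + 1).factorial : ℝ) * z j * ((r - 1 - j).factorial : ℝ) ^ 2)) := by
        intro a _ a' _
        unfold B
        rw [mul_add, ← mul_assoc (p ^ 2) (p ^ (2 * r - 1)), Finset.mul_sum]
        congr 1
        refine Finset.sum_congr rfl fun j _ => ?_
        ring
      rw [Finset.sum_congr rfl fun a ha => Finset.sum_congr rfl fun a' ha' => e1 a ha a' ha']
      simp only [Finset.sum_add_distrib, Finset.sum_const, hA, hA', nsmul_eq_mul]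
      congr 1
      · rw [Nat.factorial_succ, show 2 * (r + 1) = 2 * r + 2 by ring, pow_add]
        push_cast
        ring
      · rw [Finset.sum_congr rfl fun a ha => Finset.sum_comm, Finset.sum_comm, Finset.mul_sum]
        refine Finset.sum_congr rfl fun j hj => ?_
        rw [mem_range] at hj
        simp only [← Finset.sum_mul]
        rw [count_erase, hA, hA']
        have e2 : ((r + 1 - 1 - j).factorial : ℝ) = ((r + 1 - (j + 1) : ℕ) : ℝ) *
            ((r - 1 - j).factorial : ℝ) := by
          have : r + 1 - 1 - j = (r - 1 - j) + 1 := by omega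
          rw [this, Nat.factorial_succ, show r + 1 - (j + 1) = r - 1 - j + 1 by omega]
          push_cast
          ring
        have e3 : p ^ (2 * (r + 1) - 1) = p ^ 2 * p ^ (2 * r - 1) := by
          rw [← pow_add]
          congr 1
          omega
        rw [e2, e3]
        ring
    -- second sum
    have hS2 : ∑ a ∈ A, ∑ a' ∈ A', (if A = A' ∧ a = a' then
        p * (p ^ (2 * r) * (r.factorial : ℝ) * z r) else 0) ≤
        p ^ (2 * (r + 1) - 1) * ((((A ∩ A').card.choose (r + 1) : ℕ) : ℝ) *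
            (((r + 1).factorial : ℝ) * z r * ((r + 1 - 1 - r).factorial : ℝ) ^ 2)) := by
      by_cases h : A = A'
      · subst h
        simp only [true_and]
        rw [Finset.sum_congr rfl (g := fun _ => p * (p ^ (2 * r) * (r.factorial : ℝ) * z r))]
        · rw [Finset.sum_const, hA, inter_self, hA, Nat.choose_self, Nat.factorial_succ,
            show r + 1 - 1 - r = 0 by omega, show 2 * (r + 1) - 1 = 2 * r + 1 by omega, nsmul_eq_mul]
          push_cast
          simp only [Nat.factorial_zero, Nat.cast_one]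
          apply le_of_eq
          ring
        · intro a ha
          rw [Finset.sum_ite_eq A a, if_pos ha]
      · simp only [h, false_and, if_false, Finset.sum_const_zero]
        have := hzr r
        positivity
    have hB : B p z (r + 1) (A ∩ A').card =
        (p ^ (2 * (r + 1)) * (((r + 1).factorial : ℕ) : ℝ) ^ 2 + p ^ (2 * (r + 1) - 1) *
          ∑ j ∈ range r, (((A ∩ A').card.choose (j + 1) : ℕ) : ℝ) *
            (((j + 1).factorial : ℝ) * z j * ((r + 1 - 1 - j).factorial : ℝ) ^ 2)) +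
        p ^ (2 * (r + 1) - 1) * ((((A ∩ A').card.choose (r + 1) : ℕ) : ℝ) *
            (((r + 1).factorial : ℝ) * z r * ((r + 1 - 1 - r).factorial : ℝ) ^ 2)) := by
      unfold B
      rw [Finset.sum_range_succ]
      ring
    rw [hS1, hB]
    linarith

theorem NP_second {n : ℕ} (p : ℝ) (hp0 : 0 < p) (hp1 : p ≤ 1) (z : ℕ → ℝ)
    (hz : ∀ r, z r = (r.factorial : ℝ) +
      (1 / p) * ∑ j ∈ Finset.range r, ((r - 1 - j).factorial : ℝ) * z j)
    (r : ℕ) (A A' : Finset (Fin n)) (hA : A.card = r) (hA' : A'.card = r) :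
    Ex Finset.univ (fun _ => p) (fun ω => NP (fun e => if e ∈ ω then (1 : ℝ) else 0) r A *
        NP (fun e => if e ∈ ω then (1 : ℝ) else 0) r A') ≤
      p ^ (2 * r) * (r.factorial : ℝ) * z r := by
  have h1 := claim p hp0 hp1 z hz r A A' hA hA'
  refine h1.trans (B_le p hp0 z hz r _ ?_)
  exact (card_le_card inter_subset_left).trans hA.le

end Pool.Agent.H90.SC
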