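import Pool.Agent.H90.SC.A2

/-!
# SCUR D2a: number of increasing open paths in the cube, first moment

`NP c r A` (for a set `A` with `r` elements) is the number of increasing open paths from `∅` to `A`;
it depends only on the values of `c` at the edges `(B, b)` with `B.card < r`.
* `NP_pos_iff`, `NP_nonneg`: induction on `r`.
* first moment by induction on `r`: the last edges `(A.erase a, a)` are independent of
  `NP _ r (A.erase a)` (`Ex_mul_indep`, `Ex_mem`): `p^r r! * p * (r+1)`.
-/

namespace Pool.Agent.H90.SC

private theorem D2a_erase_card {n : ℕ} {r : ℕ} {A : Finset (Fin n)} (hA : A.card = r + 1)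
    {a : Fin n} (ha : a ∈ A) : (A.erase a).card = r := by
  rw [Finset.card_erase_of_mem ha, hA]
  rfl

theorem NP_nonneg {n : ℕ} (S : Finset (Finset (Fin n) × Fin n)) (r : ℕ) (A : Finset (Fin n)) :
    0 ≤ NP (fun e => if e ∈ S then (1 : ℝ) else 0) r A := by
  induction r generalizing A with
  | zero => exact zero_le_one
  | succ r ih =>
    unfold NP
    apply Finset.sum_nonneg
    intro a _
    apply mul_nonneg (ih _)
    split_ifs
    · exact zero_le_one
    · exact le_refl _

theorem NP_pos_iff {n : ℕ} (S : Finset (Finset (Fin n) × Fin n)) (r : ℕ) (A : Finset (Fin n))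
    (hA : A.card = r) :
    0 < NP (fun e => if e ∈ S then (1 : ℝ) else 0) r A ↔ Rch (fun e => e ∈ S) r A := by
  induction r generalizing A with
  | zero =>
    unfold NP Rch
    exact ⟨fun _ => Finset.card_eq_zero.1 hA, fun _ => zero_lt_one⟩
  | succ r ih =>
    unfold NP Rch
    rw [Finset.sum_pos_iff_of_nonneg]
    · constructor
      · rintro ⟨a, ha, h⟩
        refine ⟨a, ha, ?_⟩
        by_cases hc : (A.erase a, a) ∈ S
        · rw [if_pos hc, mul_one] at h
          exact ⟨(ih _ (D2a_erase_card hA ha)).1 h, hc⟩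
        · rw [if_neg hc, mul_zero] at h
          exact absurd h (lt_irrefl _)
      · rintro ⟨a, ha, h1, h2⟩
        refine ⟨a, ha, ?_⟩
        rw [if_pos h2, mul_one]
        exact (ih _ (D2a_erase_card hA ha)).2 h1
    · intro a _
      apply mul_nonneg (NP_nonneg S r _)
      split_ifs
      · exact zero_le_one
      · exact le_refl _

private theorem D2a_mem_iff {n : ℕ} {B ω ω' : Finset (Finset (Fin n) × Fin n)}
    (h : ω ∩ B = ω' ∩ B) {e : Finset (Fin n) × Fin n} (he : e ∈ B) : e ∈ ω ↔ e ∈ ω' := by
  have h1 : e ∈ ω ∩ B ↔ e ∈ ω' ∩ B := by rw [h]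
  simpa only [Finset.mem_inter, he, and_true] using h1

private theorem D2a_dep {n : ℕ} (r : ℕ) (A : Finset (Fin n)) (hA : A.card = r) :
    Dep (Finset.univ.filter fun e : Finset (Fin n) × Fin n => e.1.card < r)
      (fun ω => NP (fun e => if e ∈ ω then (1 : ℝ) else 0) r A) := by
  induction r generalizing A with
  | zero =>
    intro ω ω' _
    rfl
  | succ r ih =>
    intro ω ω' h
    dsimp only
    unfold NP
    apply Finset.sum_congr rfl
    intro a ha
    have hc := D2a_erase_card hA ha
    congr 1
    · apply ih _ hc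
      ext e
      rw [Finset.mem_inter, Finset.mem_inter]
      constructor
      · rintro ⟨h1, h2⟩
        refine ⟨(D2a_mem_iff h ?_).1 h1, h2⟩
        rw [Finset.mem_filter] at h2 ⊢
        exact ⟨Finset.mem_univ _, by omega⟩
      · rintro ⟨h1, h2⟩
        refine ⟨(D2a_mem_iff h ?_).2 h1, h2⟩
        rw [Finset.mem_filter] at h2 ⊢
        exact ⟨Finset.mem_univ _, by omega⟩
    · have h1 : (A.erase a, a) ∈ ω ↔ (A.erase a, a) ∈ ω' := by
        apply D2a_mem_iff h
        rw [Finset.mem_filter]
        exact ⟨Finset.mem_univ _, by dsimp only; omega⟩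
      simp only [h1]

theorem NP_first {n : ℕ} (p : ℝ) (r : ℕ) (A : Finset (Fin n)) (hA : A.card = r) :
    Ex Finset.univ (fun _ => p) (fun ω => NP (fun e => if e ∈ ω then (1 : ℝ) else 0) r A) =
      p ^ r * (r.factorial : ℝ) := by
  induction r generalizing A with
  | zero =>
    have h : (fun ω : Finset (Finset (Fin n) × Fin n) =>
        NP (fun e => if e ∈ ω then (1 : ℝ) else 0) 0 A) = fun _ => 1 := by
      funext ω
      unfold NP
      rfl
    rw [h, Ex_const]
    simp
  | succ r ih =>
    have h : (fun ω : Finset (Finset (Fin n) × Fin n) =>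
        NP (fun e => if e ∈ ω then (1 : ℝ) else 0) (r + 1) A) = fun ω => ∑ a ∈ A,
          NP (fun e => if e ∈ ω then (1 : ℝ) else 0) r (A.erase a) *
            ind (fun ω => (A.erase a, a) ∈ ω) ω := by
      funext ω
      conv_lhs => unfold NP
      apply Finset.sum_congr rfl
      intro a _
      congr 1
      unfold ind
      dsimp only
      split_ifs <;> rfl
    rw [h, Ex_sum]
    have h2 : ∀ a ∈ A, Ex Finset.univ (fun _ => p) (fun ω =>
        NP (fun e => if e ∈ ω then (1 : ℝ) else 0) r (A.erase a) *
          ind (fun ω => (A.erase a, a) ∈ ω) ω) = p ^ r * (r.factorial : ℝ) * p := by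
      intro a ha
      have hc := D2a_erase_card hA ha
      rw [Ex_mul_indep (A := Finset.univ.filter fun e : Finset (Fin n) × Fin n => e.1.card < r)
        (B := {(A.erase a, a)}) _ _ _ (D2a_dep r _ hc) _, ih _ hc,
        Ex_mem _ (Finset.mem_univ _)]
      · rw [Finset.disjoint_singleton_right, Finset.mem_filter]
        rintro ⟨-, h3⟩
        dsimp only at h3
        omega
      · intro ω ω' h3
        have h4 : (A.erase a, a) ∈ ω ↔ (A.erase a, a) ∈ ω' :=
          D2a_mem_iff h3 (Finset.mem_singleton_self _)
        unfold ind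
        by_cases hm : (A.erase a, a) ∈ ω'
        · rw [if_pos (h4.2 hm), if_pos hm]
        · rw [if_neg (fun h5 => hm (h4.1 h5)), if_neg hm]
    rw [Finset.sum_congr rfl h2, Finset.sum_const, hA, nsmul_eq_mul, Nat.factorial_succ]
    push_cast
    ring

end Pool.Agent.H90.SC
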