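import Pool.Agent.H90.SC.A2
import Pool.Agent.H90.SC.A3
import Pool.Agent.H90.SC.A4
import Pool.Agent.H90.SC.D1
import Pool.Agent.H90.SC.D2

/-!
# SCUR D3: two neighbouring slices are connected with probability at least 49/272

`X ω = ∑ A with |A| = k, N0 A * N1 A * [inr A ∈ ω]`, where `N0`, `N1` are the path numbers
`NP _ k A` of the two cubes `{inl (false, c)}`, `{inl (true, c)}`. `X ω ≠ 0` implies the event in
`gval` (`NP_pos_iff`). Let `z` be the sequence of module D1/D2 with `p = x`.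
* `Ex X = (k+1) (k! x^k)^2 x` (there are `k+1` sets `A`; the three factors are independent:
  `Ex_mul_indep`, `Ex_restrict`, `Ex_image` reduce each cube factor to `NP_first`, `Ex_mem`).
* `Ex X^2 = ∑ A A', Ex(N0 A N0 A') Ex(N1 A N1 A') Ex([A][A']) ≤ (x^(2k) k! z k)^2 *
  ((k+1) k x^2 + (k+1) x)`.
* `Ex_second_moment`: `gval ≥ (Ex X)^2 / Ex X^2 ≥ (k!/z k)^2 (k+1) x/(k x + 1) ≥ (7/16)^2 (16/17)`
  because `k x ≥ 16`.
-/

namespace Pool.Agent.H90.SC

/-- the sequence of module D1 -/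
private noncomputable def D3_z (p : ℝ) (r : ℕ) : ℝ :=
  (r.factorial : ℝ) + (1 / p) * ∑ j : Fin r, ((r - 1 - (j : ℕ)).factorial : ℝ) * D3_z p j
termination_by r
decreasing_by exact j.2

private lemma D3_z_eq (p : ℝ) (r : ℕ) : D3_z p r = (r.factorial : ℝ) +
      (1 / p) * ∑ j ∈ Finset.range r, ((r - 1 - j).factorial : ℝ) * D3_z p j := by
  rw [D3_z, Finset.sum_range]

/-- the open edges of cube number `q` -/
private def D3_S {k : ℕ} (q : Bool) (ω : Finset (CI k)) : Finset (CubeE k) :=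
  Finset.univ.filter fun c => (Sum.inl (q, c) : CI k) ∈ ω

/-- the indices of cube number `q` -/
private def D3_D (k : ℕ) (q : Bool) : Finset (CI k) :=
  Finset.univ.image fun c : CubeE k => (Sum.inl (q, c) : CI k)

/-- the rungs -/
private def D3_R (k : ℕ) : Finset (CI k) :=
  Finset.univ.image fun A : Finset (Fin (k + 1)) => (Sum.inr A : CI k)

private lemma D3_dep {k : ℕ} (q : Bool) (F : Finset (CubeE k) → ℝ) :
    Dep (D3_D k q) (fun ω => F (D3_S q ω)) := by
  intro ω ω' h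
  have : D3_S q ω = D3_S q ω' := by
    ext c
    have hc : (Sum.inl (q, c) : CI k) ∈ D3_D k q :=
      Finset.mem_image.mpr ⟨c, Finset.mem_univ _, rfl⟩
    simp only [D3_S, Finset.mem_filter, Finset.mem_univ, true_and]
    constructor
    · intro h1
      have h2 : (Sum.inl (q, c) : CI k) ∈ ω ∩ D3_D k q := Finset.mem_inter.mpr ⟨h1, hc⟩
      rw [h] at h2
      exact (Finset.mem_inter.mp h2).1
    · intro h1
      have h2 : (Sum.inl (q, c) : CI k) ∈ ω' ∩ D3_D k q := Finset.mem_inter.mpr ⟨h1, hc⟩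
      rw [← h] at h2
      exact (Finset.mem_inter.mp h2).1
  show F (D3_S q ω) = F (D3_S q ω')
  rw [this]

private lemma D3_Ex_S {k : ℕ} (q : Bool) (x : ℝ) (F : Finset (CubeE k) → ℝ) :
    Ex (CE k) (fun _ => x) (fun ω => F (D3_S q ω)) = Ex Finset.univ (fun _ => x) F := by
  have hsub : D3_D k q ⊆ CE k := by
    intro e he
    obtain ⟨c, _, rfl⟩ := Finset.mem_image.mp he
    exact Finset.inl_mem_disjSum.mpr (Finset.mem_univ _)
  have hinj : Set.InjOn (fun c : CubeE k => (Sum.inl (q, c) : CI k))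
      ((Finset.univ : Finset (CubeE k)) : Set (CubeE k)) := by
    intro a _ b _ hab
    have h1 : (Sum.inl (q, a) : CI k) = Sum.inl (q, b) := hab
    have h2 := Sum.inl.inj h1
    exact (Prod.mk.inj h2).2
  rw [Ex_restrict hsub _ (D3_dep q F)]
  unfold D3_D
  rw [Ex_image _ _ hinj]
  apply Ex_congr
  intro ω _
  have h3 : D3_S q (ω.image fun c : CubeE k => (Sum.inl (q, c) : CI k)) = ω := by
    ext c
    simp only [D3_S, Finset.mem_filter, Finset.mem_univ, true_and, Finset.mem_image]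
    constructor
    · rintro ⟨a, ha, hac⟩
      have h2 := Sum.inl.inj hac
      rw [← (Prod.mk.inj h2).2]
      exact ha
    · intro hc
      exact ⟨c, hc, rfl⟩
  show F (D3_S q (ω.image fun c : CubeE k => (Sum.inl (q, c) : CI k))) = F ω
  rw [h3]

private lemma D3_disj {k : ℕ} : Disjoint (D3_D k false) (D3_D k true) := by
  rw [Finset.disjoint_left]
  intro e h1 h2
  obtain ⟨c, _, rfl⟩ := Finset.mem_image.mp h1
  obtain ⟨c', _, h3⟩ := Finset.mem_image.mp h2
  have h4 := (Prod.mk.inj (Sum.inl.inj h3)).1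
  exact absurd h4 (by decide)

private lemma D3_disj2 {k : ℕ} : Disjoint (D3_D k false ∪ D3_D k true) (D3_R k) := by
  rw [Finset.disjoint_left]
  intro e h1 h2
  obtain ⟨A, _, rfl⟩ := Finset.mem_image.mp h2
  rcases Finset.mem_union.mp h1 with h1 | h1
  · obtain ⟨c', _, h3⟩ := Finset.mem_image.mp h1
    exact Sum.inl_ne_inr h3
  · obtain ⟨c', _, h3⟩ := Finset.mem_image.mp h1
    exact Sum.inl_ne_inr h3

private lemma D3_Ex_mul {k : ℕ} (x : ℝ) (F G : Finset (CubeE k) → ℝ) (H : Finset (CI k) → ℝ)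
    (hH : Dep (D3_R k) H) :
    Ex (CE k) (fun _ => x) (fun ω => (F (D3_S false ω) * G (D3_S true ω)) * H ω) =
      (Ex Finset.univ (fun _ => x) F * Ex Finset.univ (fun _ => x) G) *
        Ex (CE k) (fun _ => x) H := by
  rw [Ex_mul_indep D3_disj2 (CE k) (fun _ => x)
    (Dep.mul (D3_dep false F) (D3_dep true G)) hH,
    Ex_mul_indep D3_disj (CE k) (fun _ => x) (D3_dep false F) (D3_dep true G),
    D3_Ex_S, D3_Ex_S]

/-- indicator of a rung -/
private noncomputable def D3_rg {k : ℕ} (A : Finset (Fin (k + 1))) (ω : Finset (CI k)) : ℝ :=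
  ind (fun ω : Finset (CI k) => (Sum.inr A : CI k) ∈ ω) ω

private lemma D3_rg_dep {k : ℕ} (A : Finset (Fin (k + 1))) : Dep (D3_R k) (D3_rg A) := by
  intro ω ω' h
  have hA : (Sum.inr A : CI k) ∈ D3_R k := Finset.mem_image.mpr ⟨A, Finset.mem_univ _, rfl⟩
  have h1 : (Sum.inr A : CI k) ∈ ω ↔ (Sum.inr A : CI k) ∈ ω' := by
    constructor
    · intro h1
      have h2 : (Sum.inr A : CI k) ∈ ω ∩ D3_R k := Finset.mem_inter.mpr ⟨h1, hA⟩
      rw [h] at h2
      exact (Finset.mem_inter.mp h2).1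
    · intro h1
      have h2 : (Sum.inr A : CI k) ∈ ω' ∩ D3_R k := Finset.mem_inter.mpr ⟨h1, hA⟩
      rw [← h] at h2
      exact (Finset.mem_inter.mp h2).1
  unfold D3_rg ind
  by_cases h2 : (Sum.inr A : CI k) ∈ ω
  · rw [if_pos h2, if_pos (h1.mp h2)]
  · rw [if_neg h2, if_neg (fun h3 => h2 (h1.mpr h3))]

private lemma D3_rg_dep2 {k : ℕ} (A A' : Finset (Fin (k + 1))) :
    Dep (D3_R k) (fun ω => D3_rg A ω * D3_rg A' ω) := by
  have := Dep.mul (D3_rg_dep A) (D3_rg_dep A')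
  rwa [Finset.union_self] at this

/-- the sets with `k` elements -/
private def D3_T (k : ℕ) : Finset (Finset (Fin (k + 1))) :=
  (Finset.univ : Finset (Finset (Fin (k + 1)))).filter fun A => A.card = k

private lemma D3_T_card (k : ℕ) : (D3_T k).card = k + 1 := by
  unfold D3_T
  have h1 : ((Finset.univ : Finset (Finset (Fin (k + 1)))).filter fun A => A.card = k) =
      Finset.powersetCard k Finset.univ := by
    ext A
    simp [Finset.mem_powersetCard]
  rw [h1, Finset.card_powersetCard, Finset.card_univ, Fintype.card_fin,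
    Nat.choose_succ_self_right]

private lemma D3_rg_mem {k : ℕ} {A : Finset (Fin (k + 1))} (hA : A ∈ D3_T k) :
    (Sum.inr A : CI k) ∈ CE k :=
  Finset.inr_mem_disjSum.mpr hA

private lemma D3_Ex_rg {k : ℕ} (x : ℝ) {A : Finset (Fin (k + 1))} (hA : A ∈ D3_T k) :
    Ex (CE k) (fun _ => x) (D3_rg A) = x :=
  Ex_mem (fun _ => x) (D3_rg_mem hA)

private lemma D3_Ex_rg2 {k : ℕ} (x : ℝ) {A A' : Finset (Fin (k + 1))} (hA : A ∈ D3_T k)
    (hA' : A' ∈ D3_T k) :
    Ex (CE k) (fun _ => x) (fun ω => D3_rg A ω * D3_rg A' ω) = if A = A' then x else x * x := by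
  by_cases h : A = A'
  · subst h
    rw [if_pos rfl]
    refine Eq.trans ?_ (D3_Ex_rg x hA)
    apply Ex_congr
    intro ω _
    unfold D3_rg ind
    by_cases h2 : (Sum.inr A : CI k) ∈ ω
    · rw [if_pos h2]; norm_num
    · rw [if_neg h2]; norm_num
  · rw [if_neg h]
    have h0 : (Sum.inr A : CI k) ≠ Sum.inr A' := fun h1 => h (Sum.inr.inj h1)
    have h1 := Ex_mem_mem (fun _ : CI k => x) (D3_rg_mem hA) (D3_rg_mem hA') h0
    have h3 : Ex (CE k) (fun _ => x) (fun ω => D3_rg A ω * D3_rg A' ω) =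
        Ex (CE k) (fun _ => x)
          (ind fun ω : Finset (CI k) => (Sum.inr A : CI k) ∈ ω ∧ (Sum.inr A' : CI k) ∈ ω) := by
      apply Ex_congr
      intro ω _
      by_cases h2 : (Sum.inr A : CI k) ∈ ω
      · by_cases h4 : (Sum.inr A' : CI k) ∈ ω
        · simp [D3_rg, ind, h2, h4]
        · simp [D3_rg, ind, h2, h4]
      · simp [D3_rg, ind, h2]
    rw [h3, h1]

/-- path number in cube number `q` -/
private noncomputable def D3_N {k : ℕ} (A : Finset (Fin (k + 1))) (S : Finset (CubeE k)) : ℝ :=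
  NP (fun e => if e ∈ S then (1 : ℝ) else 0) k A

private noncomputable def D3_X {k : ℕ} (ω : Finset (CI k)) : ℝ :=
  ∑ A ∈ D3_T k, (D3_N A (D3_S false ω) * D3_N A (D3_S true ω)) * D3_rg A ω

private lemma D3_good {k : ℕ} (ω : Finset (CI k)) (h : D3_X ω ≠ 0) :
    GoodP (fun c => Sum.inl (false, c) ∈ ω) (fun c => Sum.inl (true, c) ∈ ω)
      (fun A => Sum.inr A ∈ ω) := by
  obtain ⟨A, hA, h1⟩ := Finset.exists_ne_zero_of_sum_ne_zero h
  have hc : A.card = k := (Finset.mem_filter.mp hA).2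
  have h2 : D3_rg A ω ≠ 0 := right_ne_zero_of_mul h1
  have h3 : D3_N A (D3_S false ω) ≠ 0 := left_ne_zero_of_mul (left_ne_zero_of_mul h1)
  have h4 : D3_N A (D3_S true ω) ≠ 0 := right_ne_zero_of_mul (left_ne_zero_of_mul h1)
  have key : ∀ q : Bool, D3_N A (D3_S q ω) ≠ 0 →
      Rch (fun c : CubeE k => (Sum.inl (q, c) : CI k) ∈ ω) k A := by
    intro q hq
    have h5 : 0 < D3_N A (D3_S q ω) := lt_of_le_of_ne (NP_nonneg _ _ _) (Ne.symm hq)
    have h6 := (NP_pos_iff (D3_S q ω) k A hc).mp h5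
    have h7 : (fun e : CubeE k => e ∈ D3_S q ω) =
        fun c : CubeE k => (Sum.inl (q, c) : CI k) ∈ ω := by
      funext e
      simp [D3_S]
    rwa [h7] at h6
  refine ⟨A, hc, key false h3, key true h4, ?_⟩
  by_contra h5
  apply h2
  unfold D3_rg ind
  exact if_neg h5

theorem gval_ge (k : ℕ) (hk : 1 ≤ k) (x : ℝ) (hx : 16 / (k : ℝ) ≤ x) (hx1 : x ≤ 1) :
    49 / 272 ≤ gval k x := by
  have hk0 : (0 : ℝ) < k := by exact_mod_cast hk
  have hx0 : 0 < x := lt_of_lt_of_le (by positivity) hx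
  have hkx : 16 ≤ k * x := by
    rw [div_le_iff₀ hk0] at hx
    linarith
  have hp : ∀ e ∈ CE k, 0 ≤ (fun _ : CI k => x) e ∧ (fun _ : CI k => x) e ≤ 1 :=
    fun e _ => ⟨hx0.le, hx1⟩
  have hpu : ∀ e ∈ (Finset.univ : Finset (CubeE k)), 0 ≤ (fun _ : CubeE k => x) e ∧
      (fun _ : CubeE k => x) e ≤ 1 := fun e _ => ⟨hx0.le, hx1⟩
  have hzb := z_bound k hk x hx (D3_z x) (D3_z_eq x)
  have hf0 : (0 : ℝ) < (k.factorial : ℝ) := by exact_mod_cast Nat.factorial_pos k
  -- first moment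
  have hN1 : ∀ A ∈ D3_T k, Ex Finset.univ (fun _ => x) (D3_N A) = x ^ k * (k.factorial : ℝ) :=
    fun A hA => NP_first x k A (Finset.mem_filter.mp hA).2
  have hEX : Ex (CE k) (fun _ => x) D3_X =
      (k + 1 : ℝ) * ((x ^ k * (k.factorial : ℝ)) * (x ^ k * (k.factorial : ℝ)) * x) := by
    unfold D3_X
    rw [Ex_sum]
    have h1 : ∀ A ∈ D3_T k, Ex (CE k) (fun _ => x)
        (fun ω => (D3_N A (D3_S false ω) * D3_N A (D3_S true ω)) * D3_rg A ω) =
        (x ^ k * (k.factorial : ℝ)) * (x ^ k * (k.factorial : ℝ)) * x := by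
      intro A hA
      rw [D3_Ex_mul x (D3_N A) (D3_N A) (D3_rg A) (D3_rg_dep A), hN1 A hA, D3_Ex_rg x hA]
    rw [Finset.sum_congr rfl h1, Finset.sum_const, D3_T_card, nsmul_eq_mul]
    push_cast
    ring
  -- second moment
  set M : ℝ := x ^ (2 * k) * (k.factorial : ℝ) * D3_z x k with hM
  have hN2 : ∀ A ∈ D3_T k, ∀ A' ∈ D3_T k,
      Ex Finset.univ (fun _ => x) (fun ω => D3_N A ω * D3_N A' ω) ≤ M := fun A hA A' hA' =>
    NP_second x hx0 hx1 (D3_z x) (D3_z_eq x) k A A' (Finset.mem_filter.mp hA).2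
      (Finset.mem_filter.mp hA').2
  have hN0 : ∀ A A' : Finset (Fin (k + 1)),
      0 ≤ Ex Finset.univ (fun _ => x) (fun ω : Finset (CubeE k) => D3_N A ω * D3_N A' ω) :=
    fun A A' => Ex_nonneg hpu (fun ω _ => mul_nonneg (NP_nonneg _ _ _) (NP_nonneg _ _ _))
  have hM0 : 0 ≤ M := by
    have hne : (D3_T k).Nonempty := by
      rw [← Finset.card_pos, D3_T_card]; omega
    obtain ⟨A, hA⟩ := hne
    exact (hN0 A A).trans (hN2 A hA A hA)
  have hrr : ∀ A A' : Finset (Fin (k + 1)), 0 ≤ (if A = A' then x else x * x) := by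
    intro A A'
    split_ifs <;> positivity
  have hEX2 : Ex (CE k) (fun _ => x) (fun ω => D3_X ω ^ 2) ≤
      M * M * ((k + 1 : ℝ) * (x + k * (x * x))) := by
    have h1 : Ex (CE k) (fun _ => x) (fun ω => D3_X ω ^ 2) =
        ∑ A ∈ D3_T k, ∑ A' ∈ D3_T k, Ex (CE k) (fun _ => x) (fun ω =>
          ((D3_N A (D3_S false ω) * D3_N A' (D3_S false ω)) *
            (D3_N A (D3_S true ω) * D3_N A' (D3_S true ω))) * (D3_rg A ω * D3_rg A' ω)) := by
      rw [← Finset.sum_congr rfl (fun A _ => Ex_sum (D3_T k) (CE k) (fun _ => x) _), ← Ex_sum]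
      apply Ex_congr
      intro ω _
      unfold D3_X
      rw [sq, Finset.sum_mul_sum]
      refine Finset.sum_congr rfl fun A _ => Finset.sum_congr rfl fun A' _ => ?_
      ring
    rw [h1]
    have h2 : ∀ A ∈ D3_T k, ∑ A' ∈ D3_T k, Ex (CE k) (fun _ => x) (fun ω =>
          ((D3_N A (D3_S false ω) * D3_N A' (D3_S false ω)) *
            (D3_N A (D3_S true ω) * D3_N A' (D3_S true ω))) * (D3_rg A ω * D3_rg A' ω)) ≤
        M * M * (x + k * (x * x)) := by
      intro A hA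
      have h3 : ∀ A' ∈ D3_T k, Ex (CE k) (fun _ => x) (fun ω =>
          ((D3_N A (D3_S false ω) * D3_N A' (D3_S false ω)) *
            (D3_N A (D3_S true ω) * D3_N A' (D3_S true ω))) * (D3_rg A ω * D3_rg A' ω)) ≤
          M * M * (if A = A' then x else x * x) := by
        intro A' hA'
        rw [D3_Ex_mul x (fun ω => D3_N A ω * D3_N A' ω) (fun ω => D3_N A ω * D3_N A' ω)
          (fun ω => D3_rg A ω * D3_rg A' ω) (D3_rg_dep2 A A'), D3_Ex_rg2 x hA hA']
        exact mul_le_mul_of_nonneg_right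
          (mul_le_mul (hN2 A hA A' hA') (hN2 A hA A' hA') (hN0 A A') hM0) (hrr A A')
      refine (Finset.sum_le_sum h3).trans (le_of_eq ?_)
      rw [← Finset.mul_sum]
      congr 1
      rw [← Finset.add_sum_erase _ _ hA, if_pos rfl]
      have h4 : ∀ A' ∈ (D3_T k).erase A, (if A = A' then x else x * x) = x * x := by
        intro A' hA'
        rw [if_neg (fun h5 => (Finset.mem_erase.mp hA').1 h5.symm)]
      rw [Finset.sum_congr rfl h4, Finset.sum_const, Finset.card_erase_of_mem hA, D3_T_card,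
        nsmul_eq_mul, Nat.add_sub_cancel]
    refine (Finset.sum_le_sum h2).trans (le_of_eq ?_)
    rw [Finset.sum_const, D3_T_card, nsmul_eq_mul]
    push_cast
    ring
  have hsm := Ex_second_moment hp (D3_X (k := k))
  have hg : Ex (CE k) (fun _ => x) (ind fun ω => D3_X ω ≠ 0) ≤ gval k x := by
    unfold gval
    apply Ex_mono hp
    intro ω _
    unfold ind
    by_cases h1 : D3_X ω ≠ 0
    · rw [if_pos h1, if_pos (D3_good ω h1)]
    · rw [if_neg h1]
      split_ifs <;> norm_num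
  have hg0 : 0 ≤ gval k x := by
    unfold gval
    apply Ex_nonneg hp
    intro ω _
    unfold ind
    split_ifs <;> norm_num
  have hX20 : 0 ≤ Ex (CE k) (fun _ => x) (fun ω => D3_X ω ^ 2) :=
    Ex_nonneg hp (fun ω _ => sq_nonneg _)
  have hMb : M ≤ x ^ (2 * k) * (k.factorial : ℝ) * (16 / 7 * (k.factorial : ℝ)) := by
    rw [hM]
    exact mul_le_mul_of_nonneg_left hzb (by positivity)
  have hMM : M * M ≤ (x ^ (2 * k) * (k.factorial : ℝ) * (16 / 7 * (k.factorial : ℝ))) *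
      (x ^ (2 * k) * (k.factorial : ℝ) * (16 / 7 * (k.factorial : ℝ))) :=
    mul_le_mul hMb hMb hM0 (hM0.trans hMb)
  rw [hEX] at hsm
  have hfin : ((k + 1 : ℝ) * ((x ^ k * (k.factorial : ℝ)) * (x ^ k * (k.factorial : ℝ)) * x)) ^ 2 ≤
      (x ^ (2 * k) * (k.factorial : ℝ) * (16 / 7 * (k.factorial : ℝ))) *
      (x ^ (2 * k) * (k.factorial : ℝ) * (16 / 7 * (k.factorial : ℝ))) *
        ((k + 1 : ℝ) * (x + k * (x * x))) * gval k x := by
    refine hsm.trans ((mul_le_mul hEX2 hg ?_ ?_).trans ?_)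
    · apply Ex_nonneg hp
      intro ω _
      unfold ind
      split_ifs <;> norm_num
    · exact hX20.trans hEX2
    · refine mul_le_mul_of_nonneg_right (mul_le_mul_of_nonneg_right hMM ?_) hg0
      positivity
  by_contra hlt
  rw [not_le] at hlt
  set C : ℝ := (x ^ k * (k.factorial : ℝ)) ^ 4 * (k + 1) * x with hC
  have hC0 : 0 < C := by
    rw [hC]
    positivity
  have e1 : ((k + 1 : ℝ) * ((x ^ k * (k.factorial : ℝ)) * (x ^ k * (k.factorial : ℝ)) * x)) ^ 2 =
      C * ((k + 1) * x) := by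
    rw [hC]; ring
  have e2 : (x ^ (2 * k) * (k.factorial : ℝ) * (16 / 7 * (k.factorial : ℝ))) *
      (x ^ (2 * k) * (k.factorial : ℝ) * (16 / 7 * (k.factorial : ℝ))) *
        ((k + 1 : ℝ) * (x + k * (x * x))) * gval k x =
      C * ((256 / 49) * (1 + k * x) * gval k x) := by
    rw [hC, show 2 * k = k + k by ring, pow_add]; ring
  rw [e1, e2] at hfin
  have h5 := le_of_mul_le_mul_left hfin hC0
  have h6 : (1 + k * x) * gval k x < (1 + k * x) * (49 / 272) :=
    mul_lt_mul_of_pos_left hlt (by linarith)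
  nlinarith

theorem gval_le_one (k : ℕ) (x : ℝ) (hx : 0 ≤ x) (hx1 : x ≤ 1) : gval k x ≤ 1 := by
  have h1 : gval k x ≤ Ex (CE k) (fun _ => x) (fun _ => 1) := by
    unfold gval
    apply Ex_mono (fun e _ => ⟨hx, hx1⟩)
    intro ω _
    unfold ind
    split_ifs <;> norm_num
  rwa [Ex_const] at h1

end Pool.Agent.H90.SC
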