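import Pool.Agent.H90.SC.Model

/-!
# Internal definitions of project SCUR
-/

namespace Pool.Agent.H90.SC

/-! ## Independent Bernoulli variables on a finite set -/

section Ex
variable {ε : Type*} [DecidableEq ε]

/-- Expectation of `f` of the random set `ω ⊆ E` whose points are open independently,
`e` with probability `p e`. -/
noncomputable def Ex (E : Finset ε) (p : ε → ℝ) (f : Finset ε → ℝ) : ℝ :=
  ∑ ω ∈ E.powerset, (∏ e ∈ ω, p e) * (∏ e ∈ E \ ω, (1 - p e)) * f ω

/-- `f` depends only on the states of the points of `A`. -/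
def Dep (A : Finset ε) (f : Finset ε → ℝ) : Prop := ∀ ω ω', ω ∩ A = ω' ∩ A → f ω = f ω'

open Classical in
/-- Indicator function of an event. -/
noncomputable def ind (P : Finset ε → Prop) (ω : Finset ε) : ℝ := if P ω then 1 else 0

end Ex

/-! ## Even subgraphs -/

section Even
variable {ε V : Type*} [DecidableEq ε] [DecidableEq V]

/-- The subgraph `η` of the graph with edges `e` between `a e` and `b e` is even. -/
def IsEv (a b : ε → V) (η : Finset ε) : Prop :=
  ∀ v, Even (η.filter fun e => a e = v ∨ b e = v).card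

/-- `x` and `y` are connected by edges of `K`. -/
def Conn (a b : ε → V) (K : Finset ε) (x y : V) : Prop :=
  Relation.ReflTransGen (fun x y => ∃ e ∈ K, (a e = x ∧ b e = y) ∨ (a e = y ∧ b e = x)) x y

open Classical in
/-- The open edges of `M` whose end points are connected by open edges outside `M`. -/
noncomputable def chords (a b : ε → V) (M ω : Finset ε) : Finset ε :=
  (ω ∩ M).filter fun e => Conn a b (ω \ M) (a e) (b e)

end Even

/-! ## Paths in a cube -/

/-- Edges of the cube: `(A, i)` is the edge between `A` and `A ∪ {i}`. -/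
abbrev CubeE (k : ℕ) : Type := Finset (Fin (k + 1)) × Fin (k + 1)

/-- `A` (a set with `r` elements) is reached from `∅` by an increasing path of open edges;
`c` is the set of open edges. -/
def Rch {n : ℕ} (c : Finset (Fin n) × Fin n → Prop) : ℕ → Finset (Fin n) → Prop
  | 0, A => A = ∅
  | r + 1, A => ∃ a ∈ A, Rch c r (A.erase a) ∧ c (A.erase a, a)

/-- The number of increasing open paths from `∅` to `A` (a set with `r` elements). -/
noncomputable def NP {n : ℕ} (c : Finset (Fin n) × Fin n → ℝ) : ℕ → Finset (Fin n) → ℝ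
  | 0, _ => 1
  | r + 1, A => ∑ a ∈ A, NP c r (A.erase a) * c (A.erase a, a)

/-- Index type for two neighbouring slices and the rungs between them. -/
abbrev CI (k : ℕ) : Type := (Bool × CubeE k) ⊕ Finset (Fin (k + 1))

/-- The relevant indices: all cube edges, and the rungs at sets with `k` elements. -/
def CE (k : ℕ) : Finset (CI k) :=
  (Finset.univ : Finset (Bool × CubeE k)).disjSum
    ((Finset.univ : Finset (Finset (Fin (k + 1)))).filter fun A => A.card = k)

/-- The two slices are connected through some set `A` with `k` elements. -/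
def GoodP {k : ℕ} (c0 c1 : CubeE k → Prop) (rg : Finset (Fin (k + 1)) → Prop) : Prop :=
  ∃ A, A.card = k ∧ Rch c0 k A ∧ Rch c1 k A ∧ rg A

/-- The probability that the two slices are connected. -/
noncomputable def gval (k : ℕ) (x : ℝ) : ℝ :=
  Ex (CE k) (fun _ => x) (ind fun ω =>
    GoodP (fun c => Sum.inl (false, c) ∈ ω) (fun c => Sum.inl (true, c) ∈ ω)
      (fun A => Sum.inr A ∈ ω))

/-! ## Oriented paths -/

/-- Positions in the oriented lattice. -/
abbrev Pos (s : ℕ) : Type := Fin 4 × Fin s → ℕ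

/-- The residue class of the time `i` modulo 4. -/
def cls (i : ℕ) : Fin 4 := ⟨i % 4, Nat.mod_lt _ (by norm_num)⟩

/-- The position at time `i` of the path whose step at time `i'` is in direction
`(i' mod 4, γ i')`. -/
def pos {s N : ℕ} (γ : Fin N → Fin s) (i : ℕ) : Pos s := fun q =>
  (Finset.univ.filter fun i' : Fin N => i'.1 < i ∧ cls i'.1 = q.1 ∧ γ i' = q.2).card

open Classical in
/-- The weight of step `i` of a pair of paths. -/
noncomputable def wstep {s N : ℕ} (g t : ℝ) (γ γ' : Fin N → Fin s) (i : Fin N) : ℝ :=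
  if pos γ i.1 = pos γ' i.1 ∧ γ i = γ' i then 1 / (t * g)
  else if pos γ i.1 = pos γ' i.1 ∨ pos γ (i.1 + 1) = pos γ' (i.1 + 1) then 1 / g else 1

/-- Unit step in direction `(i mod 4, j)`. -/
def stp {s : ℕ} (i : ℕ) (j : Fin s) : Fin 4 × Fin s → ℤ := Pi.single (cls i, j) 1

open Classical in
/-- Value function of the pair of walks, from the difference `δ` at time `i`, with `n` steps left. -/
noncomputable def Vf (s : ℕ) (g t : ℝ) : ℕ → ℕ → (Fin 4 × Fin s → ℤ) → ℝ
  | 0, _, _ => 1
  | n + 1, i, δ => (1 / (s : ℝ) ^ 2) * ∑ j : Fin s, ∑ j' : Fin s,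
      (if δ = 0 ∧ j = j' then 1 / (t * g)
        else if δ = 0 ∨ δ + stp i j - stp i j' = 0 then 1 / g else 1) *
        Vf s g t n (i + 1) (δ + stp i j - stp i j')

open Classical in
/-- The probability that the difference of two walks started at `δ` at time `i` is `0` after `n`
steps. -/
noncomputable def Rf (s : ℕ) : ℕ → ℕ → (Fin 4 × Fin s → ℤ) → ℝ
  | 0, _, δ => if δ = 0 then 1 else 0
  | n + 1, i, δ => (1 / (s : ℝ) ^ 2) * ∑ j : Fin s, ∑ j' : Fin s,
      Rf s n (i + 1) (δ + stp i j - stp i j')

open Classical in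
/-- The same for the walk in one group of directions. -/
noncomputable def rf (s : ℕ) : ℕ → (Fin s → ℤ) → ℝ
  | 0, δ => if δ = 0 then 1 else 0
  | n + 1, δ => (1 / (s : ℝ) ^ 2) * ∑ j : Fin s, ∑ j' : Fin s,
      rf s n (δ + Pi.single j 1 - Pi.single j' 1)

/-! ## The links of the random environment -/

/-- The links used in the construction. -/
inductive Lk (k : ℕ) : Type
  /-- cube edge `(A, i)` of the cube number `q` in slice `y` -/
  | cube (q : Bool) (y : Pos k) (A : Finset (Fin (k + 1))) (i : Fin (k + 1))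
  /-- the edge in direction `j` above the set `A` in slice `y` -/
  | rung (y : Pos k) (j : Fin 4 × Fin k) (A : Finset (Fin (k + 1)))
  /-- the edge in direction `j` at the base point of slice `y` -/
  | tee (y : Pos k) (j : Fin 4 × Fin k)
  deriving DecidableEq

/-- Probability of a link. -/
noncomputable def pLk {k : ℕ} (x : ℝ) : ℕ × Lk k → ℝ
  | (_, Lk.tee _ _) => x / 2
  | _ => x

/-- Neighbouring position. -/
def nxt {k : ℕ} (y : Pos k) (j : Fin 4 × Fin k) : Pos k := y + Pi.single j 1

/-- In copy `r` the slices `y` and `y + e_j` are connected through the cubes number `q`. -/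
def GoodAt {k : ℕ} (ω : Finset (ℕ × Lk k)) (r : ℕ) (q : Bool) (y : Pos k) (j : Fin 4 × Fin k) :
    Prop :=
  GoodP (fun c => (r, Lk.cube q y c.1 c.2) ∈ ω) (fun c => (r, Lk.cube q (nxt y j) c.1 c.2) ∈ ω)
    (fun A => (r, Lk.rung y j A) ∈ ω)

/-- Parity of the time as a Boolean. -/
def par (i : ℕ) : Bool := decide (i % 2 = 1)

/-- In copy `r` all the steps of the path `γ` are open and good. -/
def OpenP {k N : ℕ} (ω : Finset (ℕ × Lk k)) (r : ℕ) (γ : Fin N → Fin k) : Prop :=
  ∀ i : Fin N, (r, Lk.tee (pos γ i.1) (cls i.1, γ i)) ∈ ω ∧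
    GoodAt ω r (par i.1) (pos γ i.1) (cls i.1, γ i)

/-- Positions with all coordinates at most `N`. -/
def posBox (k N : ℕ) : Finset (Pos k) := Fintype.piFinset fun _ => Finset.range (N + 1)

/-- The links with position in `posBox k N`. -/
def links (k N : ℕ) : Finset (Lk k) :=
  ((Finset.univ : Finset (Bool × Finset (Fin (k + 1)) × Fin (k + 1))) ×ˢ posBox k N).image
      (fun u => Lk.cube u.1.1 u.2 u.1.2.1 u.1.2.2) ∪
  (((Finset.univ : Finset ((Fin 4 × Fin k) × Finset (Fin (k + 1)))).filter
      (fun u => u.2.card = k)) ×ˢ posBox k N).image (fun u => Lk.rung u.2 u.1.1 u.1.2) ∪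
  ((Finset.univ : Finset (Fin 4 × Fin k)) ×ˢ posBox k N).image (fun u => Lk.tee u.2 u.1)

/-- The links of the copies `r < R`. -/
def linksR (k N R : ℕ) : Finset (ℕ × Lk k) := Finset.range R ×ˢ links k N

/-! ## The embedding into `ℤ^d` -/

/-- Coordinate number `i` of the cube number `q`. -/
def co1 {d k : ℕ} (h : 6 * k + 2 ≤ d) (q : Bool) (i : Fin (k + 1)) : Fin d :=
  ⟨(if q then k + 1 else 0) + i.1, by have := i.2; split_ifs <;> omega⟩

/-- Coordinate of the direction `j` of the oriented lattice. -/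
def co2 {d k : ℕ} (h : 6 * k + 2 ≤ d) (j : Fin 4 × Fin k) : Fin d :=
  ⟨2 * (k + 1) + j.1.1 * k + j.2.1, by
    have h1 := j.1.2
    have h2 := j.2.2
    have h3 : j.1.1 * k ≤ 3 * k := Nat.mul_le_mul_right k (by omega)
    omega⟩

/-- The vertex of `ℤ^d` of copy `r`, above the set `A` of the cube number `q` in slice `y`. -/
noncomputable def vtx {d k : ℕ} (h : 6 * k + 2 ≤ d) (r : ℕ) (q : Bool)
    (A : Finset (Fin (k + 1))) (y : Pos k) : Vtx d :=
  Pi.single (co1 h false 0) (2 * (r : ℤ)) + ∑ i ∈ A, Pi.single (co1 h q i) 1 +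
    ∑ j, Pi.single (co2 h j) (y j : ℤ)

/-- Parity of the level of a position. -/
def parY {k : ℕ} (y : Pos k) : Bool := par (∑ j, y j)

/-- The embedding of the links into the edges of `ℤ^d`. -/
noncomputable def emb {d k : ℕ} (h : 6 * k + 2 ≤ d) : ℕ × Lk k → Edg d
  | (r, Lk.cube q y A i) => (vtx h r q A y, co1 h q i)
  | (r, Lk.rung y j A) => (vtx h r (parY y) A y, co2 h j)
  | (r, Lk.tee y j) => (vtx h r false ∅ y, co2 h j)

/-- The event that in some copy `r < R` all the base edges of some path with `N` steps belong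
to `O`. -/
def PathEv {d k : ℕ} (h : 6 * k + 2 ≤ d) (N R : ℕ) (O : Set (Edg d)) : Prop :=
  ∃ r < R, ∃ γ : Fin N → Fin k, ∀ i : Fin N,
    emb h (r, Lk.tee (pos γ i.1) (cls i.1, γ i)) ∈ O

end Pool.Agent.H90.SC
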