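import Mathlib

/-!
# SCUR E1: central binomial coefficients and the numerical sum

* `binom_bound`: induction on `n`:
  `centralBinom (n+1) / 4^(n+1) = (centralBinom n / 4^n) * (2n+1)/(2n+2)` and
  `(2n+1)^2 (3n+4) ≤ (2n+2)^2 (3n+1)`.
* `tail_sum`: group the `m` with `m / 4 = a` (at most four of them); for `a ≤ s` use `1/s^4`, for
  `a > s` use `1/(3a+1)^2 ≤ 1/(9 a^2) ≤ (1/9)(1/(a-1) - 1/a)`. Total
  `≤ 4 (s/s^4 + 1/(9 s)) ≤ 9/2000` for `s ≥ 100`.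
-/

namespace Pool.Agent.H90.SC

theorem binom_bound (n : ℕ) :
    ((Nat.centralBinom n : ℝ) / 4 ^ n) ^ 2 * (3 * n + 1) ≤ 1 := by
  induction n with
  | zero => simp
  | succ n ih =>
    have h1 : ((n : ℝ) + 1) * (Nat.centralBinom (n + 1) : ℝ) =
        2 * (2 * (n : ℝ) + 1) * (Nat.centralBinom n : ℝ) := by
      exact_mod_cast Nat.succ_mul_centralBinom_succ n
    have hn : (0 : ℝ) ≤ (n : ℝ) := Nat.cast_nonneg n
    have hn1 : (0 : ℝ) < (n : ℝ) + 1 := by positivity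
    have h2 : (Nat.centralBinom (n + 1) : ℝ) / 4 ^ (n + 1) =
        ((Nat.centralBinom n : ℝ) / 4 ^ n) * ((2 * (n : ℝ) + 1) / (2 * (n : ℝ) + 2)) := by
      have h3 : (Nat.centralBinom (n + 1) : ℝ) =
          2 * (2 * (n : ℝ) + 1) * (Nat.centralBinom n : ℝ) / ((n : ℝ) + 1) := by
        rw [eq_div_iff hn1.ne']
        linarith
      rw [h3, pow_succ]
      field_simp
      ring
    rw [h2, mul_pow]
    have h4 : ((2 * (n : ℝ) + 1) / (2 * (n : ℝ) + 2)) ^ 2 * (3 * (n : ℝ) + 4) ≤ 3 * n + 1 := by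
      rw [div_pow, div_mul_eq_mul_div, div_le_iff₀ (by positivity)]
      nlinarith
    have h5 : (0 : ℝ) ≤ ((Nat.centralBinom n : ℝ) / 4 ^ n) ^ 2 := sq_nonneg _
    push_cast
    calc ((Nat.centralBinom n : ℝ) / 4 ^ n) ^ 2 * ((2 * (n : ℝ) + 1) / (2 * (n : ℝ) + 2)) ^ 2 *
          (3 * ((n : ℝ) + 1) + 1)
        = ((Nat.centralBinom n : ℝ) / 4 ^ n) ^ 2 *
          (((2 * (n : ℝ) + 1) / (2 * (n : ℝ) + 2)) ^ 2 * (3 * (n : ℝ) + 4)) := by ring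
      _ ≤ ((Nat.centralBinom n : ℝ) / 4 ^ n) ^ 2 * (3 * n + 1) :=
          mul_le_mul_of_nonneg_left h4 h5
      _ ≤ 1 := ih

/-- one term of the tail. -/
private theorem E1_term (m : ℕ) (hm : 5 ≤ m) :
    1 / (3 * ((m / 4 : ℕ) : ℝ) + 1) ^ 2 ≤
      32 / 3 / (6 * (m : ℝ) - 13) - 32 / 3 / (6 * ((m + 1 : ℕ) : ℝ) - 13) := by
  have h1 : m ≤ 4 * (m / 4) + 3 := by omega
  have h2 : (m : ℝ) ≤ 4 * ((m / 4 : ℕ) : ℝ) + 3 := by exact_mod_cast h1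
  have h3 : (5 : ℝ) ≤ (m : ℝ) := by exact_mod_cast hm
  have h4 : (3 * (m : ℝ) - 5) / 4 ≤ 3 * ((m / 4 : ℕ) : ℝ) + 1 := by linarith
  have h5 : 0 < (3 * (m : ℝ) - 5) / 4 := by linarith
  have h6 : 1 / (3 * ((m / 4 : ℕ) : ℝ) + 1) ^ 2 ≤ 1 / ((3 * (m : ℝ) - 5) / 4) ^ 2 :=
    one_div_le_one_div_of_le (by positivity) (pow_le_pow_left₀ h5.le h4 2)
  refine h6.trans ?_
  have h7 : 0 < 6 * (m : ℝ) - 13 := by linarith
  have h8 : 0 < 6 * ((m : ℝ) + 1) - 13 := by linarith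
  have h9 : 0 < (3 * (m : ℝ) - 5) := by linarith
  push_cast
  rw [div_sub_div _ _ h7.ne' h8.ne', div_le_div_iff₀ (by positivity) (by positivity)]
  nlinarith

private theorem E1_tail (M K : ℕ) (hM : 5 ≤ M) :
    ∑ m ∈ Finset.Ico M (M + K), 1 / (3 * ((m / 4 : ℕ) : ℝ) + 1) ^ 2 ≤
      32 / 3 / (6 * (M : ℝ) - 13) - 32 / 3 / (6 * ((M + K : ℕ) : ℝ) - 13) := by
  induction K with
  | zero => simp
  | succ K ih =>
    rw [← add_assoc, Finset.sum_Ico_succ_top (by omega)]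
    have h := E1_term (M + K) (by omega)
    linarith

theorem tail_sum (s : ℕ) (hs : 100 ≤ s) (N : ℕ) :
    ∑ m ∈ Finset.Ico 5 N, min (1 / (s : ℝ) ^ 4) (1 / (3 * ((m / 4 : ℕ) : ℝ) + 1) ^ 2) ≤
      9 / 2000 := by
  have hs' : (100 : ℝ) ≤ (s : ℝ) := by exact_mod_cast hs
  have hs0 : (0 : ℝ) < (s : ℝ) := by linarith
  have hnn : ∀ m : ℕ, 0 ≤ min (1 / (s : ℝ) ^ 4) (1 / (3 * ((m / 4 : ℕ) : ℝ) + 1) ^ 2) :=
    fun m => le_min (by positivity) (by positivity)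
  have h1 : ∑ m ∈ Finset.Ico 5 N, min (1 / (s : ℝ) ^ 4) (1 / (3 * ((m / 4 : ℕ) : ℝ) + 1) ^ 2) ≤
      ∑ m ∈ Finset.Ico 5 (4 * s + 1 + N),
        min (1 / (s : ℝ) ^ 4) (1 / (3 * ((m / 4 : ℕ) : ℝ) + 1) ^ 2) :=
    Finset.sum_le_sum_of_subset_of_nonneg
      (Finset.Ico_subset_Ico_right (by omega)) fun m _ _ => hnn m
  rw [← Finset.sum_Ico_consecutive _ (by omega : 5 ≤ 4 * s + 1)
    (by omega : 4 * s + 1 ≤ 4 * s + 1 + N)] at h1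
  have h2 : ∑ m ∈ Finset.Ico 5 (4 * s + 1),
      min (1 / (s : ℝ) ^ 4) (1 / (3 * ((m / 4 : ℕ) : ℝ) + 1) ^ 2) ≤ 4 * (s : ℝ) * (1 / (s : ℝ) ^ 4) := by
    calc ∑ m ∈ Finset.Ico 5 (4 * s + 1),
        min (1 / (s : ℝ) ^ 4) (1 / (3 * ((m / 4 : ℕ) : ℝ) + 1) ^ 2)
        ≤ ∑ m ∈ Finset.Ico 5 (4 * s + 1), 1 / (s : ℝ) ^ 4 :=
          Finset.sum_le_sum fun m _ => min_le_left _ _
      _ = ((4 * s + 1 - 5 : ℕ) : ℝ) * (1 / (s : ℝ) ^ 4) := by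
          rw [Finset.sum_const, Nat.card_Ico, nsmul_eq_mul]
      _ ≤ 4 * (s : ℝ) * (1 / (s : ℝ) ^ 4) := by
          refine mul_le_mul_of_nonneg_right ?_ (by positivity)
          have : 4 * s + 1 - 5 ≤ 4 * s := by omega
          exact_mod_cast this
  have h3 : ∑ m ∈ Finset.Ico (4 * s + 1) (4 * s + 1 + N),
      min (1 / (s : ℝ) ^ 4) (1 / (3 * ((m / 4 : ℕ) : ℝ) + 1) ^ 2) ≤
      32 / 3 / (6 * ((4 * s + 1 : ℕ) : ℝ) - 13) := by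
    have h4 := E1_tail (4 * s + 1) N (by omega)
    have h5 : ∑ m ∈ Finset.Ico (4 * s + 1) (4 * s + 1 + N),
        min (1 / (s : ℝ) ^ 4) (1 / (3 * ((m / 4 : ℕ) : ℝ) + 1) ^ 2) ≤
        ∑ m ∈ Finset.Ico (4 * s + 1) (4 * s + 1 + N), 1 / (3 * ((m / 4 : ℕ) : ℝ) + 1) ^ 2 :=
      Finset.sum_le_sum fun m _ => min_le_right _ _
    have h6 : (0 : ℝ) ≤ 32 / 3 / (6 * ((4 * s + 1 + N : ℕ) : ℝ) - 13) := by
      have h7 : (0 : ℝ) ≤ (N : ℝ) := Nat.cast_nonneg N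
      have h8 : (0 : ℝ) < 6 * ((4 * s + 1 + N : ℕ) : ℝ) - 13 := by
        push_cast
        linarith
      positivity
    linarith
  have h9 : 4 * (s : ℝ) * (1 / (s : ℝ) ^ 4) ≤ 4 / 1000000 := by
    have e : 4 * (s : ℝ) * (1 / (s : ℝ) ^ 4) = 4 / (s : ℝ) ^ 3 := by
      field_simp
    rw [e]
    have h10 : (1000000 : ℝ) ≤ (s : ℝ) ^ 3 := by
      have := pow_le_pow_left₀ (by norm_num : (0 : ℝ) ≤ 100) hs' 3
      norm_num at this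
      exact this
    exact div_le_div_of_nonneg_left (by norm_num) (by norm_num) h10
  have h11 : 32 / 3 / (6 * ((4 * s + 1 : ℕ) : ℝ) - 13) ≤ 32 / 3 / 2393 := by
    refine div_le_div_of_nonneg_left (by norm_num) (by norm_num) ?_
    push_cast
    linarith
  have h12 : (32 : ℝ) / 3 / 2393 + 4 / 1000000 ≤ 9 / 2000 := by norm_num
  linarith

end Pool.Agent.H90.SC
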