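import Pool.Agent.H90.SC.E4

/-!
# SCUR E5: the value function is bounded by 40

Let `49/272 ≤ g ≤ 1`, `8/s ≤ t`, `K = 40`. By strong induction on `n`: `Vf s g t n i 0 ≤ K` for
all `i`. Assume it for all `n' ≤ n`.
(a) for `δ ≠ 0`, `n' ≤ n`:
    `Vf s g t n' i δ ≤ 1 + (K/g) ∑ m ∈ range n', Rf s (m+1) i δ` by induction on `n'`:
    for each `(j, j')` with `δ' = δ + stp i j - stp i j'`: if `δ' = 0` the term is
    `(1/g) Vf n' (i+1) 0 ≤ K/g`, else `Vf n' (i+1) δ'`; in both cases it is
    `≤ 1 + (K/g) ([δ' = 0] + ∑ m ∈ range n', Rf s (m+1) (i+1) δ') =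
     1 + (K/g) ∑ m ∈ range (n'+1), Rf s m (i+1) δ'`; average over `j, j'`.
(b) `Vf (n+1) i 0 = (1/s^2) (∑ j = j', 1/(t g) Vf n (i+1) 0 + ∑ j ≠ j', (1/g) Vf n (i+1)
    (stp i j - stp i j')) ≤ K/(s t g) + (1/g) (1 + (K/g) * 9/2000)` by `Rf_sum` (module E4; the
    sum over `m+1 ≤ n` is part of the sum over `range (n+1)`), and
    `40/(s t g) ≤ 40 * 272/(8*49)`, `1/g ≤ 272/49`, total `≤ 38.9`.
(For `j ≠ j'`, `stp i j - stp i j' ≠ 0`.)
-/

namespace Pool.Agent.H90.SC

theorem E5_stp_ne (s i : ℕ) (j j' : Fin s) (hj : j ≠ j') : stp i j - stp i j' ≠ 0 := by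
  intro h
  have h1 := congrFun h (cls i, j)
  simp only [stp, Pi.sub_apply, Pi.single_eq_same, Pi.zero_apply] at h1
  rw [Pi.single_eq_of_ne (by
    intro h2
    exact hj (congrArg Prod.snd h2))] at h1
  norm_num at h1

theorem E5_avg (s : ℕ) (hs : 0 < s) (c : ℝ) :
    (1 / (s : ℝ) ^ 2) * ∑ _j : Fin s, ∑ _j' : Fin s, c = c := by
  have h : (s : ℝ) ≠ 0 := by positivity
  rw [Finset.sum_const, Finset.sum_const, Finset.card_univ, Fintype.card_fin]
  simp only [nsmul_eq_mul]
  field_simp

theorem E5_a (s : ℕ) (hs : 0 < s) (g t K : ℝ) (hg : 0 < g) (hg1 : g ≤ 1) (hK : 0 ≤ K) (n : ℕ)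
    (hn : ∀ n' < n, ∀ i, Vf s g t n' i 0 ≤ K) :
    ∀ n' ≤ n, ∀ (i : ℕ) (δ : Fin 4 × Fin s → ℤ), δ ≠ 0 →
      Vf s g t n' i δ ≤ 1 + (K / g) * ∑ m ∈ Finset.range n', Rf s (m + 1) i δ := by
  intro n'
  induction n' with
  | zero =>
    intro _ i δ _
    simp [Vf]
  | succ n' ih =>
    intro hle i δ hδ
    have hKg : 0 ≤ K / g := div_nonneg hK hg.le
    have hterm : ∀ j j' : Fin s,
        (if δ = 0 ∧ j = j' then 1 / (t * g)
          else if δ = 0 ∨ δ + stp i j - stp i j' = 0 then 1 / g else 1) *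
          Vf s g t n' (i + 1) (δ + stp i j - stp i j') ≤
        1 + (K / g) * ∑ m ∈ Finset.range (n' + 1),
          Rf s m (i + 1) (δ + stp i j - stp i j') := by
      intro j j'
      rw [if_neg (fun h => hδ h.1)]
      rw [Finset.sum_range_succ']
      by_cases h0 : δ + stp i j - stp i j' = 0
      · rw [if_pos (Or.inr h0), h0]
        have h1 := hn n' (by omega) (i + 1)
        have h2 : Rf s 0 (i + 1) (0 : Fin 4 × Fin s → ℤ) = 1 := by simp [Rf]
        rw [h2]
        have h3 : 0 ≤ ∑ m ∈ Finset.range n', Rf s (m + 1) (i + 1) (0 : Fin 4 × Fin s → ℤ) :=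
          Finset.sum_nonneg fun m _ => E4_Rf_nonneg s hs _ _ _
        have h4 : 1 / g * Vf s g t n' (i + 1) 0 ≤ K / g := by
          rw [div_mul_eq_mul_div, one_mul]
          exact div_le_div_of_nonneg_right h1 hg.le
        have h5 : 0 ≤ (K / g) * ∑ m ∈ Finset.range n',
          Rf s (m + 1) (i + 1) (0 : Fin 4 × Fin s → ℤ) := mul_nonneg hKg h3
        calc 1 / g * Vf s g t n' (i + 1) 0 ≤ K / g := h4
          _ ≤ 1 + (K / g) * (∑ m ∈ Finset.range n',
              Rf s (m + 1) (i + 1) (0 : Fin 4 × Fin s → ℤ) + 1) := by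
            rw [mul_add, mul_one]
            linarith
      · rw [if_neg (by
          intro h
          rcases h with h | h
          · exact hδ h
          · exact h0 h), one_mul]
        have h1 := ih (by omega) (i + 1) _ h0
        have h2 : Rf s 0 (i + 1) (δ + stp i j - stp i j') = 0 := by simp [Rf, h0]
        rw [h2, add_zero]
        exact h1
    have hdef : Vf s g t (n' + 1) i δ = (1 / (s : ℝ) ^ 2) * ∑ j : Fin s, ∑ j' : Fin s,
        (if δ = 0 ∧ j = j' then 1 / (t * g)
          else if δ = 0 ∨ δ + stp i j - stp i j' = 0 then 1 / g else 1) *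
          Vf s g t n' (i + 1) (δ + stp i j - stp i j') := by
      simp only [Vf]
    rw [hdef]
    calc (1 / (s : ℝ) ^ 2) * ∑ j : Fin s, ∑ j' : Fin s,
        (if δ = 0 ∧ j = j' then 1 / (t * g)
          else if δ = 0 ∨ δ + stp i j - stp i j' = 0 then 1 / g else 1) *
          Vf s g t n' (i + 1) (δ + stp i j - stp i j')
        ≤ (1 / (s : ℝ) ^ 2) * ∑ j : Fin s, ∑ j' : Fin s,
          (1 + (K / g) * ∑ m ∈ Finset.range (n' + 1),
            Rf s m (i + 1) (δ + stp i j - stp i j')) := by
          refine mul_le_mul_of_nonneg_left ?_ (by positivity)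
          exact Finset.sum_le_sum fun j _ => Finset.sum_le_sum fun j' _ => hterm j j'
      _ = 1 + (K / g) * ∑ m ∈ Finset.range (n' + 1), Rf s (m + 1) i δ := by
          simp only [Finset.sum_add_distrib]
          rw [mul_add, E5_avg s hs 1]
          congr 1
          simp only [← Finset.mul_sum]
          rw [← mul_assoc, mul_comm (1 / (s : ℝ) ^ 2), mul_assoc]
          congr 1
          rw [Finset.mul_sum]
          symm
          calc ∑ m ∈ Finset.range (n' + 1), Rf s (m + 1) i δ
              = ∑ m ∈ Finset.range (n' + 1), (1 / (s : ℝ) ^ 2) * ∑ j : Fin s, ∑ j' : Fin s,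
                  Rf s m (i + 1) (δ + stp i j - stp i j') := rfl
            _ = ∑ j : Fin s, 1 / (s : ℝ) ^ 2 * ∑ j' : Fin s, ∑ m ∈ Finset.range (n' + 1),
                  Rf s m (i + 1) (δ + stp i j - stp i j') := by
                rw [← Finset.mul_sum, ← Finset.mul_sum]
                congr 1
                rw [Finset.sum_comm]
                refine Finset.sum_congr rfl fun j _ => ?_
                rw [Finset.sum_comm]

theorem Vf_le (s : ℕ) (hs : 100 ≤ s) (hev : Even s) (g t : ℝ) (hg : 49 / 272 ≤ g) (hg1 : g ≤ 1)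
    (ht : 8 / (s : ℝ) ≤ t) (n i : ℕ) : Vf s g t n i 0 ≤ 40 := by
  have hs0 : 0 < s := by omega
  have hsR : (0 : ℝ) < s := by exact_mod_cast hs0
  have hg0 : 0 < g := lt_of_lt_of_le (by norm_num) hg
  have ht0 : 0 < t := lt_of_lt_of_le (by positivity) ht
  have hst : 8 ≤ (s : ℝ) * t := by
    rw [div_le_iff₀ hsR] at ht
    linarith
  induction n using Nat.strong_induction_on generalizing i with
  | _ n ih =>
  cases n with
  | zero => simp [Vf]
  | succ n =>
    have hn : ∀ n' < n + 1, ∀ i, Vf s g t n' i 0 ≤ 40 := fun n' h i => ih n' h i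
    have hA := E5_a s hs0 g t 40 hg0 hg1 (by norm_num) (n + 1) hn
    have hG : 1 / g ≤ 272 / 49 := by
      rw [div_le_div_iff₀ hg0 (by norm_num)]
      linarith
    have hG0 : 0 < 1 / g := by positivity
    have hterm : ∀ j j' : Fin s,
        (if (0 : Fin 4 × Fin s → ℤ) = 0 ∧ j = j' then 1 / (t * g)
          else if (0 : Fin 4 × Fin s → ℤ) = 0 ∨ 0 + stp i j - stp i j' = 0 then 1 / g else 1) *
          Vf s g t n (i + 1) (0 + stp i j - stp i j') ≤
        (if j = j' then 40 / (t * g) else 0) + (1 / g + (40 / g ^ 2) *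
          (if j = j' then 0 else
            ∑ m ∈ Finset.range (n + 1), Rf s m (i + 1) (stp i j - stp i j'))) := by
      intro j j'
      by_cases hj : j = j'
      · subst hj
        rw [if_pos ⟨rfl, rfl⟩, if_pos rfl, if_pos rfl, zero_add, sub_self, mul_zero, add_zero]
        have h1 := hn n (by omega) (i + 1)
        have h2 : 1 / (t * g) * Vf s g t n (i + 1) 0 ≤ 40 / (t * g) := by
          rw [div_mul_eq_mul_div, one_mul]
          exact div_le_div_of_nonneg_right h1 (by positivity)
        linarith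
      · rw [if_neg (fun h => hj h.2), if_pos (Or.inl rfl), if_neg hj, if_neg hj, zero_add,
          zero_add]
        have h1 := hA n (by omega) (i + 1) _ (E5_stp_ne s i j j' hj)
        have h2 : ∑ m ∈ Finset.range n, Rf s (m + 1) (i + 1) (stp i j - stp i j') ≤
            ∑ m ∈ Finset.range (n + 1), Rf s m (i + 1) (stp i j - stp i j') := by
          rw [Finset.sum_range_succ']
          have := E4_Rf_nonneg s hs0 0 (i + 1) (stp i j - stp i j')
          linarith
        have h3 : Vf s g t n (i + 1) (stp i j - stp i j') ≤ 1 + (40 / g) *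
            ∑ m ∈ Finset.range (n + 1), Rf s m (i + 1) (stp i j - stp i j') :=
          h1.trans (add_le_add le_rfl (mul_le_mul_of_nonneg_left h2 (by positivity)))
        calc 1 / g * Vf s g t n (i + 1) (stp i j - stp i j')
            ≤ 1 / g * (1 + (40 / g) *
              ∑ m ∈ Finset.range (n + 1), Rf s m (i + 1) (stp i j - stp i j')) :=
              mul_le_mul_of_nonneg_left h3 hG0.le
          _ = 1 / g + (40 / g ^ 2) *
              ∑ m ∈ Finset.range (n + 1), Rf s m (i + 1) (stp i j - stp i j') := by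
              field_simp
    have hdef : Vf s g t (n + 1) i 0 = (1 / (s : ℝ) ^ 2) * ∑ j : Fin s, ∑ j' : Fin s,
        (if (0 : Fin 4 × Fin s → ℤ) = 0 ∧ j = j' then 1 / (t * g)
          else if (0 : Fin 4 × Fin s → ℤ) = 0 ∨ 0 + stp i j - stp i j' = 0 then 1 / g else 1) *
          Vf s g t n (i + 1) (0 + stp i j - stp i j') := by
      simp only [Vf]
    have hR := Rf_sum s hs hev i (n + 1)
    have h40 : (1 / (s : ℝ) ^ 2) * ∑ j : Fin s, ∑ j' : Fin s,
        (if j = j' then 40 / (t * g) else 0) = 40 * (1 / ((s : ℝ) * t)) * (1 / g) := by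
      simp only [Finset.sum_ite_eq, Finset.mem_univ, if_true]
      rw [Finset.sum_const, Finset.card_univ, Fintype.card_fin, nsmul_eq_mul]
      field_simp
    have hst1 : 1 / ((s : ℝ) * t) ≤ 1 / 8 := one_div_le_one_div_of_le (by norm_num) hst
    have hst0 : 0 < 1 / ((s : ℝ) * t) := by positivity
    rw [hdef]
    calc (1 / (s : ℝ) ^ 2) * ∑ j : Fin s, ∑ j' : Fin s,
        (if (0 : Fin 4 × Fin s → ℤ) = 0 ∧ j = j' then 1 / (t * g)
          else if (0 : Fin 4 × Fin s → ℤ) = 0 ∨ 0 + stp i j - stp i j' = 0 then 1 / g else 1) *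
          Vf s g t n (i + 1) (0 + stp i j - stp i j')
        ≤ (1 / (s : ℝ) ^ 2) * ∑ j : Fin s, ∑ j' : Fin s,
          ((if j = j' then 40 / (t * g) else 0) + (1 / g + (40 / g ^ 2) *
          (if j = j' then 0 else
            ∑ m ∈ Finset.range (n + 1), Rf s m (i + 1) (stp i j - stp i j')))) := by
          refine mul_le_mul_of_nonneg_left ?_ (by positivity)
          exact Finset.sum_le_sum fun j _ => Finset.sum_le_sum fun j' _ => hterm j j'
      _ = 40 * (1 / ((s : ℝ) * t)) * (1 / g) + (1 / g + (40 / g ^ 2) *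
          ((1 / (s : ℝ) ^ 2) * ∑ j : Fin s, ∑ j' : Fin s,
            (if j = j' then 0 else
              ∑ m ∈ Finset.range (n + 1), Rf s m (i + 1) (stp i j - stp i j')))) := by
          simp only [Finset.sum_add_distrib]
          rw [mul_add, mul_add, h40, E5_avg s hs0 (1 / g)]
          congr 2
          simp only [← Finset.mul_sum]
          ring
      _ ≤ 40 * (1 / 8) * (272 / 49) + (272 / 49 + (40 * (272 / 49) ^ 2) * (9 / 2000)) := by
          have e1 : 40 * (1 / ((s : ℝ) * t)) * (1 / g) ≤ 40 * (1 / 8) * (272 / 49) := by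
            apply mul_le_mul _ hG hG0.le (by norm_num)
            linarith
          have e2 : 40 / g ^ 2 ≤ 40 * (272 / 49) ^ 2 := by
            have : 40 / g ^ 2 = 40 * (1 / g) ^ 2 := by field_simp
            rw [this]
            exact mul_le_mul_of_nonneg_left (pow_le_pow_left₀ hG0.le hG 2) (by norm_num)
          have e3 : (40 / g ^ 2) * ((1 / (s : ℝ) ^ 2) * ∑ j : Fin s, ∑ j' : Fin s,
            (if j = j' then 0 else
              ∑ m ∈ Finset.range (n + 1), Rf s m (i + 1) (stp i j - stp i j'))) ≤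
              (40 * (272 / 49) ^ 2) * (9 / 2000) := by
            refine (mul_le_mul_of_nonneg_left hR (by positivity)).trans ?_
            exact mul_le_mul_of_nonneg_right e2 (by norm_num)
          linarith
      _ ≤ 40 := by norm_num

end Pool.Agent.H90.SC
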