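import Pool.Agent.H90.SC.Defs

/-!
# SCUR E6: the sum over pairs of paths is the value function

Generalise: for paths `γ : Fin n → Fin s` started at time `i0`, let
`D i = δ + (number of steps of γ before i) - (number of steps of γ' before i)` and the weight of
step `i` be as in `Vf`. By induction on `n`, splitting off the first step (`Fin.consEquiv` or
`Fin.cons`), `∑ γ γ', ∏ i, weight = s^(2n) * Vf s g t n i0 δ`. For `δ = 0`, `i0 = 0` the weight of
step `i` is `wstep g t γ γ' i` because `D i = pos γ i - pos γ' i` (cast to `ℤ`) and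
`pos γ (i+1) = pos γ i + e_(cls i, γ i)`.
(Or split off the last step and use the adjoint recursion, whatever is easier.)
-/

namespace Pool.Agent.H90.SC

/-- Difference of the two paths before step `k`. -/
noncomputable def E6_D {s N : ℕ} (i0 : ℕ) (δ : Fin 4 × Fin s → ℤ) (γ γ' : Fin N → Fin s) (k : ℕ) :
    Fin 4 × Fin s → ℤ :=
  δ + ∑ i : Fin N, if i.1 < k then stp (i0 + i.1) (γ i) - stp (i0 + i.1) (γ' i) else 0

open Classical in
/-- Weight of a step. -/
noncomputable def E6_w {s : ℕ} (g t : ℝ) (δ δ' : Fin 4 × Fin s → ℤ) (a b : Fin s) : ℝ :=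
  if δ = 0 ∧ a = b then 1 / (t * g) else if δ = 0 ∨ δ' = 0 then 1 / g else 1

theorem E6_D_zero {s N : ℕ} (i0 : ℕ) (δ : Fin 4 × Fin s → ℤ) (γ γ' : Fin N → Fin s) :
    E6_D i0 δ γ γ' 0 = δ := by
  unfold E6_D
  simp

theorem E6_D_succ {s N : ℕ} (i0 : ℕ) (δ : Fin 4 × Fin s → ℤ) (a b : Fin s)
    (γ γ' : Fin N → Fin s) (k : ℕ) :
    E6_D i0 δ (Fin.cons a γ : Fin (N + 1) → Fin s) (Fin.cons b γ' : Fin (N + 1) → Fin s) (k + 1) =
      E6_D (i0 + 1) (δ + stp i0 a - stp i0 b) γ γ' k := by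
  unfold E6_D
  rw [Fin.sum_univ_succ]
  simp only [Fin.val_zero, Fin.cons_zero, Fin.val_succ, Fin.cons_succ, Nat.zero_lt_succ, if_true,
    Nat.add_lt_add_iff_right, add_zero]
  rw [← add_assoc, add_sub_assoc]
  congr 1
  refine Finset.sum_congr rfl fun i _ => ?_
  rw [show i0 + (i.1 + 1) = i0 + 1 + i.1 by omega]

theorem E6_sum {s : ℕ} (hs : 0 < s) (g t : ℝ) (N : ℕ) :
    ∀ (i0 : ℕ) (δ : Fin 4 × Fin s → ℤ),
    ∑ γ : Fin N → Fin s, ∑ γ' : Fin N → Fin s, ∏ i : Fin N,
      E6_w g t (E6_D i0 δ γ γ' i.1) (E6_D i0 δ γ γ' (i.1 + 1)) (γ i) (γ' i) =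
      (s : ℝ) ^ (2 * N) * Vf s g t N i0 δ := by
  have hsR : (s : ℝ) ≠ 0 := by positivity
  induction N with
  | zero =>
    intro i0 δ
    simp [Vf]
  | succ N ih =>
    intro i0 δ
    have hdef : Vf s g t (N + 1) i0 δ = (1 / (s : ℝ) ^ 2) * ∑ a : Fin s, ∑ b : Fin s,
        E6_w g t δ (δ + stp i0 a - stp i0 b) a b *
          Vf s g t N (i0 + 1) (δ + stp i0 a - stp i0 b) := by
      simp only [Vf, E6_w]
    rw [hdef]
    have hR : (s : ℝ) ^ (2 * (N + 1)) * ((1 / (s : ℝ) ^ 2) * ∑ a : Fin s, ∑ b : Fin s,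
        E6_w g t δ (δ + stp i0 a - stp i0 b) a b *
          Vf s g t N (i0 + 1) (δ + stp i0 a - stp i0 b)) =
        ∑ a : Fin s, ∑ b : Fin s, E6_w g t δ (δ + stp i0 a - stp i0 b) a b *
          ((s : ℝ) ^ (2 * N) * Vf s g t N (i0 + 1) (δ + stp i0 a - stp i0 b)) := by
      rw [← mul_assoc, show (s : ℝ) ^ (2 * (N + 1)) * (1 / (s : ℝ) ^ 2) = (s : ℝ) ^ (2 * N) by
        rw [mul_add, pow_add]; field_simp]
      rw [Finset.mul_sum]
      refine Finset.sum_congr rfl fun a _ => ?_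
      rw [Finset.mul_sum]
      refine Finset.sum_congr rfl fun b _ => ?_
      ring
    rw [hR, ← (Fin.consEquiv (fun _ => Fin s)).sum_comp, Fintype.sum_prod_type]
    refine Finset.sum_congr rfl fun a _ => ?_
    have hL : ∀ γ : Fin N → Fin s,
        ∑ γ' : Fin (N + 1) → Fin s, ∏ i : Fin (N + 1),
          E6_w g t (E6_D i0 δ (Fin.consEquiv (fun _ => Fin s) (a, γ)) γ' i.1)
            (E6_D i0 δ (Fin.consEquiv (fun _ => Fin s) (a, γ)) γ' (i.1 + 1))
            (Fin.consEquiv (fun _ => Fin s) (a, γ) i) (γ' i) =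
        ∑ b : Fin s, ∑ γ' : Fin N → Fin s, E6_w g t δ (δ + stp i0 a - stp i0 b) a b *
          ∏ i : Fin N, E6_w g t (E6_D (i0 + 1) (δ + stp i0 a - stp i0 b) γ γ' i.1)
            (E6_D (i0 + 1) (δ + stp i0 a - stp i0 b) γ γ' (i.1 + 1)) (γ i) (γ' i) := by
      intro γ
      rw [← (Fin.consEquiv (fun _ => Fin s)).sum_comp, Fintype.sum_prod_type]
      refine Finset.sum_congr rfl fun b _ => ?_
      refine Finset.sum_congr rfl fun γ' _ => ?_
      have e1 : Fin.consEquiv (fun _ => Fin s) (a, γ) = (Fin.cons a γ : Fin (N + 1) → Fin s) := rfl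
      have e2 : Fin.consEquiv (fun _ => Fin s) (b, γ') = (Fin.cons b γ' : Fin (N + 1) → Fin s) :=
        rfl
      rw [e1, e2, Fin.prod_univ_succ]
      simp only [Fin.val_zero, Fin.cons_zero, Fin.val_succ, Fin.cons_succ, E6_D_succ, E6_D_zero]
    simp only [hL]
    rw [Finset.sum_comm]
    refine Finset.sum_congr rfl fun b _ => ?_
    rw [← ih (i0 + 1) (δ + stp i0 a - stp i0 b)]
    rw [Finset.mul_sum]
    refine Finset.sum_congr rfl fun γ _ => ?_
    rw [Finset.mul_sum]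

theorem E6_D_pos {s N : ℕ} (γ γ' : Fin N → Fin s) (k : ℕ) :
    E6_D 0 0 γ γ' k = fun q => (pos γ k q : ℤ) - (pos γ' k q : ℤ) := by
  funext q
  unfold E6_D pos
  rw [zero_add, Finset.sum_apply, Finset.card_filter, Finset.card_filter]
  push_cast
  rw [← Finset.sum_sub_distrib]
  refine Finset.sum_congr rfl fun i _ => ?_
  have h : ∀ (a : Fin s), stp (0 + i.1) a q = if cls i.1 = q.1 ∧ a = q.2 then (1 : ℤ) else 0 := by
    intro a
    unfold stp
    rw [zero_add, Pi.single_apply]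
    refine if_congr ?_ rfl rfl
    constructor
    · intro h
      rw [h]
      exact ⟨rfl, rfl⟩
    · rintro ⟨h1, h2⟩
      exact Prod.ext h1.symm h2.symm
  by_cases hk : i.1 < k
  · simp only [hk, if_true, true_and, Pi.sub_apply, h]
  · simp only [hk, if_false, false_and, Pi.zero_apply, sub_self]

theorem sum_wstep (s : ℕ) (hs : 0 < s) (g t : ℝ) (N : ℕ) :
    ∑ γ : Fin N → Fin s, ∑ γ' : Fin N → Fin s, ∏ i : Fin N, wstep g t γ γ' i =
      (s : ℝ) ^ (2 * N) * Vf s g t N 0 0 := by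
  rw [← E6_sum hs g t N 0 0]
  have hD : ∀ (γ γ' : Fin N → Fin s) (k : ℕ),
      E6_D 0 0 γ γ' k = 0 ↔ pos γ k = pos γ' k := by
    intro γ γ' k
    rw [E6_D_pos]
    constructor
    · intro h
      funext q
      have := congrFun h q
      simp only [Pi.zero_apply] at this
      omega
    · intro h
      funext q
      rw [h]
      simp
  refine Finset.sum_congr rfl fun γ _ => Finset.sum_congr rfl fun γ' _ =>
    Finset.prod_congr rfl fun i _ => ?_
  unfold wstep E6_w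
  simp only [hD]

end Pool.Agent.H90.SC
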