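import Pool.Agent.H90.SC.E8a

/-!
# SCUR E8b: probability of a pair of open paths

Let `O i ω` be the event of step `i` in `OpenP ω r γ`: it depends on
`S i = {(r, tee (pos γ i) (cls i, γ i))} ∪ supp r (par i) (pos γ i) (cls i, γ i)`
(module E7). For `i < i'` the sets `S i`, `S i'` (also those of two different paths `γ`, `γ'`) are
disjoint: `tee` and `rung` links sit at positions of level `∑ pos = i`, cube links have Boolean
`par i` and level `i` or `i + 1` (`pos γ (i+1) = nxt ..`): if `i' = i+1` the Booleans differ, if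
`i' ≥ i + 2` the levels differ. So by `Ex_prod_indep`
`P(OpenP γ) = ∏ i P(O i) = (x/2 * gval)^N` (`tee` is independent of `supp`: `Ex_mul_indep`,
`Ex_mem`, `goodAt_prob`) and `P(OpenP γ ∧ OpenP γ') = ∏ i P(O i ∧ O' i)`, where
* if `pos γ i = pos γ' i` and `γ i = γ' i`: `P(O i ∧ O' i) = P(O i) = (x/2) g`;
* otherwise the two `tee` links are different and independent of everything else, so
  `P(O i ∧ O' i) = (x/2)^2 P(Good ∧ Good') ≤ (x/2)^2 g`;
* if moreover `pos γ i ≠ pos γ' i` and `pos γ (i+1) ≠ pos γ' (i+1)`, the two supports are disjoint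
  and `P(O i ∧ O' i) = ((x/2) g)^2`.
In all cases `P(O i ∧ O' i) ≤ ((x/2) g)^2 * wstep g (x/2) γ γ' i`.
-/

namespace Pool.Agent.H90.SC

/-- The indicator of step `i` of `γ`. -/
private noncomputable def E8b_O {k N : ℕ} (r : ℕ) (γ : Fin N → Fin k) (i : Fin N)
    (ω : Finset (ℕ × Lk k)) : ℝ :=
  (ind fun ω : Finset (ℕ × Lk k) => (r, Lk.tee (pos γ i.1) (cls i.1, γ i)) ∈ ω) ω *
    (ind fun ω : Finset (ℕ × Lk k) => GoodAt ω r (par i.1) (pos γ i.1) (cls i.1, γ i)) ω

private theorem E8b_dep_mem {ε : Type*} [DecidableEq ε] (e : ε) :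
    Dep {e} (ind fun ω : Finset ε => e ∈ ω) := by
  intro ω ω' h
  have : e ∈ ω ↔ e ∈ ω' := by
    constructor
    · intro he
      have : e ∈ ω ∩ {e} := Finset.mem_inter.2 ⟨he, Finset.mem_singleton_self e⟩
      rw [h] at this
      exact (Finset.mem_inter.1 this).1
    · intro he
      have : e ∈ ω' ∩ {e} := Finset.mem_inter.2 ⟨he, Finset.mem_singleton_self e⟩
      rw [← h] at this
      exact (Finset.mem_inter.1 this).1
  by_cases he : e ∈ ω'
  · simp [ind, this, he]
  · simp [ind, this, he]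

private theorem E8b_ind01 {ε : Type*} (P : Finset ε → Prop) (ω : Finset ε) :
    ind P ω = 0 ∨ ind P ω = 1 := by
  by_cases h : P ω
  · right; simp [ind, h]
  · left; simp [ind, h]

private theorem E8b_ind_nonneg {ε : Type*} (P : Finset ε → Prop) (ω : Finset ε) :
    0 ≤ ind P ω := by
  rcases E8b_ind01 P ω with h | h <;> simp [h]

private theorem E8b_ind_le {ε : Type*} (P : Finset ε → Prop) (ω : Finset ε) :
    ind P ω ≤ 1 := by
  rcases E8b_ind01 P ω with h | h <;> simp [h]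

private theorem E8b_dep_O {k N : ℕ} (r : ℕ) (γ : Fin N → Fin k) (i : Fin N) :
    Dep (suppS r γ i) (E8b_O r γ i) := by
  have := Dep.mul (E8b_dep_mem (r, Lk.tee (pos γ i.1) (cls i.1, γ i)))
    (dep_goodAt r (par i.1) (pos γ i.1) (cls i.1, γ i))
  exact Dep.mono (by intro e he; simpa [suppS] using he) this

private theorem E8b_openP {k N : ℕ} (r : ℕ) (γ : Fin N → Fin k) (ω : Finset (ℕ × Lk k)) :
    (ind fun ω : Finset (ℕ × Lk k) => OpenP ω r γ) ω = ∏ i ∈ Finset.univ, E8b_O r γ i ω := by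
  by_cases h : OpenP ω r γ
  · have h1 : ind (fun ω : Finset (ℕ × Lk k) => OpenP ω r γ) ω = 1 := by simp [ind, h]
    rw [h1, Finset.prod_eq_one]
    intro i _
    have := h i
    simp [E8b_O, ind, this.1, this.2]
  · have h1 : ind (fun ω : Finset (ℕ × Lk k) => OpenP ω r γ) ω = 0 := by simp [ind, h]
    rw [h1]
    have h' : ∃ i : Fin N, ¬ ((r, Lk.tee (pos γ i.1) (cls i.1, γ i)) ∈ ω ∧
        GoodAt ω r (par i.1) (pos γ i.1) (cls i.1, γ i)) := by
      by_contra hc
      push Not at hc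
      exact h fun i => hc i
    obtain ⟨i, hi⟩ := h'
    symm
    apply Finset.prod_eq_zero (Finset.mem_univ i)
    by_cases ha : (r, Lk.tee (pos γ i.1) (cls i.1, γ i)) ∈ ω
    · have hb : ¬ GoodAt ω r (par i.1) (pos γ i.1) (cls i.1, γ i) := fun hb => hi ⟨ha, hb⟩
      simp [E8b_O, ind, hb]
    · simp [E8b_O, ind, ha]

private theorem E8b_ind_and {ε : Type*} (P Q : Finset ε → Prop) (ω : Finset ε) :
    ind (fun ω => P ω ∧ Q ω) ω = ind P ω * ind Q ω := by
  by_cases hP : P ω <;> by_cases hQ : Q ω <;> simp [ind, hP, hQ]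

private theorem E8b_tee_not_mem {k : ℕ} (r : ℕ) (q : Bool) (y : Pos k) (j : Fin 4 × Fin k)
    (y' : Pos k) (j' : Fin 4 × Fin k) : (r, Lk.tee y' j') ∉ supp r q y j := by
  simp [supp]

private theorem E8b_supp_disjoint {k : ℕ} (r : ℕ) (q : Bool) (y y' : Pos k)
    (j j' : Fin 4 × Fin k) (h1 : y ≠ y') (h2 : nxt y j ≠ nxt y' j') (h3 : nxt y j ≠ y')
    (h4 : y ≠ nxt y' j') : Disjoint (supp r q y j) (supp r q y' j') := by
  rw [Finset.disjoint_left]
  intro e he he'
  simp only [supp, Finset.mem_union, Finset.mem_image, Finset.mem_univ, true_and,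
    Finset.mem_filter] at he he'
  rcases he with (⟨c, hc⟩ | ⟨c, hc⟩) | ⟨A, _, hA⟩
  · rcases he' with (⟨c', hc'⟩ | ⟨c', hc'⟩) | ⟨A', _, hA'⟩
    · rw [← hc] at hc'
      simp only [Prod.mk.injEq, Lk.cube.injEq] at hc'
      exact h1 hc'.2.2.1.symm
    · rw [← hc] at hc'
      simp only [Prod.mk.injEq, Lk.cube.injEq] at hc'
      exact h4 hc'.2.2.1.symm
    · rw [← hc] at hA'
      simp at hA'
  · rcases he' with (⟨c', hc'⟩ | ⟨c', hc'⟩) | ⟨A', _, hA'⟩
    · rw [← hc] at hc'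
      simp only [Prod.mk.injEq, Lk.cube.injEq] at hc'
      exact h3 hc'.2.2.1.symm
    · rw [← hc] at hc'
      simp only [Prod.mk.injEq, Lk.cube.injEq] at hc'
      exact h2 hc'.2.2.1.symm
    · rw [← hc] at hA'
      simp at hA'
  · rcases he' with (⟨c', hc'⟩ | ⟨c', hc'⟩) | ⟨A', _, hA'⟩
    · rw [← hA] at hc'
      simp at hc'
    · rw [← hA] at hc'
      simp at hc'
    · rw [← hA] at hA'
      simp only [Prod.mk.injEq, Lk.rung.injEq] at hA'
      exact h1 hA'.2.1.symm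

private theorem E8b_p01 {k : ℕ} (x : ℝ) (hx0 : 0 < x) (hx1 : x ≤ 1) (e : ℕ × Lk k) :
    0 ≤ pLk x e ∧ pLk x e ≤ 1 := by
  rcases e with ⟨ρ, l⟩
  cases l <;> simp only [pLk] <;> constructor <;> linarith

private theorem E8b_step {k N R : ℕ} (x : ℝ) (hx0 : 0 < x) (hx1 : x ≤ 1) (hg : 0 < gval k x)
    (r : ℕ) (hr : r < R) (γ γ' : Fin N → Fin k) (i : Fin N) :
    Ex (linksR k N R) (pLk x) (fun ω => E8b_O r γ i ω * E8b_O r γ' i ω) ≤
      (x / 2 * gval k x) ^ 2 * wstep (gval k x) (x / 2) γ γ' i := by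
  have hsub := suppS_subset (R := R) r hr γ i
  have hsub' := suppS_subset (R := R) r hr γ' i
  have ht : 0 < x / 2 := by linarith
  have htg : 0 < x / 2 * gval k x := mul_pos ht hg
  have hE : (r, Lk.tee (pos γ i.1) (cls i.1, γ i)) ∈ linksR k N R :=
    hsub (Finset.mem_insert_self _ _)
  have hE' : (r, Lk.tee (pos γ' i.1) (cls i.1, γ' i)) ∈ linksR k N R :=
    hsub' (Finset.mem_insert_self _ _)
  have hS : supp r (par i.1) (pos γ i.1) (cls i.1, γ i) ⊆ linksR k N R :=
    fun e he => hsub (Finset.mem_insert_of_mem he)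
  have hS' : supp r (par i.1) (pos γ' i.1) (cls i.1, γ' i) ⊆ linksR k N R :=
    fun e he => hsub' (Finset.mem_insert_of_mem he)
  have hG := goodAt_prob x r (par i.1) (pos γ i.1) (cls i.1, γ i) _ hS
  have hG' := goodAt_prob x r (par i.1) (pos γ' i.1) (cls i.1, γ' i) _ hS'
  have hO : Ex (linksR k N R) (pLk x) (E8b_O r γ i) = x / 2 * gval k x := by
    have h0 : E8b_O r γ i = fun ω => (ind fun ω : Finset (ℕ × Lk k) =>
        (r, Lk.tee (pos γ i.1) (cls i.1, γ i)) ∈ ω) ω *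
        (ind fun ω : Finset (ℕ × Lk k) => GoodAt ω r (par i.1) (pos γ i.1) (cls i.1, γ i)) ω :=
      rfl
    rw [h0, Ex_mul_indep (A := {(r, Lk.tee (pos γ i.1) (cls i.1, γ i))})
        (B := supp r (par i.1) (pos γ i.1) (cls i.1, γ i)) _ _ _ (E8b_dep_mem _)
        (dep_goodAt r (par i.1) (pos γ i.1) (cls i.1, γ i)), Ex_mem (pLk x) hE, hG]
    · rfl
    · rw [Finset.disjoint_singleton_left]
      exact E8b_tee_not_mem r _ _ _ _ _
  by_cases c1 : pos γ i.1 = pos γ' i.1 ∧ γ i = γ' i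
  · have hw : wstep (gval k x) (x / 2) γ γ' i = 1 / (x / 2 * gval k x) := by
      simp only [wstep]
      rw [if_pos c1]
    have hEq : (fun ω => E8b_O r γ i ω * E8b_O r γ' i ω) = E8b_O r γ i := by
      funext ω
      have : E8b_O r γ' i ω = E8b_O r γ i ω := by
        simp only [E8b_O, c1.1, c1.2]
      rw [this]
      simp only [E8b_O]
      rcases E8b_ind01 (fun ω : Finset (ℕ × Lk k) =>
        (r, Lk.tee (pos γ i.1) (cls i.1, γ i)) ∈ ω) ω with h | h <;>
      rcases E8b_ind01 (fun ω : Finset (ℕ × Lk k) =>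
        GoodAt ω r (par i.1) (pos γ i.1) (cls i.1, γ i)) ω with h' | h' <;>
      rw [h, h'] <;> norm_num
    rw [hEq, hO, hw]
    apply le_of_eq
    field_simp
  · -- the two tee links are different
    have hne : (r, Lk.tee (pos γ i.1) (cls i.1, γ i)) ≠
        (r, Lk.tee (pos γ' i.1) (cls i.1, γ' i)) := by
      intro h
      simp only [Prod.mk.injEq, Lk.tee.injEq, true_and] at h
      exact c1 ⟨h.1, h.2⟩
    have hEq : (fun ω => E8b_O r γ i ω * E8b_O r γ' i ω) = fun ω =>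
        ((ind fun ω : Finset (ℕ × Lk k) => (r, Lk.tee (pos γ i.1) (cls i.1, γ i)) ∈ ω ∧
          (r, Lk.tee (pos γ' i.1) (cls i.1, γ' i)) ∈ ω) ω) *
        ((ind fun ω : Finset (ℕ × Lk k) => GoodAt ω r (par i.1) (pos γ i.1) (cls i.1, γ i)) ω *
        (ind fun ω : Finset (ℕ × Lk k) =>
          GoodAt ω r (par i.1) (pos γ' i.1) (cls i.1, γ' i)) ω) := by
      funext ω
      rw [E8b_ind_and (fun ω : Finset (ℕ × Lk k) =>
        (r, Lk.tee (pos γ i.1) (cls i.1, γ i)) ∈ ω)
        (fun ω : Finset (ℕ × Lk k) => (r, Lk.tee (pos γ' i.1) (cls i.1, γ' i)) ∈ ω)]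
      simp only [E8b_O]
      ring
    have hdep : Dep ({(r, Lk.tee (pos γ i.1) (cls i.1, γ i))} ∪
        {(r, Lk.tee (pos γ' i.1) (cls i.1, γ' i))})
        (ind fun ω : Finset (ℕ × Lk k) => (r, Lk.tee (pos γ i.1) (cls i.1, γ i)) ∈ ω ∧
          (r, Lk.tee (pos γ' i.1) (cls i.1, γ' i)) ∈ ω) := by
      have := Dep.mul (E8b_dep_mem (r, Lk.tee (pos γ i.1) (cls i.1, γ i)))
        (E8b_dep_mem (r, Lk.tee (pos γ' i.1) (cls i.1, γ' i)))
      intro ω ω' h
      rw [E8b_ind_and (fun ω : Finset (ℕ × Lk k) =>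
        (r, Lk.tee (pos γ i.1) (cls i.1, γ i)) ∈ ω)
        (fun ω : Finset (ℕ × Lk k) => (r, Lk.tee (pos γ' i.1) (cls i.1, γ' i)) ∈ ω),
        E8b_ind_and (fun ω : Finset (ℕ × Lk k) =>
        (r, Lk.tee (pos γ i.1) (cls i.1, γ i)) ∈ ω)
        (fun ω : Finset (ℕ × Lk k) => (r, Lk.tee (pos γ' i.1) (cls i.1, γ' i)) ∈ ω)]
      exact this ω ω' h
    have hdepG := Dep.mul (dep_goodAt r (par i.1) (pos γ i.1) (cls i.1, γ i))
      (dep_goodAt r (par i.1) (pos γ' i.1) (cls i.1, γ' i))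
    have hdisj : Disjoint (({(r, Lk.tee (pos γ i.1) (cls i.1, γ i))} ∪
        {(r, Lk.tee (pos γ' i.1) (cls i.1, γ' i))}) : Finset (ℕ × Lk k))
        (supp r (par i.1) (pos γ i.1) (cls i.1, γ i) ∪
          supp r (par i.1) (pos γ' i.1) (cls i.1, γ' i)) := by
      rw [Finset.disjoint_left]
      intro e he he'
      rw [Finset.mem_union, Finset.mem_singleton, Finset.mem_singleton] at he
      rw [Finset.mem_union] at he'
      rcases he with rfl | rfl
      · rcases he' with he' | he'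
        · exact E8b_tee_not_mem r _ _ _ _ _ he'
        · exact E8b_tee_not_mem r _ _ _ _ _ he'
      · rcases he' with he' | he'
        · exact E8b_tee_not_mem r _ _ _ _ _ he'
        · exact E8b_tee_not_mem r _ _ _ _ _ he'
    rw [hEq, Ex_mul_indep hdisj _ _ hdep hdepG, Ex_mem_mem (pLk x) hE hE' hne]
    have hp1 : pLk x (r, Lk.tee (pos γ i.1) (cls i.1, γ i)) = x / 2 := rfl
    have hp2 : pLk x (r, Lk.tee (pos γ' i.1) (cls i.1, γ' i)) = x / 2 := rfl
    rw [hp1, hp2]
    by_cases c2 : pos γ i.1 = pos γ' i.1 ∨ pos γ (i.1 + 1) = pos γ' (i.1 + 1)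
    · have hw : wstep (gval k x) (x / 2) γ γ' i = 1 / gval k x := by
        simp only [wstep]
        rw [if_neg c1, if_pos c2]
      rw [hw]
      have hle : Ex (linksR k N R) (pLk x) (fun ω =>
          (ind fun ω : Finset (ℕ × Lk k) =>
            GoodAt ω r (par i.1) (pos γ i.1) (cls i.1, γ i)) ω *
          (ind fun ω : Finset (ℕ × Lk k) =>
            GoodAt ω r (par i.1) (pos γ' i.1) (cls i.1, γ' i)) ω) ≤ gval k x := by
        rw [← hG]
        apply Ex_mono (fun e _ => E8b_p01 x hx0 hx1 e)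
        intro ω _
        have h1 := E8b_ind_le (fun ω : Finset (ℕ × Lk k) =>
            GoodAt ω r (par i.1) (pos γ' i.1) (cls i.1, γ' i)) ω
        have h2 := E8b_ind_nonneg (fun ω : Finset (ℕ × Lk k) =>
            GoodAt ω r (par i.1) (pos γ i.1) (cls i.1, γ i)) ω
        exact mul_le_of_le_one_right h2 h1
      have : (x / 2 * gval k x) ^ 2 * (1 / gval k x) = x / 2 * (x / 2) * gval k x := by
        field_simp
      rw [this]
      exact mul_le_mul_of_nonneg_left hle (mul_nonneg ht.le ht.le)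
    · have hw : wstep (gval k x) (x / 2) γ γ' i = 1 := by
        simp only [wstep]
        rw [if_neg c1, if_neg c2]
      push Not at c2
      rw [pos_succ, pos_succ] at c2
      have s1 : ∑ q, pos γ i.1 q = i.1 := sum_pos γ i.1 i.2.le
      have s2 : ∑ q, pos γ' i.1 q = i.1 := sum_pos γ' i.1 i.2.le
      have s3 : ∑ q, nxt (pos γ i.1) (cls i.1, γ i) q = i.1 + 1 := by
        rw [← pos_succ]
        exact sum_pos γ (i.1 + 1) i.2
      have s4 : ∑ q, nxt (pos γ' i.1) (cls i.1, γ' i) q = i.1 + 1 := by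
        rw [← pos_succ]
        exact sum_pos γ' (i.1 + 1) i.2
      have h3 : nxt (pos γ i.1) (cls i.1, γ i) ≠ pos γ' i.1 := by
        intro h
        rw [h, s2] at s3
        omega
      have h4 : pos γ i.1 ≠ nxt (pos γ' i.1) (cls i.1, γ' i) := by
        intro h
        rw [← h, s1] at s4
        omega
      rw [hw, mul_one, Ex_mul_indep (E8b_supp_disjoint r (par i.1) _ _ _ _ c2.1 c2.2 h3 h4) _ _
        (dep_goodAt r (par i.1) (pos γ i.1) (cls i.1, γ i))
        (dep_goodAt r (par i.1) (pos γ' i.1) (cls i.1, γ' i)), hG, hG']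
      apply le_of_eq
      ring

theorem openP_pair {k N R : ℕ} (x : ℝ) (hx0 : 0 < x) (hx1 : x ≤ 1) (hg : 0 < gval k x) (r : ℕ)
    (hr : r < R) (γ γ' : Fin N → Fin k) :
    Ex (linksR k N R) (pLk x) (ind fun ω => OpenP ω r γ ∧ OpenP ω r γ') ≤
      (x / 2 * gval k x) ^ (2 * N) * ∏ i : Fin N, wstep (gval k x) (x / 2) γ γ' i := by
  have hfun : (ind fun ω : Finset (ℕ × Lk k) => OpenP ω r γ ∧ OpenP ω r γ') = fun ω =>
      ∏ i ∈ Finset.univ, (E8b_O r γ i ω * E8b_O r γ' i ω) := by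
    funext ω
    rw [E8b_ind_and (fun ω : Finset (ℕ × Lk k) => OpenP ω r γ) (fun ω => OpenP ω r γ'),
      E8b_openP, E8b_openP, ← Finset.prod_mul_distrib]
  rw [hfun, Ex_prod_indep Finset.univ (fun i => suppS r γ i ∪ suppS r γ' i)
    (fun i ω => E8b_O r γ i ω * E8b_O r γ' i ω)]
  · calc ∏ i ∈ Finset.univ, Ex (linksR k N R) (pLk x)
          (fun ω => E8b_O r γ i ω * E8b_O r γ' i ω)
        ≤ ∏ i ∈ (Finset.univ : Finset (Fin N)),
            ((x / 2 * gval k x) ^ 2 * wstep (gval k x) (x / 2) γ γ' i) := by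
          apply Finset.prod_le_prod
          · intro i _
            apply Ex_nonneg (fun e _ => E8b_p01 x hx0 hx1 e)
            intro ω _
            exact mul_nonneg (mul_nonneg (E8b_ind_nonneg _ _) (E8b_ind_nonneg _ _))
              (mul_nonneg (E8b_ind_nonneg _ _) (E8b_ind_nonneg _ _))
          · intro i _
            exact E8b_step x hx0 hx1 hg r hr γ γ' i
      _ = (x / 2 * gval k x) ^ (2 * N) *
            ∏ i : Fin N, wstep (gval k x) (x / 2) γ γ' i := by
          rw [Finset.prod_mul_distrib, Finset.prod_const, Finset.card_univ, Fintype.card_fin,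
            ← pow_mul]
  · intro i _ j _ hij
    rw [Finset.disjoint_union_left, Finset.disjoint_union_right, Finset.disjoint_union_right]
    exact ⟨⟨suppS_disjoint r γ γ i j hij, suppS_disjoint r γ γ' i j hij⟩,
      ⟨suppS_disjoint r γ' γ i j hij, suppS_disjoint r γ' γ' i j hij⟩⟩
  · intro i _
    exact Dep.mul (E8b_dep_O r γ i) (E8b_dep_O r γ' i)

end Pool.Agent.H90.SC
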