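import Pool.Agent.H90.SC.A4
import Pool.Agent.H90.SC.D3
import Pool.Agent.H90.SC.E5
import Pool.Agent.H90.SC.E6
import Pool.Agent.H90.SC.E8

/-!
# SCUR E9: one copy has an open path with probability at least 1/40
-/

namespace Pool.Agent.H90.SC

theorem pLk_mem {k : ℕ} {x : ℝ} (hx0 : 0 ≤ x) (hx1 : x ≤ 1) (l : ℕ × Lk k) :
    0 ≤ pLk x l ∧ pLk x l ≤ 1 := by
  rcases l with ⟨r, l⟩
  cases l <;> simp only [pLk] <;> constructor <;> linarith

theorem one_copy {k N R : ℕ} (hk : 100 ≤ k) (hev : Even k) (x : ℝ) (hx : 16 / (k : ℝ) ≤ x)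
    (hx1 : x ≤ 1) (r : ℕ) (hr : r < R) :
    1 / 40 ≤ Ex (linksR k N R) (pLk x) (ind fun ω => ∃ γ : Fin N → Fin k, OpenP ω r γ) := by
  classical
  have hk0 : (0 : ℝ) < k := by
    have : 0 < k := by omega
    exact_mod_cast this
  have hx0 : 0 < x := lt_of_lt_of_le (by positivity) hx
  have hg : 49 / 272 ≤ gval k x := gval_ge k (by omega) x hx hx1
  have hg1 : gval k x ≤ 1 := gval_le_one k x hx0.le hx1
  have hg0 : 0 < gval k x := by linarith
  have hp : ∀ e ∈ linksR k N R, 0 ≤ pLk (k := k) x e ∧ pLk (k := k) x e ≤ 1 :=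
    fun e _ => pLk_mem hx0.le hx1 e
  set a : ℝ := (k : ℝ) ^ N * (x / 2 * gval k x) ^ N with ha
  have ha0 : 0 < a := by positivity
  let X : Finset (ℕ × Lk k) → ℝ := fun ω => ∑ γ : Fin N → Fin k, ind (fun ω => OpenP ω r γ) ω
  have h1 : Ex (linksR k N R) (pLk x) X = a := by
    have := Ex_sum (Finset.univ : Finset (Fin N → Fin k)) (linksR k N R) (pLk x)
      (fun γ => ind (fun ω => OpenP ω r γ))
    simp only [X]
    rw [this]
    simp only [openP_prob x r hr]
    rw [Finset.sum_const, Finset.card_univ, Fintype.card_fun, Fintype.card_fin, Fintype.card_fin,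
      nsmul_eq_mul]
    push_cast
    rfl
  have h2 : Ex (linksR k N R) (pLk x) (fun ω => X ω ^ 2) ≤ 40 * a ^ 2 := by
    have e1 : Ex (linksR k N R) (pLk x) (fun ω => X ω ^ 2) =
        ∑ γ : Fin N → Fin k, ∑ γ' : Fin N → Fin k,
          Ex (linksR k N R) (pLk x) (ind fun ω => OpenP ω r γ ∧ OpenP ω r γ') := by
      have e2 : ∀ ω, X ω ^ 2 = ∑ γ : Fin N → Fin k, ∑ γ' : Fin N → Fin k,
          ind (fun ω => OpenP ω r γ ∧ OpenP ω r γ') ω := by
        intro ω
        simp only [X, sq, Finset.sum_mul_sum]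
        refine Finset.sum_congr rfl fun γ _ => Finset.sum_congr rfl fun γ' _ => ?_
        simp only [ind]
        by_cases c1 : OpenP ω r γ <;> by_cases c2 : OpenP ω r γ' <;> simp [c1, c2]
      rw [show (fun ω => X ω ^ 2) = fun ω => ∑ γ : Fin N → Fin k, ∑ γ' : Fin N → Fin k,
          ind (fun ω => OpenP ω r γ ∧ OpenP ω r γ') ω from funext e2]
      rw [Ex_sum]
      refine Finset.sum_congr rfl fun γ _ => ?_
      rw [Ex_sum]
    rw [e1]
    have e3 : ∑ γ : Fin N → Fin k, ∑ γ' : Fin N → Fin k,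
          Ex (linksR k N R) (pLk x) (ind fun ω => OpenP ω r γ ∧ OpenP ω r γ') ≤
        ∑ γ : Fin N → Fin k, ∑ γ' : Fin N → Fin k,
          (x / 2 * gval k x) ^ (2 * N) * ∏ i : Fin N, wstep (gval k x) (x / 2) γ γ' i :=
      Finset.sum_le_sum fun γ _ => Finset.sum_le_sum fun γ' _ =>
        openP_pair x hx0 hx1 hg0 r hr γ γ'
    refine e3.trans ?_
    have e4 : ∑ γ : Fin N → Fin k, ∑ γ' : Fin N → Fin k,
          (x / 2 * gval k x) ^ (2 * N) * ∏ i : Fin N, wstep (gval k x) (x / 2) γ γ' i =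
        (x / 2 * gval k x) ^ (2 * N) * ((k : ℝ) ^ (2 * N) * Vf k (gval k x) (x / 2) N 0 0) := by
      rw [← sum_wstep k (by omega) (gval k x) (x / 2) N, Finset.mul_sum]
      refine Finset.sum_congr rfl fun γ _ => ?_
      rw [Finset.mul_sum]
    rw [e4]
    have hV := Vf_le k hk hev (gval k x) (x / 2) hg hg1
      (by rw [div_le_iff₀ hk0]; rw [div_le_iff₀ hk0] at hx; linarith) N 0
    have : (x / 2 * gval k x) ^ (2 * N) * ((k : ℝ) ^ (2 * N) * Vf k (gval k x) (x / 2) N 0 0) ≤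
        (x / 2 * gval k x) ^ (2 * N) * ((k : ℝ) ^ (2 * N) * 40) := by
      gcongr
    refine this.trans (le_of_eq ?_)
    rw [ha, mul_pow]
    ring
  have h3 := Ex_second_moment hp X
  have h4 : Ex (linksR k N R) (pLk x) (ind fun ω => X ω ≠ 0) ≤
      Ex (linksR k N R) (pLk x) (ind fun ω => ∃ γ : Fin N → Fin k, OpenP ω r γ) := by
    refine Ex_mono hp fun ω _ => ?_
    simp only [ind]
    by_cases c : X ω ≠ 0
    · have : ∃ γ : Fin N → Fin k, OpenP ω r γ := by
        by_contra hno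
        push_neg at hno
        apply c
        simp only [X, ind]
        refine Finset.sum_eq_zero fun γ _ => ?_
        rw [if_neg (hno γ)]
      rw [if_pos c, if_pos this]
    · rw [if_neg c]
      split_ifs <;> norm_num
  have h5 : 0 ≤ Ex (linksR k N R) (pLk x) (ind fun ω => X ω ≠ 0) := by
    refine Ex_nonneg hp fun ω _ => ?_
    simp only [ind]; split_ifs <;> norm_num
  rw [h1] at h3
  have h6 : a ^ 2 ≤ 40 * a ^ 2 * Ex (linksR k N R) (pLk x) (ind fun ω => X ω ≠ 0) :=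
    h3.trans (mul_le_mul_of_nonneg_right h2 h5)
  have h7 : 0 < a ^ 2 := by positivity
  have h8 : 1 ≤ 40 * Ex (linksR k N R) (pLk x) (ind fun ω => X ω ≠ 0) := by
    by_contra hcon
    push_neg at hcon
    nlinarith
  linarith

end Pool.Agent.H90.SC
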