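import Pool.Agent.H90.SC.E7
import Pool.Agent.H90.SC.E9

/-!
# SCUR E10: many independent copies

The events `∃ γ, OpenP ω r γ` for different `r` depend on the links of copy `r` only
(`{r} ×ˢ links k N`; links outside `linksR` are irrelevant for `ω ⊆ linksR`), so they are
independent (`Ex_prod_indep` applied to `1 - ind`), and the probability that none occurs is the
product of the `R` factors `1 - P_r ≤ 39/40`.
-/

namespace Pool.Agent.H90.SC

/-- Open paths in copy `r` depend on the links of copy `r` only. -/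
theorem E10_open {k N : ℕ} {ω ω' : Finset (ℕ × Lk k)} {r : ℕ}
    (h : ∀ l, (r, l) ∈ ω ↔ (r, l) ∈ ω') (γ : Fin N → Fin k) : OpenP ω r γ ↔ OpenP ω' r γ := by
  unfold OpenP GoodAt
  simp only [h]

theorem E10_ind {ε : Type*} {P Q : Finset ε → Prop} {ω ω' : Finset ε} (h : P ω ↔ Q ω') :
    ind P ω = ind Q ω' := by
  unfold ind
  by_cases hc : P ω
  · rw [if_pos hc, if_pos (h.1 hc)]
  · rw [if_neg hc, if_neg (fun hq => hc (h.2 hq))]

/-- The links of copy `r`. -/
def E10_A (k N r : ℕ) : Finset (ℕ × Lk k) := {r} ×ˢ links k N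

/-- Presence of an open path in copy `r`. -/
def E10_ev (k N r : ℕ) (ω : Finset (ℕ × Lk k)) : Prop := ∃ γ : Fin N → Fin k, OpenP ω r γ

/-- The same for the links of copy `r`. -/
def E10_ev' (k N r : ℕ) (ω : Finset (ℕ × Lk k)) : Prop := E10_ev k N r (ω ∩ E10_A k N r)

/-- The indicator of the absence of open paths in copy `r`. -/
noncomputable def E10_f (k N r : ℕ) (ω : Finset (ℕ × Lk k)) : ℝ := 1 - ind (E10_ev' k N r) ω

theorem E10_dep (k N r : ℕ) : Dep (E10_A k N r) (E10_f k N r) := by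
  intro ω ω' h
  have h1 : E10_ev' k N r ω ↔ E10_ev' k N r ω' := by
    unfold E10_ev'
    rw [h]
  unfold E10_f
  rw [E10_ind h1]

theorem E10_key {k N R r : ℕ} {ω : Finset (ℕ × Lk k)} (hω : ω ⊆ linksR k N R) (l : Lk k) :
    (r, l) ∈ ω ∩ E10_A k N r ↔ (r, l) ∈ ω := by
  rw [Finset.mem_inter]
  constructor
  · exact fun h => h.1
  · intro h
    refine ⟨h, ?_⟩
    have h2 := hω h
    unfold linksR at h2
    unfold E10_A
    rw [Finset.mem_product] at h2 ⊢
    exact ⟨Finset.mem_singleton_self r, h2.2⟩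

theorem E10_f_eq {k N R r : ℕ} {ω : Finset (ℕ × Lk k)} (hω : ω ⊆ linksR k N R) :
    E10_f k N r ω = 1 - ind (E10_ev k N r) ω := by
  have h1 : E10_ev' k N r ω ↔ E10_ev k N r ω := by
    unfold E10_ev' E10_ev
    exact exists_congr fun γ => E10_open (E10_key hω) γ
  unfold E10_f
  rw [E10_ind h1]

theorem E10_nonneg (k N r : ℕ) (ω : Finset (ℕ × Lk k)) : 0 ≤ E10_f k N r ω := by
  unfold E10_f ind
  split_ifs <;> norm_num

theorem E10_or {k N R : ℕ} {ω : Finset (ℕ × Lk k)} (hω : ω ⊆ linksR k N R) :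
    ind (fun ω => ∃ r < R, E10_ev k N r ω) ω = 1 - ∏ r ∈ Finset.range R, E10_f k N r ω := by
  by_cases hc : ∃ r < R, E10_ev k N r ω
  · have h3 : ind (fun ω => ∃ r < R, E10_ev k N r ω) ω = 1 := by
      unfold ind
      rw [if_pos hc]
    rw [h3]
    obtain ⟨r, hr, hγ⟩ := hc
    rw [Finset.prod_eq_zero (Finset.mem_range.2 hr), sub_zero]
    rw [E10_f_eq hω]
    unfold ind
    rw [if_pos hγ, sub_self]
  · have h3 : ind (fun ω => ∃ r < R, E10_ev k N r ω) ω = 0 := by
      unfold ind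
      rw [if_neg hc]
    rw [h3, Finset.prod_eq_one, sub_self]
    intro r hr
    rw [Finset.mem_range] at hr
    rw [E10_f_eq hω]
    unfold ind
    rw [if_neg (fun hγ => hc ⟨r, hr, hγ⟩), sub_zero]

theorem E10_prod (k N R : ℕ) (x : ℝ) :
    Ex (linksR k N R) (pLk x) (ind fun ω => ∃ r < R, E10_ev k N r ω) =
      1 - ∏ r ∈ Finset.range R, Ex (linksR k N R) (pLk x) (E10_f k N r) := by
  have hd : ∀ i ∈ Finset.range R, ∀ j ∈ Finset.range R, i ≠ j →
      Disjoint (E10_A k N i) (E10_A k N j) := by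
    intro i _ j _ hij
    rw [Finset.disjoint_left]
    intro e he he'
    unfold E10_A at he he'
    rw [Finset.mem_product, Finset.mem_singleton] at he he'
    exact hij (he.1.symm.trans he'.1)
  have h1 := Ex_prod_indep (Finset.range R) (fun r => E10_A k N r) (fun r => E10_f k N r) hd
    (fun r _ => E10_dep k N r) (linksR k N R) (pLk x)
  have h2 : Ex (linksR k N R) (pLk x) (ind fun ω => ∃ r < R, E10_ev k N r ω) =
      Ex (linksR k N R) (pLk x) (fun ω => 1 - ∏ r ∈ Finset.range R, E10_f k N r ω) :=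
    Ex_congr fun ω hω => E10_or hω
  rw [h2, Ex_sub, Ex_const, h1]

theorem copies {k N R : ℕ} (hk : 100 ≤ k) (hev : Even k) (x : ℝ) (hx : 16 / (k : ℝ) ≤ x)
    (hx1 : x ≤ 1) :
    1 - (39 / 40 : ℝ) ^ R ≤
      Ex (linksR k N R) (pLk x) (ind fun ω => ∃ r < R, ∃ γ : Fin N → Fin k, OpenP ω r γ) := by
  have hk0 : (0 : ℝ) < k := by
    have : 0 < k := by omega
    exact_mod_cast this
  have hx0 : 0 < x := lt_of_lt_of_le (by positivity) hx
  have hp : ∀ e ∈ linksR k N R, 0 ≤ pLk (k := k) x e ∧ pLk (k := k) x e ≤ 1 :=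
    fun e _ => pLk_mem hx0.le hx1 e
  have h1 := E10_prod k N R x
  unfold E10_ev at h1
  rw [h1]
  have h2 : ∏ r ∈ Finset.range R, Ex (linksR k N R) (pLk x) (E10_f k N r) ≤
      ∏ _r ∈ Finset.range R, (39 / 40 : ℝ) := by
    apply Finset.prod_le_prod
    · intro r _
      exact Ex_nonneg hp fun ω _ => E10_nonneg k N r ω
    · intro r hr
      rw [Finset.mem_range] at hr
      have h3 := one_copy (N := N) hk hev x hx hx1 r hr
      have h4 : Ex (linksR k N R) (pLk x) (E10_f k N r) =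
          Ex (linksR k N R) (pLk x) (fun ω => 1 - ind (E10_ev k N r) ω) :=
        Ex_congr fun ω hω => E10_f_eq hω
      rw [h4, Ex_sub, Ex_const]
      unfold E10_ev
      linarith
  rw [Finset.prod_const, Finset.card_range] at h2
  linarith

end Pool.Agent.H90.SC
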