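import Pool.Agent.H90.SC.Defs

/-!
# SCUR E2b: return probabilities of the walk in one group (binomial bound)

`rf s n δ` is the probability that `δ + (sum of n independent steps e_j - e_j')` is `0`.
Let `φ : Fin s → Bool` split `Fin s` (`s` even) into two halves, e.g. `j < s/2`,
and for `δ` let `Δ δ = ∑ j in the first half, δ j`. By induction on `n`:
`rf s n δ ≤ ρ n (Δ δ)` where `ρ 0 m = [m = 0]`,
`ρ (n+1) m = (2 ρ n m + ρ n (m+1) + ρ n (m-1))/4`, i.e. `ρ n m = choose (2n) (n + m) / 4^n` for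
`-n ≤ m ≤ n` and `0` otherwise; at `δ = 0` this is `centralBinom n / 4^n`.
-/

namespace Pool.Agent.H90.SC

/-- normalised binomial coefficient with integer lower argument -/
private noncomputable def E2b_tau (k : ℕ) (z : ℤ) : ℝ :=
  if 0 ≤ z then (Nat.choose k z.toNat : ℝ) / 2 ^ k else 0

private lemma E2b_tau_neg (k : ℕ) {z : ℤ} (hz : z < 0) : E2b_tau k z = 0 := by
  unfold E2b_tau; rw [if_neg (by omega)]

private lemma E2b_tau_nat (k n : ℕ) : E2b_tau k (n : ℤ) = (Nat.choose k n : ℝ) / 2 ^ k := by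
  unfold E2b_tau; rw [if_pos (by omega)]; simp

private lemma E2b_tau_nonneg (k : ℕ) (z : ℤ) : 0 ≤ E2b_tau k z := by
  unfold E2b_tau
  split_ifs
  · positivity
  · exact le_rfl

private lemma E2b_tau_succ (k : ℕ) (z : ℤ) :
    E2b_tau (k + 1) z = (E2b_tau k z + E2b_tau k (z - 1)) / 2 := by
  rcases lt_trichotomy z 0 with hz | hz | hz
  · rw [E2b_tau_neg _ hz, E2b_tau_neg _ hz, E2b_tau_neg _ (by omega : z - 1 < 0)]; simp
  · subst hz
    rw [E2b_tau_neg k (by omega : (0 : ℤ) - 1 < 0)]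
    have h1 := E2b_tau_nat (k + 1) 0
    have h2 := E2b_tau_nat k 0
    simp only [Nat.cast_zero, Nat.choose_zero_right, Nat.cast_one] at h1 h2
    rw [h1, h2, pow_succ]
    field_simp
    ring
  · obtain ⟨n, rfl⟩ : ∃ n : ℕ, z = ((n + 1 : ℕ) : ℤ) := ⟨z.toNat - 1, by omega⟩
    have h3 : (((n + 1 : ℕ) : ℤ) - 1) = (n : ℤ) := by push_cast; ring
    rw [h3, E2b_tau_nat, E2b_tau_nat, E2b_tau_nat, Nat.choose_succ_succ, pow_succ]
    push_cast
    field_simp
    ring

private noncomputable def E2b_rho (n : ℕ) (m : ℤ) : ℝ := E2b_tau (2 * n) (m + n)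

private lemma E2b_rho_succ (n : ℕ) (m : ℤ) :
    E2b_rho (n + 1) m = (2 * E2b_rho n m + E2b_rho n (m + 1) + E2b_rho n (m - 1)) / 4 := by
  unfold E2b_rho
  have e1 : 2 * (n + 1) = 2 * n + 1 + 1 := by ring
  rw [e1, E2b_tau_succ, E2b_tau_succ, E2b_tau_succ]
  have a1 : m + ((n + 1 : ℕ) : ℤ) = m + 1 + n := by push_cast; ring
  have a2 : m + ((n + 1 : ℕ) : ℤ) - 1 = m + n := by push_cast; ring
  have a3 : m + ((n + 1 : ℕ) : ℤ) - 1 - 1 = m - 1 + n := by push_cast; ring
  rw [a3, a2, a1]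
  ring

private lemma E2b_card_half (s : ℕ) (hev : Even s) :
    ((Finset.univ : Finset (Fin s)).filter fun j => j.1 < s / 2).card = s / 2 ∧
    ((Finset.univ : Finset (Fin s)).filter fun j => ¬ j.1 < s / 2).card = s / 2 := by
  have h1 : ((Finset.univ : Finset (Fin s)).filter fun j => j.1 < s / 2).card = s / 2 := by
    rw [Fin.card_filter_val_lt]
    omega
  have h2 := Finset.card_filter_add_card_filter_not (s := (Finset.univ : Finset (Fin s)))
    (fun j => j.1 < s / 2)
  rw [Finset.card_univ, Fintype.card_fin] at h2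
  refine ⟨h1, ?_⟩
  obtain ⟨r, hr⟩ := hev
  omega

private lemma E2b_sum (s : ℕ) (hs : 0 < s) (hev : Even s) (f : ℤ → ℝ) (m : ℤ) :
    (1 / (s : ℝ) ^ 2) * ∑ j : Fin s, ∑ j' : Fin s,
      f (m + (if j.1 < s / 2 then 1 else 0) - (if j'.1 < s / 2 then 1 else 0)) =
    (2 * f m + f (m + 1) + f (m - 1)) / 4 := by
  obtain ⟨h1, h2⟩ := E2b_card_half s hev
  have key : ∀ g : ℤ → ℝ, ∑ j : Fin s, g (if j.1 < s / 2 then 1 else 0) =
      (s / 2 : ℝ) * (g 1 + g 0) := by
    intro g
    have e1 : ∀ j : Fin s, g (if j.1 < s / 2 then 1 else 0) =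
        if j.1 < s / 2 then g 1 else g 0 := by
      intro j; split_ifs <;> rfl
    simp_rw [e1]
    rw [Finset.sum_ite, Finset.sum_const, Finset.sum_const, h1, h2]
    have : ((s / 2 : ℕ) : ℝ) = (s : ℝ) / 2 := by
      obtain ⟨r, hr⟩ := hev
      subst hr
      have : (r + r) / 2 = r := by omega
      rw [this]; push_cast; ring
    rw [nsmul_eq_mul, nsmul_eq_mul, this]
    ring
  have e2 : ∀ j : Fin s, ∑ j' : Fin s,
      f (m + (if j.1 < s / 2 then 1 else 0) - (if j'.1 < s / 2 then 1 else 0)) =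
      (s / 2 : ℝ) * (f (m + (if j.1 < s / 2 then 1 else 0) - 1) +
        f (m + (if j.1 < s / 2 then 1 else 0) - 0)) := by
    intro j
    exact key (fun z => f (m + (if j.1 < s / 2 then 1 else 0) - z))
  rw [Finset.sum_congr rfl fun j _ => e2 j, ← Finset.mul_sum]
  rw [key (fun z => f (m + z - 1) + f (m + z - 0))]
  have a1 : m + 1 - 1 = m := by ring
  have a2 : m + 1 - 0 = m + 1 := by ring
  have a3 : m + 0 - 1 = m - 1 := by ring
  have a4 : m + 0 - 0 = m := by ring
  rw [a1, a2, a3, a4]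
  have hs' : (s : ℝ) ≠ 0 := by positivity
  field_simp
  ring

private lemma E2b_main (s : ℕ) (hs : 0 < s) (hev : Even s) (n : ℕ) :
    ∀ δ : Fin s → ℤ, rf s n δ ≤
      E2b_rho n (∑ j ∈ (Finset.univ : Finset (Fin s)).filter (fun j => j.1 < s / 2), δ j) := by
  induction n with
  | zero =>
    intro δ
    unfold rf
    split_ifs with h
    · subst h
      simp only [Pi.zero_apply, Finset.sum_const_zero]
      unfold E2b_rho
      have := E2b_tau_nat (2 * 0) 0
      simp only [Nat.cast_zero] at this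
      simp only [Nat.cast_zero, add_zero]
      rw [this]
      simp
    · exact E2b_tau_nonneg _ _
  | succ n ih =>
    intro δ
    unfold rf
    rw [E2b_rho_succ, ← E2b_sum s hs hev]
    apply mul_le_mul_of_nonneg_left _ (by positivity)
    apply Finset.sum_le_sum
    intro j _
    apply Finset.sum_le_sum
    intro j' _
    refine (ih _).trans (le_of_eq ?_)
    congr 1
    have hsing : ∀ i : Fin s,
        ∑ l ∈ (Finset.univ : Finset (Fin s)).filter (fun l => l.1 < s / 2),
          (Pi.single i (1 : ℤ) : Fin s → ℤ) l = if i.1 < s / 2 then 1 else 0 := by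
      intro i
      rw [Finset.sum_filter]
      rw [Finset.sum_eq_single i]
      · simp
      · intro b _ hb
        simp [Pi.single_apply, hb]
      · simp
    have : ∀ l : Fin s, (δ + Pi.single j 1 - Pi.single j' 1 : Fin s → ℤ) l =
        δ l + (Pi.single j (1 : ℤ) : Fin s → ℤ) l - (Pi.single j' (1 : ℤ) : Fin s → ℤ) l :=
      fun l => rfl
    simp_rw [this]
    rw [Finset.sum_sub_distrib, Finset.sum_add_distrib, hsing, hsing]

theorem rf_le_binom (s : ℕ) (hs : 0 < s) (hev : Even s) (n : ℕ) :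
    rf s n 0 ≤ (Nat.centralBinom n : ℝ) / 4 ^ n := by
  refine (E2b_main s hs hev n 0).trans (le_of_eq ?_)
  simp only [Pi.zero_apply, Finset.sum_const_zero]
  unfold E2b_rho
  rw [zero_add, E2b_tau_nat, Nat.centralBinom, pow_mul]
  norm_num

end Pool.Agent.H90.SC
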