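import Pool.Agent.H90.SC.Defs

/-!
# SCUR E2a: return probabilities of the walk in one group (simple bounds)

`rf s n δ` is the probability that `δ + (sum of n independent steps e_j - e_j')` is `0`.
* `rf_le_inv`: `rf s 1 δ ≤ 1/s` (for given `j'` at most one `j` works), then
  `rf s (n+1) δ` is an average of values `rf s n _`.
-/

namespace Pool.Agent.H90.SC

theorem rf_nonneg (s n : ℕ) (δ : Fin s → ℤ) : 0 ≤ rf s n δ := by
  induction n generalizing δ with
  | zero => unfold rf; split_ifs <;> norm_num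
  | succ n ih =>
    unfold rf
    exact mul_nonneg (by positivity)
      (Finset.sum_nonneg fun j _ => Finset.sum_nonneg fun j' _ => ih _)

private lemma E2a_avg (s : ℕ) (hs : 0 < s) (n : ℕ) (c : ℝ)
    (h : ∀ δ, rf s n δ ≤ c) (δ : Fin s → ℤ) : rf s (n + 1) δ ≤ c := by
  have hs' : (0 : ℝ) < s := by exact_mod_cast hs
  have h1 : rf s (n + 1) δ ≤ (1 / (s : ℝ) ^ 2) * ∑ j : Fin s, ∑ j' : Fin s, c := by
    rw [rf]
    exact mul_le_mul_of_nonneg_left
      (Finset.sum_le_sum fun j _ => Finset.sum_le_sum fun j' _ => h _) (by positivity)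
  refine h1.trans (le_of_eq ?_)
  simp only [Finset.sum_const, Finset.card_univ, Fintype.card_fin, nsmul_eq_mul]
  field_simp

theorem rf_le_one (s : ℕ) (hs : 0 < s) (n : ℕ) (δ : Fin s → ℤ) : rf s n δ ≤ 1 := by
  induction n generalizing δ with
  | zero => unfold rf; split_ifs <;> norm_num
  | succ n ih => exact E2a_avg s hs n 1 ih δ

private lemma E2a_one (s : ℕ) (hs : 0 < s) (δ : Fin s → ℤ) : rf s 1 δ ≤ 1 / s := by
  have hs' : (0 : ℝ) < s := by exact_mod_cast hs
  have h1 : rf s 1 δ = (1 / (s : ℝ) ^ 2) * ∑ j' : Fin s, ∑ j : Fin s,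
      (if δ + Pi.single j 1 - Pi.single j' 1 = 0 then (1 : ℝ) else 0) := by
    rw [Finset.sum_comm]
    simp only [rf]
  have h2 : ∀ j' : Fin s, ∑ j : Fin s,
      (if δ + Pi.single j 1 - Pi.single j' 1 = 0 then (1 : ℝ) else 0) ≤ 1 := by
    intro j'
    rw [Finset.sum_boole]
    have : (Finset.univ.filter fun j : Fin s =>
        δ + Pi.single j 1 - Pi.single j' 1 = 0).card ≤ 1 := by
      rw [Finset.card_le_one]
      intro a ha b hb
      simp only [Finset.mem_filter, Finset.mem_univ, true_and] at ha hb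
      have hab : (Pi.single a 1 : Fin s → ℤ) = Pi.single b 1 := by
        have h3 : δ + Pi.single a 1 - Pi.single j' 1 = δ + Pi.single b 1 - Pi.single j' 1 := by
          rw [ha, hb]
        have h4 := sub_left_inj.mp h3
        exact add_left_cancel h4
      by_contra hne
      have h5 := congrFun hab a
      rw [Pi.single_eq_same, Pi.single_eq_of_ne hne] at h5
      norm_num at h5
    exact_mod_cast this
  rw [h1]
  have h3 : ∑ j' : Fin s, ∑ j : Fin s,
      (if δ + Pi.single j 1 - Pi.single j' 1 = 0 then (1 : ℝ) else 0) ≤ s := by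
    calc _ ≤ ∑ _j' : Fin s, (1 : ℝ) := Finset.sum_le_sum fun j' _ => h2 j'
      _ = s := by simp
  calc (1 / (s : ℝ) ^ 2) * _ ≤ (1 / (s : ℝ) ^ 2) * s :=
        mul_le_mul_of_nonneg_left h3 (by positivity)
    _ = 1 / s := by field_simp

theorem rf_le_inv (s : ℕ) (hs : 0 < s) (n : ℕ) (hn : 1 ≤ n) (δ : Fin s → ℤ) :
    rf s n δ ≤ 1 / s := by
  obtain ⟨m, rfl⟩ : ∃ m, n = m + 1 := ⟨n - 1, by omega⟩
  clear hn
  induction m generalizing δ with
  | zero => exact E2a_one s hs δ
  | succ m ih => exact E2a_avg s hs (m + 1) _ ih δ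

end Pool.Agent.H90.SC
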