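import Pool.Agent.H90.SC.Defs

/-!
# SCUR E3: the four groups are independent

`cnt n i l` is the number of times `i' ∈ [i, i+n)` with `i' mod 4 = l`. By induction on `n`
(the first step, at time `i`, changes only the group `cls i`):
`Rf s n i δ = ∏ l : Fin 4, rf s (cnt n i l) (fun j => δ (l, j))`.
Note `cnt (n+1) i l = cnt n (i+1) l + [cls i = l]`, and
`(δ + stp i j - stp i j') (l, ·) = δ (l, ·) + single j 1 - single j' 1` if `l = cls i` and
`= δ (l, ·)` otherwise. Also `n / 4 ≤ cnt n i l` (every block of four consecutive times contains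
each residue once).
-/

namespace Pool.Agent.H90.SC

/-- Number of times `i' ∈ [i, i + n)` with residue `l` modulo 4. -/
def cnt (n i : ℕ) (l : Fin 4) : ℕ := ((Finset.Ico i (i + n)).filter fun i' => cls i' = l).card

theorem cnt_ge (n i : ℕ) (l : Fin 4) : n / 4 ≤ cnt n i l := by
  unfold cnt
  have h : (Finset.range (n / 4)).card ≤
      ((Finset.Ico i (i + n)).filter fun i' => cls i' = l).card := by
    refine Finset.card_le_card_of_injOn (fun a => i + (l.1 + 4 - i % 4) % 4 + 4 * a) ?_ ?_
    · intro a ha
      rw [Finset.mem_coe, Finset.mem_range] at ha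
      rw [Finset.mem_coe, Finset.mem_filter, Finset.mem_Ico]
      refine ⟨⟨?_, ?_⟩, ?_⟩
      · dsimp only
        omega
      · dsimp only
        omega
      · apply Fin.ext
        change (i + (l.1 + 4 - i % 4) % 4 + 4 * a) % 4 = l.1
        have := l.2
        omega
    · intro a _ b _ hab
      dsimp only at hab
      omega
  rwa [Finset.card_range] at h

theorem E3_cnt_zero (i : ℕ) (l : Fin 4) : cnt 0 i l = 0 := by
  unfold cnt
  simp

theorem E3_cnt_succ (n i : ℕ) (l : Fin 4) :
    cnt (n + 1) i l = cnt n (i + 1) l + if cls i = l then 1 else 0 := by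
  unfold cnt
  have h : Finset.Ico i (i + (n + 1)) = insert i (Finset.Ico (i + 1) (i + 1 + n)) := by
    ext x
    simp only [Finset.mem_insert, Finset.mem_Ico]
    omega
  rw [h, Finset.filter_insert]
  split_ifs with h1
  · rw [Finset.card_insert_of_notMem]
    simp
  · rw [add_zero]

theorem Rf_eq_prod (s : ℕ) (hs : 0 < s) (n i : ℕ) (δ : Fin 4 × Fin s → ℤ) :
    Rf s n i δ = ∏ l : Fin 4, rf s (cnt n i l) (fun j => δ (l, j)) := by
  induction n generalizing i δ with
  | zero =>
    simp only [E3_cnt_zero, Rf, rf]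
    by_cases h : δ = 0
    · rw [if_pos h]
      symm
      refine Finset.prod_eq_one fun l _ => ?_
      rw [if_pos]
      funext j
      rw [h]
      rfl
    · rw [if_neg h]
      symm
      have h1 : ∃ q, δ q ≠ 0 := by
        by_contra hc
        push Not at hc
        exact h (funext hc)
      obtain ⟨⟨l, j⟩, h1⟩ := h1
      refine Finset.prod_eq_zero (Finset.mem_univ l) ?_
      rw [if_neg]
      intro h2
      exact h1 (congrFun h2 j)
  | succ n ih =>
    have h1 : Rf s (n + 1) i δ = (1 / (s : ℝ) ^ 2) * ∑ j : Fin s, ∑ j' : Fin s,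
      Rf s n (i + 1) (δ + stp i j - stp i j') := rfl
    rw [h1, ← Finset.mul_prod_erase Finset.univ _ (Finset.mem_univ (cls i))]
    have h2 : ∀ l ∈ Finset.univ.erase (cls i), cnt (n + 1) i l = cnt n (i + 1) l := by
      intro l hl
      rw [E3_cnt_succ, if_neg (fun h => (Finset.ne_of_mem_erase hl) h.symm), add_zero]
    have h3 : cnt (n + 1) i (cls i) = cnt n (i + 1) (cls i) + 1 := by
      rw [E3_cnt_succ, if_pos rfl]
    have h4 : rf s (cnt n (i + 1) (cls i) + 1) (fun j => δ (cls i, j)) =
        (1 / (s : ℝ) ^ 2) * ∑ j : Fin s, ∑ j' : Fin s,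
          rf s (cnt n (i + 1) (cls i))
            ((fun j => δ (cls i, j)) + Pi.single j 1 - Pi.single j' 1) := rfl
    rw [h3, h4, mul_assoc, Finset.sum_mul]
    congr 1
    refine Finset.sum_congr rfl fun j _ => ?_
    rw [Finset.sum_mul]
    refine Finset.sum_congr rfl fun j' _ => ?_
    rw [ih, ← Finset.mul_prod_erase Finset.univ _ (Finset.mem_univ (cls i))]
    congr 1
    · congr 1
      funext j''
      simp only [stp, Pi.add_apply, Pi.sub_apply, Pi.single_apply, Prod.mk.injEq, true_and]
    · refine Finset.prod_congr rfl fun l hl => ?_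
      rw [h2 l hl]
      congr 1
      funext j''
      have hne : l ≠ cls i := Finset.ne_of_mem_erase hl
      simp only [stp, Pi.add_apply, Pi.sub_apply, Pi.single_apply, Prod.mk.injEq, hne, false_and,
        if_false, add_zero, sub_zero]

end Pool.Agent.H90.SC
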