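import Pool.Agent.H90.SC.E1
import Pool.Agent.H90.SC.E2
import Pool.Agent.H90.SC.E3

/-!
# SCUR E4: expected number of meetings after a separation

(a) for `j ≠ j'` and `n ≤ 3`: `Rf s n (i+1) (stp i j - stp i j') = 0`, because the group `cls i`
    is not touched at the times `i+1, i+2, i+3` (by `Rf_eq_prod`: the factor `l = cls i` is
    `rf s 0 (≠ 0) = 0`; or directly by induction).
(b) for `n ≥ 4`: `(1/s^2) ∑ j ≠ j', Rf s n (i+1) (stp i j - stp i j') ≤ Rf s (n+1) i 0`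
    (definition of `Rf`, nonnegativity).
(c) `m ≥ 5`: `Rf s m i 0 = ∏ l, rf s (cnt m i l) 0 ≤ min (1/s^4) (1/(3 (m/4) + 1)^2)` by
    `rf_le_inv` and by `rf_le_binom`, `binom_bound` (`rf s c 0 ≤ 1/√(3c+1) ≤ 1/√(3 (m/4) + 1)`).
(d) `tail_sum`.
-/

namespace Pool.Agent.H90.SC

theorem E4_Rf_nonneg (s : ℕ) (hs : 0 < s) (n i : ℕ) (δ : Fin 4 × Fin s → ℤ) :
    0 ≤ Rf s n i δ := by
  rw [Rf_eq_prod s hs]
  exact Finset.prod_nonneg fun l _ => rf_nonneg _ _ _

theorem E4_cnt_zero (n i : ℕ) (hn : n ≤ 3) : cnt n (i + 1) (cls i) = 0 := by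
  unfold cnt
  rw [Finset.card_eq_zero, Finset.filter_eq_empty_iff]
  intro i' hi'
  rw [Finset.mem_Ico] at hi'
  intro h
  have h1 : i' % 4 = i % 4 := congrArg (fun x : Fin 4 => x.1) h
  omega

theorem E4_zero (s : ℕ) (hs : 0 < s) (n i : ℕ) (hn : n ≤ 3) (j j' : Fin s) (hj : j ≠ j') :
    Rf s n (i + 1) (stp i j - stp i j') = 0 := by
  rw [Rf_eq_prod s hs]
  refine Finset.prod_eq_zero (Finset.mem_univ (cls i)) ?_
  rw [E4_cnt_zero n i hn]
  have h : (fun j'' : Fin s => (stp i j - stp i j') (cls i, j'')) ≠ 0 := by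
    intro h
    have h1 := congrFun h j
    simp only [stp, Pi.sub_apply, Pi.single_eq_same, Pi.zero_apply] at h1
    rw [Pi.single_eq_of_ne (by
      intro h2
      exact hj (congrArg Prod.snd h2))] at h1
    norm_num at h1
  simp only [rf]
  rw [if_neg h]

theorem E4_Rf_le (s : ℕ) (hs : 0 < s) (hev : Even s) (m i : ℕ) (hm : 4 ≤ m) :
    Rf s m i 0 ≤ min (1 / (s : ℝ) ^ 4) (1 / (3 * ((m / 4 : ℕ) : ℝ) + 1) ^ 2) := by
  rw [Rf_eq_prod s hs]
  have hc : ∀ l : Fin 4, 1 ≤ cnt m i l := fun l => le_trans (by omega) (cnt_ge m i l)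
  refine le_min ?_ ?_
  · calc ∏ l : Fin 4, rf s (cnt m i l) (fun j => (0 : Fin 4 × Fin s → ℤ) (l, j))
        ≤ ∏ _l : Fin 4, (1 / (s : ℝ)) :=
          Finset.prod_le_prod (fun l _ => rf_nonneg _ _ _) (fun l _ => rf_le_inv s hs _ (hc l) _)
      _ = 1 / (s : ℝ) ^ 4 := by
          rw [Finset.prod_const, Finset.card_univ, Fintype.card_fin, div_pow, one_pow]
  · set K : ℝ := 3 * ((m / 4 : ℕ) : ℝ) + 1 with hK
    have hK0 : 0 < K := by positivity
    have hb : ∀ l : Fin 4, (rf s (cnt m i l) (fun j => (0 : Fin 4 × Fin s → ℤ) (l, j))) ^ 2 ≤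
        1 / K := by
      intro l
      have e : (fun j : Fin s => (0 : Fin 4 × Fin s → ℤ) (l, j)) = 0 := rfl
      rw [e]
      have h1 := rf_le_binom s hs hev (cnt m i l)
      have h0 := rf_nonneg s (cnt m i l) 0
      have h2 := binom_bound (cnt m i l)
      have h3 : ((m / 4 : ℕ) : ℝ) ≤ (cnt m i l : ℝ) := by exact_mod_cast cnt_ge m i l
      have h4 : (rf s (cnt m i l) 0) ^ 2 ≤
          ((Nat.centralBinom (cnt m i l) : ℝ) / 4 ^ (cnt m i l)) ^ 2 :=
        pow_le_pow_left₀ h0 h1 2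
      rw [le_div_iff₀ hK0]
      calc (rf s (cnt m i l) 0) ^ 2 * K
          ≤ ((Nat.centralBinom (cnt m i l) : ℝ) / 4 ^ (cnt m i l)) ^ 2 *
              (3 * (cnt m i l : ℝ) + 1) := by
            apply mul_le_mul h4 _ hK0.le (sq_nonneg _)
            rw [hK]
            linarith
        _ ≤ 1 := h2
    have hsq : (∏ l : Fin 4, rf s (cnt m i l) (fun j => (0 : Fin 4 × Fin s → ℤ) (l, j))) ^ 2 ≤
        (1 / K ^ 2) ^ 2 := by
      rw [← Finset.prod_pow]
      calc ∏ l : Fin 4, (rf s (cnt m i l) (fun j => (0 : Fin 4 × Fin s → ℤ) (l, j))) ^ 2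
          ≤ ∏ _l : Fin 4, (1 / K) :=
            Finset.prod_le_prod (fun l _ => sq_nonneg _) (fun l _ => hb l)
        _ = (1 / K ^ 2) ^ 2 := by
            rw [Finset.prod_const, Finset.card_univ, Fintype.card_fin]
            field_simp
    exact le_of_sq_le_sq hsq (by positivity)

theorem Rf_sum (s : ℕ) (hs : 100 ≤ s) (hev : Even s) (i N : ℕ) :
    (1 / (s : ℝ) ^ 2) * ∑ j : Fin s, ∑ j' : Fin s,
      (if j = j' then 0 else ∑ n ∈ Finset.range N, Rf s n (i + 1) (stp i j - stp i j')) ≤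
      9 / 2000 := by
  have hs0 : 0 < s := by omega
  set h : ℕ → ℝ := fun m => min (1 / (s : ℝ) ^ 4) (1 / (3 * ((m / 4 : ℕ) : ℝ) + 1) ^ 2) with hh
  have hswap : (1 / (s : ℝ) ^ 2) * ∑ j : Fin s, ∑ j' : Fin s,
      (if j = j' then 0 else ∑ n ∈ Finset.range N, Rf s n (i + 1) (stp i j - stp i j')) =
      ∑ n ∈ Finset.range N, (1 / (s : ℝ) ^ 2) * ∑ j : Fin s, ∑ j' : Fin s,
        (if j = j' then 0 else Rf s n (i + 1) (stp i j - stp i j')) := by
    rw [← Finset.mul_sum]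
    congr 1
    symm
    rw [Finset.sum_comm]
    refine Finset.sum_congr rfl fun j _ => ?_
    rw [Finset.sum_comm]
    refine Finset.sum_congr rfl fun j' _ => ?_
    by_cases hj : j = j'
    · simp [hj]
    · simp [hj]
  rw [hswap]
  have hterm : ∀ n ∈ Finset.range N, (1 / (s : ℝ) ^ 2) * ∑ j : Fin s, ∑ j' : Fin s,
        (if j = j' then 0 else Rf s n (i + 1) (stp i j - stp i j')) ≤
        (if 4 ≤ n then h (n + 1) else 0) := by
    intro n _
    split_ifs with hn
    · have h1 := E4_Rf_le s hs0 hev (n + 1) i (by omega)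
      refine le_trans ?_ h1
      have h2 : Rf s (n + 1) i 0 = (1 / (s : ℝ) ^ 2) * ∑ j : Fin s, ∑ j' : Fin s,
        Rf s n (i + 1) (0 + stp i j - stp i j') := rfl
      rw [h2]
      refine mul_le_mul_of_nonneg_left ?_ (by positivity)
      refine Finset.sum_le_sum fun j _ => Finset.sum_le_sum fun j' _ => ?_
      rw [zero_add]
      split_ifs with hj
      · exact E4_Rf_nonneg s hs0 _ _ _
      · exact le_rfl
    · have h0 : ∑ j : Fin s, ∑ j' : Fin s,
        (if j = j' then 0 else Rf s n (i + 1) (stp i j - stp i j')) = 0 := by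
        refine Finset.sum_eq_zero fun j _ => Finset.sum_eq_zero fun j' _ => ?_
        split_ifs with hj
        · rfl
        · exact E4_zero s hs0 n i (by omega) j j' hj
      rw [h0, mul_zero]
  refine (Finset.sum_le_sum hterm).trans ?_
  rw [← Finset.sum_filter]
  have hf : (Finset.range N).filter (fun n => 4 ≤ n) = Finset.Ico 4 N := by
    ext n
    simp only [Finset.mem_filter, Finset.mem_range, Finset.mem_Ico]
    tauto
  rw [hf, Finset.sum_Ico_add' h 4 N 1]
  exact tail_sum s hs (N + 1)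

end Pool.Agent.H90.SC
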