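import Pool.Agent.H90.SC.Defs

/-!
# SCUR E7a: positions and membership of links

Elementary: `pos γ (i+1) = nxt (pos γ i) (cls i, γ i)` for `i < N` (one more index `i' = i` in the
filter); `∑ q, pos γ i q = i` for `i ≤ N` (every `i' < i` is counted for exactly one `q`, or by
induction with `pos_succ`); all coordinates of `pos γ i` are at most `N` (number of elements of
`Fin N`). Membership: unfold `links` (`Finset.mem_union`, `Finset.mem_image`, `Lk.cube.injEq`, ..).
-/

namespace Pool.Agent.H90.SC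

theorem pos_zero {s N : ℕ} (γ : Fin N → Fin s) : pos γ 0 = 0 := by
  funext q
  unfold pos
  simp

theorem pos_succ {k N : ℕ} (γ : Fin N → Fin k) (i : Fin N) :
    pos γ (i.1 + 1) = nxt (pos γ i.1) (cls i.1, γ i) := by
  funext q
  unfold nxt
  rw [Pi.add_apply]
  unfold pos
  by_cases hq : q = (cls i.1, γ i)
  · subst hq
    rw [Pi.single_eq_same]
    have h : (Finset.univ.filter fun i' : Fin N => i'.1 < i.1 + 1 ∧ cls i'.1 = cls i.1 ∧ γ i' = γ i)
        = insert i (Finset.univ.filter fun i' : Fin N => i'.1 < i.1 ∧ cls i'.1 = cls i.1 ∧ γ i' = γ i) := by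
      ext j
      simp only [Finset.mem_filter, Finset.mem_univ, true_and, Finset.mem_insert]
      constructor
      · rintro ⟨h1, h2⟩
        rcases Nat.lt_succ_iff_lt_or_eq.1 h1 with h3 | h3
        · exact Or.inr ⟨h3, h2⟩
        · exact Or.inl (Fin.ext h3)
      · rintro (h1 | ⟨h1, h2⟩)
        · subst h1
          exact ⟨Nat.lt_succ_self _, rfl, rfl⟩
        · exact ⟨Nat.lt_succ_of_lt h1, h2⟩
    rw [h, Finset.card_insert_of_notMem]
    simp
  · rw [Pi.single_eq_of_ne hq, add_zero]
    congr 1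
    apply Finset.filter_congr
    intro j _
    constructor
    · rintro ⟨h1, h2, h3⟩
      rcases Nat.lt_succ_iff_lt_or_eq.1 h1 with h4 | h4
      · exact ⟨h4, h2, h3⟩
      · exfalso
        have hj : j = i := Fin.ext h4
        subst hj
        exact hq (Prod.ext h2.symm h3.symm)
    · rintro ⟨h1, h2⟩
      exact ⟨Nat.lt_succ_of_lt h1, h2⟩

theorem sum_pos {s N : ℕ} (γ : Fin N → Fin s) (i : ℕ) (hi : i ≤ N) : ∑ q, pos γ i q = i := by
  induction i with
  | zero => rw [pos_zero]; simp
  | succ i ih =>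
    have h := pos_succ γ ⟨i, hi⟩
    simp only at h
    rw [h]
    unfold nxt
    simp only [Pi.add_apply]
    rw [Finset.sum_add_distrib, ih (by omega)]
    congr 1
    rw [Finset.sum_eq_single (cls i, γ ⟨i, hi⟩)]
    · rw [Pi.single_eq_same]
    · intro b _ hb
      exact Pi.single_eq_of_ne hb _
    · intro hb
      exact absurd (Finset.mem_univ _) hb

theorem pos_mem {k N : ℕ} (γ : Fin N → Fin k) (i : ℕ) : pos γ i ∈ posBox k N := by
  unfold posBox
  rw [Fintype.mem_piFinset]
  intro q
  rw [Finset.mem_range]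
  unfold pos
  have h := Finset.card_filter_le (Finset.univ : Finset (Fin N))
    (fun i' : Fin N => i'.1 < i ∧ cls i'.1 = q.1 ∧ γ i' = q.2)
  rw [Finset.card_univ, Fintype.card_fin] at h
  omega

theorem mem_links_cube {k N : ℕ} {q : Bool} {y : Pos k} {A : Finset (Fin (k + 1))}
    {i : Fin (k + 1)} : Lk.cube q y A i ∈ links k N ↔ y ∈ posBox k N := by
  unfold links
  simp only [Finset.mem_union, Finset.mem_image, Finset.mem_product, Finset.mem_univ, true_and,
    Lk.cube.injEq, reduceCtorEq, and_false, exists_false, or_false]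
  constructor
  · rintro ⟨u, h1, h2, h3, h4, h5⟩
    rwa [← h3]
  · intro h
    exact ⟨((q, (A, i)), y), h, rfl, rfl, rfl, rfl⟩

theorem mem_links_rung {k N : ℕ} {y : Pos k} {j : Fin 4 × Fin k} {A : Finset (Fin (k + 1))} :
    Lk.rung y j A ∈ links k N ↔ y ∈ posBox k N ∧ A.card = k := by
  unfold links
  simp only [Finset.mem_union, Finset.mem_image, Finset.mem_product, Finset.mem_filter,
    Finset.mem_univ, true_and, Lk.rung.injEq, reduceCtorEq, and_false, exists_false, or_false,
    false_or]
  constructor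
  · rintro ⟨u, ⟨h1, h2⟩, h3, h4, h5⟩
    rw [← h3, ← h5]
    exact ⟨h2, h1⟩
  · rintro ⟨h, hA⟩
    exact ⟨((j, A), y), ⟨hA, h⟩, rfl, rfl, rfl⟩

theorem mem_links_tee {k N : ℕ} {y : Pos k} {j : Fin 4 × Fin k} :
    Lk.tee y j ∈ links k N ↔ y ∈ posBox k N := by
  unfold links
  simp only [Finset.mem_union, Finset.mem_image, Finset.mem_product, Finset.mem_filter,
    Finset.mem_univ, true_and, Lk.tee.injEq, reduceCtorEq, and_false, exists_false,
    false_or]
  constructor
  · rintro ⟨u, h1, h2, h3⟩
    rwa [← h2]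
  · intro h
    exact ⟨(j, y), h, rfl, rfl⟩

end Pool.Agent.H90.SC
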