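import Pool.Agent.H90.SC.A2
import Pool.Agent.H90.SC.A3
import Pool.Agent.H90.SC.E7a

/-!
# SCUR E7b: the probability of one good step

`GoodAt ω r q y j` depends only on the links `cube q y _ _`,
`cube q (nxt y j) _ _`, `rung y j A` with `|A| = k` of copy `r` (set `supp r q y j`); apply
`Ex_restrict` (to `supp`) and `Ex_image` with the injection `CI k → ℕ × Lk k` on `CE k`,
`inl (false, c) ↦ cube q y c`, `inl (true, c) ↦ cube q (nxt y j) c`, `inr A ↦ rung y j A`
(injective because `nxt y j ≠ y`), under which all the probabilities are `x`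
(`supp r q y j = (CE k).image _`). In `GoodP` the rung `A` is only used when `A.card = k`.
-/

namespace Pool.Agent.H90.SC

/-- The links on which `GoodAt ω r q y j` depends. -/
def supp {k : ℕ} (r : ℕ) (q : Bool) (y : Pos k) (j : Fin 4 × Fin k) : Finset (ℕ × Lk k) :=
  (Finset.univ : Finset (Finset (Fin (k + 1)) × Fin (k + 1))).image
      (fun c => (r, Lk.cube q y c.1 c.2)) ∪
  (Finset.univ : Finset (Finset (Fin (k + 1)) × Fin (k + 1))).image
      (fun c => (r, Lk.cube q (nxt y j) c.1 c.2)) ∪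
  ((Finset.univ : Finset (Finset (Fin (k + 1)))).filter fun A => A.card = k).image
      (fun A => (r, Lk.rung y j A))

private theorem E7b_ind {α β : Type*} {P : Finset α → Prop} {Q : Finset β → Prop}
    {ω : Finset α} {ω' : Finset β} (h : P ω ↔ Q ω') : ind P ω = ind Q ω' := by
  unfold ind
  by_cases hp : P ω
  · rw [if_pos hp, if_pos (h.1 hp)]
  · rw [if_neg hp, if_neg (fun hq => hp (h.2 hq))]

/-- the embedding of the indices -/
private def E7b_io {k : ℕ} (r : ℕ) (q : Bool) (y : Pos k) (j : Fin 4 × Fin k) :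
    CI k → ℕ × Lk k
  | Sum.inl (false, c) => (r, Lk.cube q y c.1 c.2)
  | Sum.inl (true, c) => (r, Lk.cube q (nxt y j) c.1 c.2)
  | Sum.inr A => (r, Lk.rung y j A)

private theorem E7b_nxt {k : ℕ} (y : Pos k) (j : Fin 4 × Fin k) : nxt y j ≠ y := by
  intro h
  have h1 := congrFun h j
  unfold nxt at h1
  rw [Pi.add_apply, Pi.single_eq_same] at h1
  omega

private theorem E7b_inj {k : ℕ} (r : ℕ) (q : Bool) (y : Pos k) (j : Fin 4 × Fin k) :
    Function.Injective (E7b_io r q y j) := by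
  have hn := E7b_nxt y j
  rintro (⟨b, A, i⟩ | A) (⟨b', A', i'⟩ | A') h
  · cases b <;> cases b' <;> simp only [E7b_io, Prod.mk.injEq, Lk.cube.injEq, true_and] at h
    · rw [h.1, h.2]
    · exact absurd h.1.symm hn
    · exact absurd h.1 hn
    · rw [h.1, h.2]
  · cases b <;> simp [E7b_io] at h
  · cases b' <;> simp [E7b_io] at h
  · simp only [E7b_io, Prod.mk.injEq, Lk.rung.injEq, true_and] at h
    rw [h]

private theorem E7b_supp {k : ℕ} (r : ℕ) (q : Bool) (y : Pos k) (j : Fin 4 × Fin k) :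
    supp r q y j = (CE k).image (E7b_io r q y j) := by
  ext e
  unfold supp CE
  simp only [Finset.mem_union, Finset.mem_image, Finset.mem_disjSum, Finset.mem_univ, true_and,
    Finset.mem_filter]
  constructor
  · rintro ((⟨c, hc⟩ | ⟨c, hc⟩) | ⟨A, hA, hc⟩)
    · exact ⟨Sum.inl (false, c), Or.inl ⟨_, rfl⟩, hc⟩
    · exact ⟨Sum.inl (true, c), Or.inl ⟨_, rfl⟩, hc⟩
    · exact ⟨Sum.inr A, Or.inr ⟨A, hA, rfl⟩, hc⟩
  · rintro ⟨u, (⟨⟨b, c⟩, rfl⟩ | ⟨A, hA, rfl⟩), hu⟩
    · cases b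
      · exact Or.inl (Or.inl ⟨c, hu⟩)
      · exact Or.inl (Or.inr ⟨c, hu⟩)
    · exact Or.inr ⟨A, hA, hu⟩

theorem dep_goodAt {k : ℕ} (r : ℕ) (q : Bool) (y : Pos k) (j : Fin 4 × Fin k) :
    Dep (supp r q y j) (ind fun ω => GoodAt ω r q y j) := by
  intro ω ω' h
  have hm : ∀ e ∈ supp r q y j, (e ∈ ω ↔ e ∈ ω') := by
    intro e he
    have h1 : e ∈ ω ∩ supp r q y j ↔ e ∈ ω' ∩ supp r q y j := by rw [h]
    simp only [Finset.mem_inter, he, and_true] at h1
    exact h1
  have hc : ∀ u ∈ CE k, (E7b_io r q y j u ∈ ω ↔ E7b_io r q y j u ∈ ω') := by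
    intro u hu
    apply hm
    rw [E7b_supp]
    exact Finset.mem_image_of_mem _ hu
  have h0 : (fun c : CubeE k => (r, Lk.cube q y c.1 c.2) ∈ ω) =
      fun c : CubeE k => (r, Lk.cube q y c.1 c.2) ∈ ω' := by
    funext c
    exact propext (hc (Sum.inl (false, c)) (by simp [CE]))
  have h1 : (fun c : CubeE k => (r, Lk.cube q (nxt y j) c.1 c.2) ∈ ω) =
      fun c : CubeE k => (r, Lk.cube q (nxt y j) c.1 c.2) ∈ ω' := by
    funext c
    exact propext (hc (Sum.inl (true, c)) (by simp [CE]))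
  apply E7b_ind
  unfold GoodAt GoodP
  rw [h0, h1]
  constructor
  · rintro ⟨A, hA, a1, a2, a3⟩
    exact ⟨A, hA, a1, a2, (hc (Sum.inr A) (by simp [CE, hA])).1 a3⟩
  · rintro ⟨A, hA, a1, a2, a3⟩
    exact ⟨A, hA, a1, a2, (hc (Sum.inr A) (by simp [CE, hA])).2 a3⟩

theorem goodAt_prob {k : ℕ} (x : ℝ) (r : ℕ) (q : Bool) (y : Pos k) (j : Fin 4 × Fin k)
    (E : Finset (ℕ × Lk k)) (hE : supp r q y j ⊆ E) :
    Ex E (pLk x) (ind fun ω => GoodAt ω r q y j) = gval k x := by
  have hi := E7b_inj r q y j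
  rw [Ex_restrict hE _ (dep_goodAt r q y j), E7b_supp, Ex_image _ _ hi.injOn]
  unfold gval
  have h1 : Ex (CE k) (fun e => pLk x (E7b_io r q y j e))
      (fun ω => ind (fun ω => GoodAt ω r q y j) (ω.image (E7b_io r q y j))) =
      Ex (CE k) (fun _ => x)
      (fun ω => ind (fun ω => GoodAt ω r q y j) (ω.image (E7b_io r q y j))) := by
    refine Ex_congr_p ?_
    rintro (⟨b, c⟩ | A) _
    · cases b <;> rfl
    · rfl
  rw [h1]
  refine Ex_congr ?_
  intro ω _
  apply E7b_ind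
  have hm : ∀ u : CI k, E7b_io r q y j u ∈ ω.image (E7b_io r q y j) ↔ u ∈ ω :=
    fun u => hi.mem_finset_image
  have h2 : (fun c : CubeE k => (r, Lk.cube q y c.1 c.2) ∈ ω.image (E7b_io r q y j)) =
      fun c : CubeE k => (Sum.inl (false, c) : CI k) ∈ ω := by
    funext c
    exact propext (hm (Sum.inl (false, c)))
  have h3 : (fun c : CubeE k => (r, Lk.cube q (nxt y j) c.1 c.2) ∈ ω.image (E7b_io r q y j)) =
      fun c : CubeE k => (Sum.inl (true, c) : CI k) ∈ ω := by
    funext c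
    exact propext (hm (Sum.inl (true, c)))
  have h4 : (fun A : Finset (Fin (k + 1)) => (r, Lk.rung y j A) ∈ ω.image (E7b_io r q y j)) =
      fun A => (Sum.inr A : CI k) ∈ ω := by
    funext A
    exact propext (hm (Sum.inr A))
  unfold GoodAt
  rw [h2, h3, h4]

end Pool.Agent.H90.SC
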