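import Pool.Agent.H90.SC.E7

/-!
# SCUR E8a: supports of the steps, probability of an open path

Let `O i ω` be the event of step `i` in `OpenP ω r γ`: it depends on
`S i = {(r, tee (pos γ i) (cls i, γ i))} ∪ supp r (par i) (pos γ i) (cls i, γ i)`
(module E7). For `i < i'` the sets `S i`, `S i'` (also those of two different paths `γ`, `γ'`) are
disjoint: `tee` and `rung` links sit at positions of level `∑ pos = i`, cube links have Boolean
`par i` and level `i` or `i + 1` (`pos γ (i+1) = nxt ..`): if `i' = i+1` the Booleans differ, if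
`i' ≥ i + 2` the levels differ. So by `Ex_prod_indep`
`P(OpenP γ) = ∏ i P(O i) = (x/2 * gval)^N` (`tee` is independent of `supp`: `Ex_mul_indep`,
`Ex_mem`, `goodAt_prob`) and `P(OpenP γ ∧ OpenP γ') = ∏ i P(O i ∧ O' i)`, where
* if `pos γ i = pos γ' i` and `γ i = γ' i`: `P(O i ∧ O' i) = P(O i) = (x/2) g`;
* otherwise the two `tee` links are different and independent of everything else, so
  `P(O i ∧ O' i) = (x/2)^2 P(Good ∧ Good') ≤ (x/2)^2 g`;
* if moreover `pos γ i ≠ pos γ' i` and `pos γ (i+1) ≠ pos γ' (i+1)`, the two supports are disjoint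
  and `P(O i ∧ O' i) = ((x/2) g)^2`.
In all cases `P(O i ∧ O' i) ≤ ((x/2) g)^2 * wstep g (x/2) γ γ' i`.
-/

namespace Pool.Agent.H90.SC

/-- The links on which step `i` depends. -/
def suppS {k N : ℕ} (r : ℕ) (γ : Fin N → Fin k) (i : Fin N) : Finset (ℕ × Lk k) :=
  insert (r, Lk.tee (pos γ i.1) (cls i.1, γ i)) (supp r (par i.1) (pos γ i.1) (cls i.1, γ i))

private theorem E8a_mem {k N : ℕ} (r : ℕ) (γ : Fin N → Fin k) (i : Fin N) (e : ℕ × Lk k)
    (h : e ∈ suppS r γ i) :
    (∀ y j, e.2 = Lk.tee y j → ∑ q, y q = i.1) ∧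
    (∀ y j A, e.2 = Lk.rung y j A → ∑ q, y q = i.1) ∧
    (∀ b y A c, e.2 = Lk.cube b y A c → b = par i.1 ∧ (∑ q, y q = i.1 ∨ ∑ q, y q = i.1 + 1)) := by
  have h0 : ∑ q, pos γ i.1 q = i.1 := sum_pos γ i.1 i.2.le
  have h1 : ∑ q, nxt (pos γ i.1) (cls i.1, γ i) q = i.1 + 1 := by
    rw [← pos_succ]
    exact sum_pos γ (i.1 + 1) i.2
  rw [suppS, Finset.mem_insert] at h
  rcases h with h | h
  · subst h
    refine ⟨fun y j hh => ?_, fun y j A hh => by simp at hh, fun b y A c hh => by simp at hh⟩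
    simp only [Lk.tee.injEq] at hh
    rw [← hh.1]
    exact h0
  · simp only [supp, Finset.mem_union, Finset.mem_image, Finset.mem_univ, true_and,
      Finset.mem_filter] at h
    rcases h with (⟨c, hc⟩ | ⟨c, hc⟩) | ⟨A, _, hA⟩
    · subst hc
      refine ⟨fun y j hh => by simp at hh, fun y j A hh => by simp at hh, fun b y A c' hh => ?_⟩
      simp only [Lk.cube.injEq] at hh
      refine ⟨hh.1.symm, Or.inl ?_⟩
      rw [← hh.2.1]
      exact h0
    · subst hc
      refine ⟨fun y j hh => by simp at hh, fun y j A hh => by simp at hh, fun b y A c' hh => ?_⟩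
      simp only [Lk.cube.injEq] at hh
      refine ⟨hh.1.symm, Or.inr ?_⟩
      rw [← hh.2.1]
      exact h1
    · subst hA
      refine ⟨fun y j hh => by simp at hh, fun y j A hh => ?_, fun b y A c' hh => by simp at hh⟩
      simp only [Lk.rung.injEq] at hh
      rw [← hh.1]
      exact h0

theorem suppS_subset {k N R : ℕ} (r : ℕ) (hr : r < R) (γ : Fin N → Fin k) (i : Fin N) :
    suppS r γ i ⊆ linksR k N R := by
  intro e h
  have hp : pos γ i.1 ∈ posBox k N := pos_mem γ i.1
  have hp' : nxt (pos γ i.1) (cls i.1, γ i) ∈ posBox k N := by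
    rw [← pos_succ]
    exact pos_mem γ (i.1 + 1)
  rw [suppS, Finset.mem_insert] at h
  rw [linksR]
  rcases h with h | h
  · subst h
    exact Finset.mem_product.2 ⟨Finset.mem_range.2 hr, mem_links_tee.2 hp⟩
  · simp only [supp, Finset.mem_union, Finset.mem_image, Finset.mem_univ, true_and,
      Finset.mem_filter] at h
    rcases h with (⟨c, hc⟩ | ⟨c, hc⟩) | ⟨A, hk, hA⟩
    · subst hc
      exact Finset.mem_product.2 ⟨Finset.mem_range.2 hr, mem_links_cube.2 hp⟩
    · subst hc
      exact Finset.mem_product.2 ⟨Finset.mem_range.2 hr, mem_links_cube.2 hp'⟩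
    · subst hA
      exact Finset.mem_product.2 ⟨Finset.mem_range.2 hr, mem_links_rung.2 ⟨hp, hk⟩⟩

theorem suppS_disjoint {k N : ℕ} (r : ℕ) (γ γ' : Fin N → Fin k) (i i' : Fin N) (hne : i ≠ i') :
    Disjoint (suppS r γ i) (suppS r γ' i') := by
  rw [Finset.disjoint_left]
  intro e he he'
  obtain ⟨h1, h2, h3⟩ := E8a_mem r γ i e he
  obtain ⟨h1', h2', h3'⟩ := E8a_mem r γ' i' e he'
  have hne' : i.1 ≠ i'.1 := fun h => hne (Fin.ext h)
  rcases e with ⟨ρ, l⟩
  cases l with
  | tee y j =>
    have a := h1 y j rfl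
    have b := h1' y j rfl
    exact hne' (a.symm.trans b)
  | rung y j A =>
    have a := h2 y j A rfl
    have b := h2' y j A rfl
    exact hne' (a.symm.trans b)
  | cube b y A c =>
    obtain ⟨p, s⟩ := h3 b y A c rfl
    obtain ⟨p', s'⟩ := h3' b y A c rfl
    have hpar : par i.1 = par i'.1 := p.symm.trans p'
    simp only [par, decide_eq_decide] at hpar
    omega

private theorem E8a_tee_not_mem {k : ℕ} (r : ℕ) (q : Bool) (y : Pos k) (j : Fin 4 × Fin k)
    (y' : Pos k) (j' : Fin 4 × Fin k) : (r, Lk.tee y' j') ∉ supp r q y j := by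
  simp [supp]

private theorem E8a_dep_mem {ε : Type*} [DecidableEq ε] (e : ε) :
    Dep {e} (ind fun ω : Finset ε => e ∈ ω) := by
  intro ω ω' h
  have : e ∈ ω ↔ e ∈ ω' := by
    constructor
    · intro he
      have : e ∈ ω ∩ {e} := Finset.mem_inter.2 ⟨he, Finset.mem_singleton_self e⟩
      rw [h] at this
      exact (Finset.mem_inter.1 this).1
    · intro he
      have : e ∈ ω' ∩ {e} := Finset.mem_inter.2 ⟨he, Finset.mem_singleton_self e⟩
      rw [← h] at this
      exact (Finset.mem_inter.1 this).1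
  by_cases he : e ∈ ω'
  · simp [ind, this, he]
  · simp [ind, this, he]

theorem openP_prob {k N R : ℕ} (x : ℝ) (r : ℕ) (hr : r < R) (γ : Fin N → Fin k) :
    Ex (linksR k N R) (pLk x) (ind fun ω => OpenP ω r γ) = (x / 2 * gval k x) ^ N := by
  have hfun : (ind fun ω : Finset (ℕ × Lk k) => OpenP ω r γ) = fun ω => ∏ i ∈ Finset.univ,
      ((ind fun ω : Finset (ℕ × Lk k) => (r, Lk.tee (pos γ i.1) (cls i.1, γ i)) ∈ ω) ω *
        (ind fun ω : Finset (ℕ × Lk k) =>
          GoodAt ω r (par i.1) (pos γ i.1) (cls i.1, γ i)) ω) := by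
    funext ω
    by_cases h : OpenP ω r γ
    · have h1 : ind (fun ω : Finset (ℕ × Lk k) => OpenP ω r γ) ω = 1 := by simp [ind, h]
      rw [h1, Finset.prod_eq_one]
      intro i _
      have := h i
      simp [ind, this.1, this.2]
    · have h1 : ind (fun ω : Finset (ℕ × Lk k) => OpenP ω r γ) ω = 0 := by simp [ind, h]
      rw [h1]
      have h' : ∃ i : Fin N, ¬ ((r, Lk.tee (pos γ i.1) (cls i.1, γ i)) ∈ ω ∧
          GoodAt ω r (par i.1) (pos γ i.1) (cls i.1, γ i)) := by
        by_contra hc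
        push Not at hc
        exact h fun i => hc i
      obtain ⟨i, hi⟩ := h'
      symm
      apply Finset.prod_eq_zero (Finset.mem_univ i)
      by_cases ha : (r, Lk.tee (pos γ i.1) (cls i.1, γ i)) ∈ ω
      · have hb : ¬ GoodAt ω r (par i.1) (pos γ i.1) (cls i.1, γ i) := fun hb => hi ⟨ha, hb⟩
        simp [ind, hb]
      · simp [ind, ha]
  rw [hfun, Ex_prod_indep Finset.univ (fun i => suppS r γ i)
    (fun i ω => (ind fun ω : Finset (ℕ × Lk k) =>
      (r, Lk.tee (pos γ i.1) (cls i.1, γ i)) ∈ ω) ω *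
        (ind fun ω : Finset (ℕ × Lk k) =>
          GoodAt ω r (par i.1) (pos γ i.1) (cls i.1, γ i)) ω)]
  · have key : ∀ i : Fin N, Ex (linksR k N R) (pLk x)
        (fun ω => (ind fun ω : Finset (ℕ × Lk k) =>
          (r, Lk.tee (pos γ i.1) (cls i.1, γ i)) ∈ ω) ω *
        (ind fun ω : Finset (ℕ × Lk k) =>
          GoodAt ω r (par i.1) (pos γ i.1) (cls i.1, γ i)) ω) = x / 2 * gval k x := by
      intro i
      have hsub := suppS_subset (R := R) r hr γ i
      rw [Ex_mul_indep (A := {(r, Lk.tee (pos γ i.1) (cls i.1, γ i))})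
        (B := supp r (par i.1) (pos γ i.1) (cls i.1, γ i)) _ _ _ (E8a_dep_mem _)
        (dep_goodAt r (par i.1) (pos γ i.1) (cls i.1, γ i))]
      · rw [Ex_mem (pLk x) (hsub (Finset.mem_insert_self _ _)),
          goodAt_prob x r (par i.1) (pos γ i.1) (cls i.1, γ i) _
            (fun e he => hsub (Finset.mem_insert_of_mem he))]
        rfl
      · rw [Finset.disjoint_singleton_left]
        exact E8a_tee_not_mem r _ _ _ _ _
    rw [Finset.prod_congr rfl (fun i _ => key i), Finset.prod_const, Finset.card_univ,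
      Fintype.card_fin]
  · intro i _ j _ hij
    exact suppS_disjoint r γ γ i j hij
  · intro i _
    have := Dep.mul (E8a_dep_mem (r, Lk.tee (pos γ i.1) (cls i.1, γ i)))
      (dep_goodAt r (par i.1) (pos γ i.1) (cls i.1, γ i))
    exact Dep.mono (by intro e he; simpa [suppS] using he) this

end Pool.Agent.H90.SC
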