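import Pool.Agent.H90.SC.E7

/-!
# SCUR F1: the embedding of the links is injective

Coordinates: `co1 h q i` (the `2 (k+1)` first coordinates of `Fin d`) and `co2 h j` (the next `4 k`)
are injective with disjoint ranges. The vertex `vtx h r q A y` has value `y j` at `co2 h j`, value
`[i ∈ A]` at `co1 h q i`, `0` at `co1 h (!q) i` and the other coordinates, except that `2 r` is
added at `co1 h false 0`; so `(r, y)` is determined by the vertex, and `A` if `q` is known.
The direction of the edge separates cube links (and gives `q`, `i`) from the other ones (and gives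
`j`). A rung has `A.card = k ≥ 1`, a `tee` has `A = ∅`, so their vertices differ (some coordinate
`co1` is odd resp. all are even).
-/

namespace Pool.Agent.H90.SC

theorem F1_co1_inj {d k : ℕ} (h : 6 * k + 2 ≤ d) {q q' : Bool} {i i' : Fin (k + 1)}
    (e : co1 h q i = co1 h q' i') : q = q' ∧ i = i' := by
  have e' := congrArg Fin.val e
  simp only [co1] at e'
  have hi := i.2
  have hi' := i'.2
  cases q <;> cases q' <;> simp at e' ⊢
  · exact Fin.ext e'
  · omega
  · omega
  · exact Fin.ext e'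

theorem F1_co2_inj {d k : ℕ} (h : 6 * k + 2 ≤ d) {j j' : Fin 4 × Fin k}
    (e : co2 h j = co2 h j') : j = j' := by
  have e' := congrArg Fin.val e
  simp only [co2] at e'
  obtain ⟨⟨a, ha⟩, ⟨b, hb⟩⟩ := j
  obtain ⟨⟨a', ha'⟩, ⟨b', hb'⟩⟩ := j'
  simp only at e'
  have hk : 0 < k := by omega
  have h1 : a * k + b = a' * k + b' := by omega
  have h2 : a = a' := by
    have h3 : (a * k + b) / k = a := by
      rw [Nat.add_comm, Nat.add_mul_div_right _ _ hk, Nat.div_eq_of_lt hb, zero_add]
    have h4 : (a' * k + b') / k = a' := by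
      rw [Nat.add_comm, Nat.add_mul_div_right _ _ hk, Nat.div_eq_of_lt hb', zero_add]
    rw [← h3, h1, h4]
  subst h2
  have h5 : b = b' := by omega
  subst h5
  rfl

theorem F1_co1_ne_co2 {d k : ℕ} (h : 6 * k + 2 ≤ d) (q : Bool) (i : Fin (k + 1))
    (j : Fin 4 × Fin k) : co1 h q i ≠ co2 h j := by
  intro e
  have e' := congrArg Fin.val e
  simp only [co1, co2] at e'
  have hi := i.2
  have : (if q then k + 1 else 0) ≤ k + 1 := by split_ifs <;> omega
  have h0 : 0 ≤ j.1.1 * k := Nat.zero_le _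
  omega

theorem F1_vtx_co2 {d k : ℕ} (h : 6 * k + 2 ≤ d) (r : ℕ) (q : Bool)
    (A : Finset (Fin (k + 1))) (y : Pos k) (j : Fin 4 × Fin k) :
    vtx h r q A y (co2 h j) = y j := by
  simp only [vtx, Pi.add_apply, Finset.sum_apply, Pi.single_apply]
  have h1 : ∀ q i, ¬ (co2 h j = co1 h q i) := fun q i e => F1_co1_ne_co2 h q i j e.symm
  have h2 : ∀ x, (co2 h j = co2 h x) ↔ (j = x) := fun x => ⟨F1_co2_inj h, fun e => by rw [e]⟩
  simp [h1, h2]

theorem F1_vtx_co1 {d k : ℕ} (h : 6 * k + 2 ≤ d) (r : ℕ) (q : Bool)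
    (A : Finset (Fin (k + 1))) (y : Pos k) (q' : Bool) (i : Fin (k + 1)) :
    vtx h r q A y (co1 h q' i) =
      (if q' = false ∧ i = 0 then 2 * (r : ℤ) else 0) + (if q' = q ∧ i ∈ A then 1 else 0) := by
  simp only [vtx, Pi.add_apply, Finset.sum_apply, Pi.single_apply]
  have h1 : ∀ j, ¬ (co1 h q' i = co2 h j) := fun j e => F1_co1_ne_co2 h q' i j e
  have h2 : ∀ q'' x, (co1 h q' i = co1 h q'' x) ↔ (q' = q'' ∧ i = x) :=
    fun q'' x => ⟨F1_co1_inj h, fun e => by rw [e.1, e.2]⟩
  simp only [h1, h2, if_false, Finset.sum_const_zero, add_zero]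
  congr 1
  by_cases hq : q' = q
  · simp [hq]
  · simp [hq]

theorem F1_vtx_other {d k : ℕ} (h : 6 * k + 2 ≤ d) (r : ℕ) (q : Bool)
    (A : Finset (Fin (k + 1))) (y : Pos k) (c : Fin d) (h1 : ∀ q' i, c ≠ co1 h q' i)
    (h2 : ∀ j, c ≠ co2 h j) :
    vtx h r q A y c = 0 := by
  simp only [vtx, Pi.add_apply, Finset.sum_apply, Pi.single_apply]
  simp [h1, h2]

theorem F1_vtx_inj {d k : ℕ} (h : 6 * k + 2 ≤ d) {r r' : ℕ} {q : Bool}
    {A A' : Finset (Fin (k + 1))} {y y' : Pos k}
    (e : vtx h r q A y = vtx h r' q A' y') : r = r' ∧ A = A' ∧ y = y' := by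
  have hy : y = y' := by
    funext j
    have := congrFun e (co2 h j)
    rw [F1_vtx_co2, F1_vtx_co2] at this
    exact_mod_cast this
  have hr : r = r' := by
    have := congrFun e (co1 h false 0)
    rw [F1_vtx_co1, F1_vtx_co1] at this
    simp only [and_self, if_true] at this
    split_ifs at this <;> omega
  have hA : A = A' := by
    ext i
    have := congrFun e (co1 h q i)
    rw [F1_vtx_co1, F1_vtx_co1, hr] at this
    simp only [true_and, add_right_inj] at this
    by_cases h1 : i ∈ A <;> by_cases h2 : i ∈ A' <;> simp [h1, h2] at this ⊢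
  exact ⟨hr, hA, hy⟩

theorem F1_vtx_y {d k : ℕ} (h : 6 * k + 2 ≤ d) {r r' : ℕ} {q q' : Bool}
    {A A' : Finset (Fin (k + 1))} {y y' : Pos k}
    (e : vtx h r q A y = vtx h r' q' A' y') : y = y' := by
  funext j
  have := congrFun e (co2 h j)
  rw [F1_vtx_co2, F1_vtx_co2] at this
  exact_mod_cast this

theorem F1_vtx_empty {d k : ℕ} (h : 6 * k + 2 ≤ d) {r r' : ℕ} {q q' : Bool}
    {A : Finset (Fin (k + 1))} {y y' : Pos k}
    (e : vtx h r q A y = vtx h r' q' ∅ y') : A = ∅ := by
  rw [Finset.eq_empty_iff_forall_notMem]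
  intro i hi
  have := congrFun e (co1 h q i)
  rw [F1_vtx_co1, F1_vtx_co1] at this
  simp only [true_and, hi, if_true, Finset.notMem_empty, and_false, if_false, add_zero] at this
  split_ifs at this <;> omega

theorem F1_card {k N R : ℕ} {r : ℕ} {y : Pos k} {j : Fin 4 × Fin k} {A : Finset (Fin (k + 1))}
    (hm : (r, Lk.rung y j A) ∈ linksR k N R) : A.card = k := by
  simp only [linksR, links, Finset.mem_product, Finset.mem_union, Finset.mem_image,
    Finset.mem_filter, Finset.mem_univ, true_and] at hm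
  obtain ⟨_, (⟨u, _, hu⟩ | ⟨u, ⟨hu1, _⟩, hu2⟩) | ⟨u, _, hu⟩⟩ := hm
  · exact absurd hu (by simp)
  · rw [Lk.rung.injEq] at hu2
    rw [← hu2.2.2]
    exact hu1
  · exact absurd hu (by simp)

theorem emb_injOn {d k : ℕ} (hk : 1 ≤ k) (h : 6 * k + 2 ≤ d) (N R : ℕ) :
    Set.InjOn (emb (k := k) h) (linksR k N R : Set (ℕ × Lk k)) := by
  rintro ⟨r, l⟩ hl ⟨r', l'⟩ hl' e
  rw [Finset.mem_coe] at hl hl'
  cases l with
  | cube q y A i =>
    cases l' with
    | cube q' y' A' i' =>
      simp only [emb, Prod.mk.injEq] at e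
      obtain ⟨e1, e2⟩ := e
      obtain ⟨rfl, rfl⟩ := F1_co1_inj h e2
      obtain ⟨rfl, rfl, rfl⟩ := F1_vtx_inj h e1
      rfl
    | rung y' j' A' =>
      simp only [emb, Prod.mk.injEq] at e
      exact absurd e.2 (F1_co1_ne_co2 h _ _ _)
    | tee y' j' =>
      simp only [emb, Prod.mk.injEq] at e
      exact absurd e.2 (F1_co1_ne_co2 h _ _ _)
  | rung y j A =>
    cases l' with
    | cube q' y' A' i' =>
      simp only [emb, Prod.mk.injEq] at e
      exact absurd e.2.symm (F1_co1_ne_co2 h _ _ _)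
    | rung y' j' A' =>
      simp only [emb, Prod.mk.injEq] at e
      obtain ⟨e1, e2⟩ := e
      obtain rfl := F1_vtx_y h e1
      obtain rfl := F1_co2_inj h e2
      obtain ⟨rfl, rfl, _⟩ := F1_vtx_inj h e1
      rfl
    | tee y' j' =>
      simp only [emb, Prod.mk.injEq] at e
      have hA := F1_vtx_empty h e.1
      have hc := F1_card hl
      rw [hA, Finset.card_empty] at hc
      omega
  | tee y j =>
    cases l' with
    | cube q' y' A' i' =>
      simp only [emb, Prod.mk.injEq] at e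
      exact absurd e.2.symm (F1_co1_ne_co2 h _ _ _)
    | rung y' j' A' =>
      simp only [emb, Prod.mk.injEq] at e
      have hA := F1_vtx_empty h e.1.symm
      have hc := F1_card hl'
      rw [hA, Finset.card_empty] at hc
      omega
    | tee y' j' =>
      simp only [emb, Prod.mk.injEq] at e
      obtain ⟨e1, e2⟩ := e
      obtain rfl := F1_co2_inj h e2
      obtain ⟨rfl, _, rfl⟩ := F1_vtx_inj h e1
      rfl

end Pool.Agent.H90.SC
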