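import Pool.Agent.H90.SC.E7
import Pool.Agent.H90.SC.F1

/-!
# SCUR F2: the embedded links lie in a box

All the coordinates of both end points of `emb h l`, `l ∈ linksR k N R`, lie between `0` and
`2 R + N + 2` (coordinate `co1 h false 0`: `2 r + [0 ∈ A]`, plus `1` at the tip; other `co1`:
`≤ 2`; `co2`: `≤ N + 1`).
-/

namespace Pool.Agent.H90.SC

private theorem F2_bound {d k : ℕ} (h : 6 * k + 2 ≤ d) (r : ℕ) (q : Bool)
    (A : Finset (Fin (k + 1))) (y : Pos k) (N : ℕ) (hy : ∀ j, y j ≤ N) (c : Fin d) :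
    0 ≤ vtx h r q A y c ∧ vtx h r q A y c ≤ 2 * (r : ℤ) + 1 + N := by
  by_cases h1 : ∃ q' i, c = co1 h q' i
  · obtain ⟨q', i, rfl⟩ := h1
    rw [F1_vtx_co1]
    split_ifs <;> constructor <;> omega
  · by_cases h2 : ∃ j, c = co2 h j
    · obtain ⟨j, rfl⟩ := h2
      rw [F1_vtx_co2]
      have := hy j
      constructor <;> omega
    · rw [F1_vtx_other h r q A y c (fun q' i e => h1 ⟨q', i, e⟩) (fun j e => h2 ⟨j, e⟩)]
      constructor <;> omega

private theorem F2_mem {d k : ℕ} (h : 6 * k + 2 ≤ d) (r : ℕ) (q : Bool)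
    (A : Finset (Fin (k + 1))) (y : Pos k) (N : ℕ) (hy : ∀ j, y j ≤ N) (c : Fin d)
    (R L : ℕ) (hr : r < R) (hL : 2 * R + N + 2 ≤ L) :
    ((vtx h r q A y, c) : Edg d) ∈ boxE d L := by
  simp only [boxE, box, Finset.mem_filter, Finset.mem_product, Finset.mem_univ, and_true,
    Fintype.mem_piFinset, Finset.mem_Icc, tip]
  constructor
  · intro a
    have := F2_bound h r q A y N hy a
    constructor <;> omega
  · intro a
    have := F2_bound h r q A y N hy a
    rw [Pi.add_apply, Pi.single_apply]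
    split_ifs <;> constructor <;> omega

theorem emb_mem_boxE {d k : ℕ} (h : 6 * k + 2 ≤ d) (N R L : ℕ) (hL : 2 * R + N + 2 ≤ L)
    (l : ℕ × Lk k) (hl : l ∈ linksR k N R) : emb h l ∈ boxE d L := by
  have hpos : ∀ y : Pos k, y ∈ posBox k N → ∀ j, y j ≤ N := by
    intro y hy j
    simp only [posBox, Fintype.mem_piFinset, Finset.mem_range] at hy
    have := hy j
    omega
  obtain ⟨r, l⟩ := l
  simp only [linksR, links, Finset.mem_product, Finset.mem_union, Finset.mem_image,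
    Finset.mem_filter, Finset.mem_univ, true_and, Finset.mem_range] at hl
  obtain ⟨hr, (⟨u, hu, rfl⟩ | ⟨u, ⟨_, hu⟩, rfl⟩) | ⟨u, hu, rfl⟩⟩ := hl
  · exact F2_mem h r _ _ _ N (hpos _ hu) _ R L hr hL
  · exact F2_mem h r _ _ _ N (hpos _ hu) _ R L hr hL
  · exact F2_mem h r _ _ _ N (hpos _ hu) _ R L hr hL

end Pool.Agent.H90.SC
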