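import Pool.Agent.H90.SC.E7
import Pool.Agent.H90.SC.F1

/-!
# SCUR F3: a good step gives a connection in `ℤ^d`

`K` is any set of edges which contains the images of all the cube and rung links of `ω`.
By induction on `r'` (for `Rch`): if `Rch (fun c => (r, cube q y c.1 c.2) ∈ ω) m A` then
`vtx h r q ∅ y` and `vtx h r q A y` are connected in `K`: the image of `cube q y (A.erase a) a` is the
edge from `vtx h r q (A.erase a) y` to `vtx h r q A y` (`a ∈ A`). Then the rung
`(r, rung y j A)` with `parY y = q` goes from `vtx h r q A y` to `vtx h r q A (nxt y j)`, and one goes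
down in the slice `nxt y j`. Finally `vtx h r q ∅ y = vtx h r false ∅ y` is the first end point of
the image of `(r, tee y j)`, and `vtx h r false ∅ (nxt y j)` the second one.
-/

namespace Pool.Agent.H90.SC

private theorem F3_nxt {d k : ℕ} (h : 6 * k + 2 ≤ d) (r : ℕ) (q : Bool)
    (A : Finset (Fin (k + 1))) (y : Pos k) (j : Fin 4 × Fin k) :
    vtx h r q A y + Pi.single (co2 h j) 1 = vtx h r q A (nxt y j) := by
  have h1 : ∑ x, (Pi.single (co2 h x) ((nxt y j x : ℕ) : ℤ) : Vtx d) =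
      ∑ x, (Pi.single (co2 h x) ((y x : ℕ) : ℤ) : Vtx d) + Pi.single (co2 h j) 1 := by
    have h2 : ∀ x, (Pi.single (co2 h x) ((nxt y j x : ℕ) : ℤ) : Vtx d) =
        Pi.single (co2 h x) ((y x : ℕ) : ℤ) + (if x = j then Pi.single (co2 h x) 1 else 0) := by
      intro x
      simp only [nxt, Pi.add_apply, Pi.single_apply]
      split_ifs with hx
      · rw [← Pi.single_add]
        push_cast
        rfl
      · simp
    rw [Finset.sum_congr rfl (fun x _ => h2 x), Finset.sum_add_distrib]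
    simp
  simp only [vtx]
  rw [h1]
  simp only [add_assoc]

private theorem F3_erase {d k : ℕ} (h : 6 * k + 2 ≤ d) (r : ℕ) (q : Bool)
    (A : Finset (Fin (k + 1))) (y : Pos k) (a : Fin (k + 1)) (ha : a ∈ A) :
    vtx h r q (A.erase a) y + Pi.single (co1 h q a) 1 = vtx h r q A y := by
  simp only [vtx]
  rw [← Finset.sum_erase_add A (fun i => (Pi.single (co1 h q i) 1 : Vtx d)) ha]
  abel

private theorem F3_empty {d k : ℕ} (h : 6 * k + 2 ≤ d) (r : ℕ) (q q' : Bool) (y : Pos k) :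
    vtx h r q ∅ y = vtx h r q' ∅ y := by
  simp [vtx]

theorem tip_tee {d k : ℕ} (h : 6 * k + 2 ≤ d) (r : ℕ) (y : Pos k) (j : Fin 4 × Fin k) :
    tip (emb h (r, Lk.tee y j)) = vtx h r false ∅ (nxt y j) := by
  simp only [tip, emb]
  exact F3_nxt h r false ∅ y j

private theorem F3_symm {ε V : Type*} [DecidableEq ε] [DecidableEq V] {a b : ε → V}
    {K : Finset ε} {x y : V} (hc : Conn a b K x y) : Conn a b K y x := by
  induction hc with
  | refl => exact Relation.ReflTransGen.refl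
  | tail _ h1 ih =>
    obtain ⟨e, he, h2⟩ := h1
    exact Relation.ReflTransGen.head ⟨e, he, h2.symm.imp (fun u => ⟨u.1, u.2⟩) (fun u => ⟨u.1, u.2⟩)⟩ ih

private theorem F3_step {d : ℕ} {K : Finset (Edg d)} {e : Edg d} (he : e ∈ K) :
    Conn (fun e : Edg d => e.1) tip K e.1 (tip e) :=
  Relation.ReflTransGen.single ⟨e, he, Or.inl ⟨rfl, rfl⟩⟩

private theorem F3_rch {d k : ℕ} (h : 6 * k + 2 ≤ d) (ω : Finset (ℕ × Lk k)) (r : ℕ) (q : Bool)
    (K : Finset (Edg d)) (y : Pos k)
    (hK1 : ∀ A i, (r, Lk.cube q y A i) ∈ ω → emb h (r, Lk.cube q y A i) ∈ K) (m : ℕ) :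
    ∀ A : Finset (Fin (k + 1)), Rch (fun c => (r, Lk.cube q y c.1 c.2) ∈ ω) m A →
      Conn (fun e : Edg d => e.1) tip K (vtx h r q ∅ y) (vtx h r q A y) := by
  induction m with
  | zero =>
    intro A hA
    simp only [Rch] at hA
    rw [hA]
    exact Relation.ReflTransGen.refl
  | succ m ih =>
    intro A hA
    obtain ⟨a, ha, h1, h2⟩ := hA
    have h3 := ih _ h1
    have h4 := F3_step (hK1 _ _ h2)
    simp only [tip, emb] at h4
    rw [F3_erase h r q A y a ha] at h4
    exact Relation.ReflTransGen.trans h3 h4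

theorem goodAt_conn {d k : ℕ} (h : 6 * k + 2 ≤ d) (ω : Finset (ℕ × Lk k)) (r : ℕ) (q : Bool)
    (y : Pos k) (j : Fin 4 × Fin k) (hq : parY y = q) (hg : GoodAt ω r q y j)
    (K : Finset (Edg d)) (hK1 : ∀ y A i, (r, Lk.cube q y A i) ∈ ω → emb h (r, Lk.cube q y A i) ∈ K)
    (hK2 : ∀ A, A.card = k → (r, Lk.rung y j A) ∈ ω → emb h (r, Lk.rung y j A) ∈ K) :
    Conn (fun e : Edg d => e.1) tip K (emb h (r, Lk.tee y j)).1 (tip (emb h (r, Lk.tee y j))) := by
  rw [tip_tee]
  obtain ⟨A, hA, h1, h2, h3⟩ := hg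
  have c1 := F3_rch h ω r q K y (fun A i => hK1 y A i) k A h1
  have c2 := F3_rch h ω r q K (nxt y j) (fun A i => hK1 (nxt y j) A i) k A h2
  have c3 := F3_step (hK2 A hA h3)
  simp only [tip, emb] at c3
  rw [hq, F3_nxt] at c3
  simp only [emb]
  rw [F3_empty h r false q y, F3_empty h r false q (nxt y j)]
  exact (c1.trans c3).trans (F3_symm c2)

end Pool.Agent.H90.SC
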