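import Pool.Agent.H90.SC.C4
import Pool.Agent.H90.SC.E10
import Pool.Agent.H90.SC.F1
import Pool.Agent.H90.SC.F2
import Pool.Agent.H90.SC.F3

/-!
# SCUR F4: long odd paths under the finite volume current measure
-/

namespace Pool.Agent.H90.SC

/-- The tee links. -/
def IsTee {k : ℕ} : ℕ × Lk k → Bool
  | (_, Lk.tee _ _) => true
  | _ => false

theorem ind_congr {ε ε' : Type*} {P : Finset ε → Prop} {Q : Finset ε' → Prop} {ω : Finset ε}
    {ω' : Finset ε'} (h : P ω ↔ Q ω') : ind P ω = ind Q ω' := by
  unfold ind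
  by_cases c : P ω
  · rw [if_pos c, if_pos (h.1 c)]
  · rw [if_neg c, if_neg fun hq => c (h.2 hq)]

theorem cur_paths {d k : ℕ} (h : 6 * k + 2 ≤ d) (hk : 100 ≤ k) (hev : Even k) (β : ℝ)
    (hβ : 0 ≤ β) (hx : 16 / (k : ℝ) ≤ Real.tanh β) (N R L : ℕ) (hL : 2 * R + N + 2 ≤ L) :
    1 - (39 / 40 : ℝ) ^ R ≤
      Pcur β (boxE d L) {n | PathEv h N R (k := k) {e | Odd (n e)}} := by
  classical
  have hx0 : 0 ≤ Real.tanh β := by
    rw [Real.tanh_eq_sinh_div_cosh]
    exact div_nonneg (Real.sinh_nonneg_iff.2 hβ) (Real.cosh_pos β).le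
  have hx1 : Real.tanh β ≤ 1 := by
    rw [Real.tanh_eq_sinh_div_cosh, div_le_one (Real.cosh_pos β)]
    exact (Real.sinh_lt_cosh β).le
  have hinj := emb_injOn (k := k) (by omega) h N R
  set 𝓛 := linksR k N R with hLdef
  set M : Finset (Edg d) := (𝓛.filter fun l => IsTee l = true).image (emb h) with hMdef
  have hbox : 𝓛.image (emb h) ⊆ boxE d L := by
    intro e he
    rw [Finset.mem_image] at he
    obtain ⟨l, hl, rfl⟩ := he
    exact emb_mem_boxE h N R L hL l hl
  have hM : M ⊆ boxE d L :=
    (Finset.image_subset_image (Finset.filter_subset _ _)).trans hbox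
  -- the event for sets of edges
  set A : Set (Finset (Edg d)) := {η | PathEv h N R (k := k) (η : Set (Edg d))} with hA
  have hAm : ∀ η η', η ⊆ η' → η ∈ A → η' ∈ A := by
    intro η η' hs hη
    obtain ⟨r, hr, γ, hγ⟩ := hη
    exact ⟨r, hr, γ, fun i => by exact_mod_cast hs (by exact_mod_cast hγ i)⟩
  have htee : ∀ (r : ℕ) (_ : r < R) (γ : Fin N → Fin k) (i : Fin N),
      (r, Lk.tee (pos γ i.1) (cls i.1, γ i)) ∈ 𝓛 := by
    intro r hr γ i
    simp only [hLdef, linksR, Finset.mem_product, Finset.mem_range]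
    exact ⟨hr, mem_links_tee.2 (pos_mem γ i.1)⟩
  have hev1 : {n : Edg d → ℕ | PathEv h N R (k := k) {e | Odd (n e)}} =
      {n | ((boxE d L).filter fun e => Odd (n e)) ∈ A} := by
    ext n
    simp only [Set.mem_ofPred_eq, hA, PathEv]
    constructor
    · rintro ⟨r, hr, γ, hγ⟩
      refine ⟨r, hr, γ, fun i => ?_⟩
      have := hγ i
      simp only [Finset.coe_filter, Set.mem_ofPred_eq]
      exact ⟨hbox (Finset.mem_image_of_mem _ (htee r hr γ i)), this⟩
    · rintro ⟨r, hr, γ, hγ⟩
      refine ⟨r, hr, γ, fun i => ?_⟩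
      have := hγ i
      simp only [Finset.coe_filter, Set.mem_ofPred_eq] at this
      exact this.2
  rw [hev1]
  refine le_trans ?_ (Pcur_ge β hβ (boxE d L) M hM A hAm)
  -- pull back to the links
  let back : Finset (Edg d) → Finset (ℕ × Lk k) := fun ω => 𝓛.filter fun l => emb h l ∈ ω
  let F : Finset (Edg d) → ℝ :=
    ind fun ω => ∃ r < R, ∃ γ : Fin N → Fin k, OpenP (back ω) r γ
  have hdep : Dep (𝓛.image (emb h)) F := by
    intro ω ω' hω
    have : back ω = back ω' := by
      ext l
      simp only [back, Finset.mem_filter]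
      constructor
      · rintro ⟨h1, h2⟩
        refine ⟨h1, ?_⟩
        have : emb h l ∈ ω ∩ 𝓛.image (emb h) :=
          Finset.mem_inter.2 ⟨h2, Finset.mem_image_of_mem _ h1⟩
        rw [hω] at this
        exact (Finset.mem_inter.1 this).1
      · rintro ⟨h1, h2⟩
        refine ⟨h1, ?_⟩
        have : emb h l ∈ ω' ∩ 𝓛.image (emb h) :=
          Finset.mem_inter.2 ⟨h2, Finset.mem_image_of_mem _ h1⟩
        rw [← hω] at this
        exact (Finset.mem_inter.1 this).1
    simp only [F]
    exact ind_congr (by rw [this])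
  have hmemM : ∀ l ∈ 𝓛, (emb h l ∈ M ↔ IsTee l = true) := by
    intro l hl
    simp only [hMdef, Finset.mem_image, Finset.mem_filter]
    constructor
    · rintro ⟨l', ⟨h1, h2⟩, h3⟩
      have := hinj (by exact_mod_cast h1) (by exact_mod_cast hl) h3
      rw [← this]; exact h2
    · intro h2
      exact ⟨l, ⟨hl, h2⟩, rfl⟩
  have hback : ∀ ω : Finset (ℕ × Lk k), ω ⊆ 𝓛 → back (ω.image (emb h)) = ω := by
    intro ω hω
    ext l
    simp only [back, Finset.mem_filter, Finset.mem_image]
    constructor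
    · rintro ⟨h1, l', h2, h3⟩
      have := hinj (by exact_mod_cast hω h2) (by exact_mod_cast h1) h3
      rw [← this]; exact h2
    · intro h1
      exact ⟨hω h1, l, h1, rfl⟩
  have step1 : 1 - (39 / 40 : ℝ) ^ R ≤
      Ex (boxE d L) (fun e => if e ∈ M then Real.tanh β / 2 else Real.tanh β) F := by
    rw [Ex_restrict hbox _ hdep, Ex_image 𝓛 (emb h) hinj]
    have e1 : Ex 𝓛 (fun e => if emb h e ∈ M then Real.tanh β / 2 else Real.tanh β)
          (fun ω => F (ω.image (emb h))) =
        Ex 𝓛 (pLk (Real.tanh β)) (ind fun ω => ∃ r < R, ∃ γ : Fin N → Fin k, OpenP ω r γ) := by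
      have e2 : Ex 𝓛 (fun e => if emb h e ∈ M then Real.tanh β / 2 else Real.tanh β)
          (fun ω => F (ω.image (emb h))) = Ex 𝓛 (pLk (Real.tanh β))
          (fun ω => F (ω.image (emb h))) := by
        refine Ex_congr_p fun l hl => ?_
        have := hmemM l hl
        rcases l with ⟨r, l⟩
        cases l with
        | cube q y A i =>
          rw [if_neg (by rw [this]; simp [IsTee])]; rfl
        | rung y j A =>
          rw [if_neg (by rw [this]; simp [IsTee])]; rfl
        | tee y j =>
          rw [if_pos (by rw [this]; simp [IsTee])]; rfl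
      rw [e2]
      refine Ex_congr fun ω hω => ?_
      simp only [F]
      exact ind_congr (by rw [hback ω hω])
    rw [e1]
    exact copies hk hev (Real.tanh β) hx hx1
  refine step1.trans (Ex_mono (fun e _ => ?_) fun ω _ => ?_)
  · split_ifs <;> constructor <;> linarith
  · simp only [F, ind]
    by_cases c : ∃ r < R, ∃ γ : Fin N → Fin k, OpenP (back ω) r γ
    · rw [if_pos c]
      have : chords (fun e : Edg d => e.1) tip M ω ∈ A := by
        obtain ⟨r, hr, γ, hγ⟩ := c
        refine ⟨r, hr, γ, fun i => ?_⟩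
        obtain ⟨h1, h2⟩ := hγ i
        have h3 : emb h (r, Lk.tee (pos γ i.1) (cls i.1, γ i)) ∈ ω := by
          simp only [back, Finset.mem_filter] at h1
          exact h1.2
        have h4 : emb h (r, Lk.tee (pos γ i.1) (cls i.1, γ i)) ∈ M :=
          (hmemM _ (htee r hr γ i)).2 rfl
        have h5 : parY (pos γ i.1) = par i.1 := by
          unfold parY
          rw [sum_pos γ i.1 i.2.le]
        simp only [chords, Finset.coe_filter, Set.mem_ofPred_eq, Finset.mem_inter]
        refine ⟨⟨h3, h4⟩, ?_⟩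
        refine goodAt_conn h (back ω) r (par i.1) (pos γ i.1) (cls i.1, γ i) h5 h2 _ ?_ ?_
        · intro y A i' hl
          simp only [back, Finset.mem_filter] at hl
          rw [Finset.mem_sdiff]
          refine ⟨hl.2, ?_⟩
          rw [hmemM _ hl.1]
          simp [IsTee]
        · intro A _ hl
          simp only [back, Finset.mem_filter] at hl
          rw [Finset.mem_sdiff]
          refine ⟨hl.2, ?_⟩
          rw [hmemM _ hl.1]
          simp [IsTee]
      rw [if_pos this]
    · rw [if_neg c]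
      split_ifs <;> norm_num

end Pool.Agent.H90.SC
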