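import Pool.Agent.H90.SC.C3

/-!
# SCUR G1: passing to the limit

`A` depends only on the coordinates in `F`. For a finite set `T` of functions `k : F → ℕ` whose
cylinders `{n | ∀ e ∈ F, n e = k e}` lie in `Aᶜ`, the sum of their `μ`-measures is the limit
of the sums of their `Pcur`-probabilities, which are at most `Pcur Aᶜ = 1 - Pcur A ≤ 1 - c`
(`Pcur_biUnion`, `Pcur_mono`, `Pcur_compl`). `Aᶜ` is the countable disjoint union of its cylinders
(countably many because `F → ℕ` is countable), so `μ Aᶜ = ∑' ≤ 1 - c` (`ENNReal.tsum_le_of_sum_le`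
or the monotone limit over finite sets).
-/

namespace Pool.Agent.H90.SC

open MeasureTheory

private def G1_ext {d : ℕ} (F : Finset (Edg d)) (k : F → ℕ) : Edg d → ℕ :=
  fun e => if h : e ∈ F then k ⟨e, h⟩ else 0

private def G1_cyl {d : ℕ} (F : Finset (Edg d)) (k : F → ℕ) : Set (Edg d → ℕ) :=
  {n | ∀ e ∈ F, n e = G1_ext F k e}

private theorem G1_cyl_disj {d : ℕ} (F : Finset (Edg d)) {k k' : F → ℕ} (h : k ≠ k') :
    Disjoint (G1_cyl F k) (G1_cyl F k') := by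
  rw [Set.disjoint_left]
  intro n hn hn'
  apply h
  funext e
  have h1 := hn e.1 e.2
  have h2 := hn' e.1 e.2
  rw [h1] at h2
  simpa [G1_ext] using h2

private theorem G1_cyl_sub {d : ℕ} (F : Finset (Edg d)) (A : Set (Edg d → ℕ))
    (hA : ∀ n n' : Edg d → ℕ, (∀ e ∈ F, n e = n' e) → n ∈ A → n' ∈ A) {k : F → ℕ}
    (hk : G1_ext F k ∉ A) : G1_cyl F k ⊆ Aᶜ := fun n hn hnA => hk (hA n _ hn hnA)

private theorem G1_compl {d : ℕ} (F : Finset (Edg d)) (A : Set (Edg d → ℕ))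
    (hA : ∀ n n' : Edg d → ℕ, (∀ e ∈ F, n e = n' e) → n ∈ A → n' ∈ A) :
    Aᶜ ⊆ ⋃ k : {k : F → ℕ // G1_ext F k ∉ A}, G1_cyl F k.1 := by
  intro n hn
  have h1 : ∀ e ∈ F, G1_ext F (fun e : F => n e.1) e = n e := by
    intro e he
    simp [G1_ext, he]
  refine Set.mem_iUnion.2 ⟨⟨fun e : F => n e.1, ?_⟩, ?_⟩
  · intro h2
    exact hn (hA _ _ h1 h2)
  · intro e he
    exact (h1 e he).symm

theorem lim_compl {d : ℕ} {β : ℝ} (hβ : 0 ≤ β) {μ : Measure (Edg d → ℕ)}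
    [IsProbabilityMeasure μ] (hμ : IsLimit d β μ) (F : Finset (Edg d)) (A : Set (Edg d → ℕ))
    (hA : ∀ n n' : Edg d → ℕ, (∀ e ∈ F, n e = n' e) → n ∈ A → n' ∈ A) (c : ℝ) (L0 : ℕ)
    (hc : ∀ L, L0 ≤ L → c ≤ Pcur β (boxE d L) A) : μ Aᶜ ≤ ENNReal.ofReal (1 - c) := by
  classical
  obtain ⟨φ, hφ, hlim⟩ := hμ
  have hfin : ∀ T : Finset {k : F → ℕ // G1_ext F k ∉ A},
      ∑ k ∈ T, μ (G1_cyl F k.1) ≤ ENNReal.ofReal (1 - c) := by
    intro T
    have h1 : ∑ k ∈ T, μ (G1_cyl F k.1) = ENNReal.ofReal (∑ k ∈ T, μ.real (G1_cyl F k.1)) := by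
      rw [ENNReal.ofReal_sum_of_nonneg (fun _ _ => measureReal_nonneg)]
      refine Finset.sum_congr rfl fun k _ => ?_
      exact (ofReal_measureReal (measure_ne_top μ _)).symm
    rw [h1]
    refine ENNReal.ofReal_le_ofReal ?_
    have h2 : Filter.Tendsto (fun j => ∑ k ∈ T, Pcur β (boxE d (φ j)) (G1_cyl F k.1))
        Filter.atTop (nhds (∑ k ∈ T, μ.real (G1_cyl F k.1))) :=
      tendsto_finsetSum T fun k _ => hlim F (G1_ext F k.1)
    refine le_of_tendsto h2 ?_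
    filter_upwards [hφ.tendsto_atTop.eventually_ge_atTop L0] with j hj
    have h3 : ∑ k ∈ T, Pcur β (boxE d (φ j)) (G1_cyl F k.1) =
        Pcur β (boxE d (φ j)) (⋃ k ∈ T, G1_cyl F k.1) := by
      refine (Pcur_biUnion β hβ (boxE d (φ j)) T (fun k => G1_cyl F k.1) ?_).symm
      intro k _ k' _ hkk
      exact G1_cyl_disj F (fun h => hkk (Subtype.ext h))
    rw [h3]
    have h4 : (⋃ k ∈ T, G1_cyl F k.1) ⊆ Aᶜ :=
      Set.iUnion₂_subset fun k _ => G1_cyl_sub F A hA k.2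
    have h5 := Pcur_mono β hβ (boxE d (φ j)) h4
    rw [Pcur_compl β hβ] at h5
    have h6 := hc (φ j) hj
    linarith
  refine (measure_mono (G1_compl F A hA)).trans ((measure_iUnion_le _).trans ?_)
  exact ENNReal.summable.tsum_le_of_sum_le hfin

end Pool.Agent.H90.SC
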