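import Pool.Agent.H90.SC.E7
import Pool.Agent.H90.SC.F3

/-!
# SCUR G2: arbitrarily long paths give an infinite component

For every `N` there are `r < R` and a path `γ : Fin N → Fin k` of open edges
`emb h (r, tee (pos γ i) (cls i, γ i))` from `vtx h r false ∅ (pos γ i)` to
`vtx h r false ∅ (pos γ (i+1))` (`tip_tee`, `pos_succ`). Some `r < R` occurs for infinitely many `N`
(pigeonhole). For this `r` the component of `vtx h r false ∅ 0` contains, for infinitely many `N`,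
the `N + 1` different vertices `vtx h r false ∅ (pos γ i)`, `i ≤ N` (different because
`∑ q, pos γ i q = i`, `sum_pos`, and `vtx` at the coordinates `co2` is the position); so it is
infinite.
-/

namespace Pool.Agent.H90.SC

theorem hasInfinite_mono {d : ℕ} {O O' : Set (Edg d)} (h : O ⊆ O') (hO : HasInfinite O) :
    HasInfinite O' := by
  obtain ⟨v, hv⟩ := hO
  refine ⟨v, hv.mono fun w hw => ?_⟩
  have hle : graphOf O ≤ graphOf O' := by
    intro x y hxy
    unfold graphOf at hxy ⊢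
    rw [SimpleGraph.fromRel_adj] at hxy ⊢
    refine ⟨hxy.1, ?_⟩
    rcases hxy.2 with ⟨e, he, h1⟩ | ⟨e, he, h1⟩
    · exact Or.inl ⟨e, h he, h1⟩
    · exact Or.inr ⟨e, h he, h1⟩
  exact SimpleGraph.Reachable.mono hle hw

private theorem G2_co2_inj {d k : ℕ} (h : 6 * k + 2 ≤ d) : Function.Injective (co2 h) := by
  intro a b hab
  have h1 : 2 * (k + 1) + a.1.1 * k + a.2.1 = 2 * (k + 1) + b.1.1 * k + b.2.1 :=
    congrArg Fin.val hab
  have ha := a.2.2
  have hb := b.2.2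
  have h2 : a.1.1 * k + a.2.1 = b.1.1 * k + b.2.1 := by omega
  have h3 : a.2.1 = b.2.1 := by
    have e1 : (a.1.1 * k + a.2.1) % k = a.2.1 := by
      rw [Nat.mul_comm, Nat.mul_add_mod, Nat.mod_eq_of_lt ha]
    have e2 : (b.1.1 * k + b.2.1) % k = b.2.1 := by
      rw [Nat.mul_comm, Nat.mul_add_mod, Nat.mod_eq_of_lt hb]
    rw [← e1, ← e2, h2]
  have h4 : a.1.1 * k = b.1.1 * k := by omega
  have h5 : a.1.1 = b.1.1 := Nat.eq_of_mul_eq_mul_right (by omega) h4
  exact Prod.ext (Fin.ext h5) (Fin.ext h3)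

private theorem G2_co1_ne {d k : ℕ} (h : 6 * k + 2 ≤ d) (q : Fin 4 × Fin k) :
    co2 h q ≠ co1 h false 0 := by
  intro hab
  have h1 : 2 * (k + 1) + q.1.1 * k + q.2.1 = (if false = true then k + 1 else 0) +
      (0 : Fin (k + 1)).1 := congrArg Fin.val hab
  simp at h1

private theorem G2_vtx {d k : ℕ} (h : 6 * k + 2 ≤ d) (r : ℕ) (y : Pos k) (q : Fin 4 × Fin k) :
    vtx h r false ∅ y (co2 h q) = (y q : ℤ) := by
  unfold vtx
  rw [Pi.add_apply, Pi.add_apply, Finset.sum_empty, Pi.single_eq_of_ne (G2_co1_ne h q),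
    Finset.sum_apply, Finset.sum_eq_single q, Pi.single_eq_same]
  · simp
  · intro j _ hj
    exact Pi.single_eq_of_ne (fun hh => hj (G2_co2_inj h hh).symm) _
  · intro hq
    exact absurd (Finset.mem_univ q) hq

/-- The level of a vertex. -/
private def G2_L {d k : ℕ} (h : 6 * k + 2 ≤ d) (w : Vtx d) : ℤ :=
  ∑ q : Fin 4 × Fin k, w (co2 h q)

private theorem G2_L_pos {d k N : ℕ} (h : 6 * k + 2 ≤ d) (r : ℕ) (γ : Fin N → Fin k) (i : ℕ)
    (hi : i ≤ N) : G2_L (k := k) h (vtx h r false ∅ (pos γ i)) = i := by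
  unfold G2_L
  simp only [G2_vtx]
  exact_mod_cast sum_pos γ i hi

private theorem G2_reach {d k N : ℕ} (h : 6 * k + 2 ≤ d) (r : ℕ) (γ : Fin N → Fin k)
    (O : Set (Edg d))
    (hO : ∀ i : Fin N, emb h (r, Lk.tee (pos γ i.1) (cls i.1, γ i)) ∈ O) (i : ℕ) (hi : i ≤ N) :
    (graphOf O).Reachable (vtx h r false ∅ (0 : Pos k)) (vtx h r false ∅ (pos γ i)) := by
  induction i with
  | zero => rw [pos_zero]
  | succ i ih =>
    refine (ih (by omega)).trans (SimpleGraph.Adj.reachable ?_)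
    have h1 := pos_succ γ ⟨i, by omega⟩
    have h2 := hO ⟨i, by omega⟩
    have h3 := tip_tee h r (pos γ i) (cls i, γ ⟨i, by omega⟩)
    dsimp only at h1 h2 h3
    unfold graphOf
    rw [SimpleGraph.fromRel_adj]
    refine ⟨?_, Or.inl ⟨_, h2, ?_, ?_⟩⟩
    · intro he
      have h4 := congrArg (G2_L (k := k) h) he
      rw [G2_L_pos h r γ i (by omega), G2_L_pos h r γ (i + 1) hi] at h4
      push_cast at h4
      omega
    · rfl
    · rw [h1, h3]

theorem hasInfinite_of_paths {d k : ℕ} (h : 6 * k + 2 ≤ d) (R : ℕ) (O : Set (Edg d))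
    (hO : ∀ N, PathEv h N R (k := k) O) : HasInfinite O := by
  obtain ⟨r, hr⟩ : ∃ r, ∀ n, ∃ N, n ≤ N ∧ ∃ γ : Fin N → Fin k, ∀ i : Fin N,
      emb h (r, Lk.tee (pos γ i.1) (cls i.1, γ i)) ∈ O := by
    by_contra hcon
    push Not at hcon
    choose n hn using hcon
    obtain ⟨r, hrR, γ, hγ⟩ := hO (∑ r ∈ Finset.range R, n r)
    have hle : n r ≤ ∑ r ∈ Finset.range R, n r :=
      Finset.single_le_sum (fun _ _ => Nat.zero_le _) (Finset.mem_range.2 hrR)
    obtain ⟨i, hi⟩ := hn r _ hle γ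
    exact hi (hγ i)
  have hex : ∀ n : ℕ, ∃ w : Vtx d,
      (graphOf O).Reachable (vtx h r false ∅ (0 : Pos k)) w ∧ G2_L (k := k) h w = n := by
    intro n
    obtain ⟨N, hN, γ, hγ⟩ := hr n
    exact ⟨vtx h r false ∅ (pos γ n), G2_reach h r γ O hγ n hN, G2_L_pos h r γ n hN⟩
  choose f hf1 hf2 using hex
  refine ⟨vtx h r false ∅ (0 : Pos k), Set.infinite_of_injective_forall_mem (f := f) ?_ hf1⟩
  intro a b hab
  have h1 := hf2 a
  rw [hab, hf2 b] at h1
  exact_mod_cast h1.symm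

end Pool.Agent.H90.SC
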