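import Pool.Agent.H90.SC.F4
import Pool.Agent.H90.SC.G1
import Pool.Agent.H90.SC.G2

/-!
# SCUR G3: almost surely there is an infinite component
-/

namespace Pool.Agent.H90.SC

open MeasureTheory Filter Topology
open scoped ENNReal

/-- Extending paths: an event for `N + 1` steps implies the one for `N` steps. -/
theorem pathEv_succ {d k : ℕ} (h : 6 * k + 2 ≤ d) (N R : ℕ) (O : Set (Edg d))
    (hO : PathEv h (N + 1) R (k := k) O) : PathEv h N R (k := k) O := by
  obtain ⟨r, hr, γ, hγ⟩ := hO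
  refine ⟨r, hr, fun i => γ i.castSucc, fun i => ?_⟩
  have h1 := hγ i.castSucc
  have h2 : pos (fun i : Fin N => γ i.castSucc) i.1 = pos γ i.1 := by
    funext q
    unfold pos
    rw [← Finset.card_map Fin.castSuccEmb]
    congr 1
    ext i'
    simp only [Finset.mem_map, Finset.mem_filter, Finset.mem_univ, true_and, Fin.castSuccEmb_apply]
    constructor
    · rintro ⟨a, ⟨h3, h4, h5⟩, rfl⟩
      exact ⟨by simpa using h3, by simpa using h4, h5⟩
    · rintro ⟨h3, h4, h5⟩
      have h6 : i'.1 < N := lt_trans h3 i.2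
      refine ⟨⟨i'.1, h6⟩, ⟨h3, h4, ?_⟩, ?_⟩
      · exact h5
      · rfl
  rw [h2]
  exact h1

theorem as_infinite {d k : ℕ} (h : 6 * k + 2 ≤ d) (hk : 100 ≤ k) (hev : Even k) (β : ℝ)
    (hβ : 0 ≤ β) (hx : 16 / (k : ℝ) ≤ Real.tanh β) (μ : Measure (Edg d → ℕ))
    [IsProbabilityMeasure μ] (hμ : IsLimit d β μ) :
    ∀ᵐ n ∂μ, HasInfinite {e | Odd (n e)} := by
  classical
  -- the events
  let A : ℕ → ℕ → Set (Edg d → ℕ) := fun R N => {n | PathEv h N R (k := k) {e | Odd (n e)}}
  have hanti : ∀ R, Antitone (A R) := by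
    intro R
    refine antitone_nat_of_succ_le fun N => ?_
    intro n hn
    exact pathEv_succ h N R _ hn
  have hbound : ∀ R N, μ (A R N)ᶜ ≤ ENNReal.ofReal ((39 / 40 : ℝ) ^ R) := by
    intro R N
    have := lim_compl hβ hμ ((linksR k N R).image (emb h)) (A R N) (by
      intro n n' hnn hn
      obtain ⟨r, hr, γ, hγ⟩ := hn
      refine ⟨r, hr, γ, fun i => ?_⟩
      have h1 : emb h (r, Lk.tee (pos γ i.1) (cls i.1, γ i)) ∈ (linksR k N R).image (emb h) := by
        refine Finset.mem_image_of_mem _ ?_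
        simp only [linksR, Finset.mem_product, Finset.mem_range]
        exact ⟨hr, mem_links_tee.2 (pos_mem γ i.1)⟩
      have h2 := hγ i
      simp only [Set.mem_ofPred_eq] at h2 ⊢
      rw [← hnn _ h1]
      exact h2) (1 - (39 / 40 : ℝ) ^ R) (2 * R + N + 2)
      (fun L hL => cur_paths h hk hev β hβ hx N R L hL)
    rwa [sub_sub_cancel] at this
  have hR : ∀ R, μ {n | ¬ HasInfinite {e | Odd (n e)}} ≤ ENNReal.ofReal ((39 / 40 : ℝ) ^ R) := by
    intro R
    have hsub : {n : Edg d → ℕ | ¬ HasInfinite {e | Odd (n e)}} ⊆ ⋃ N, (A R N)ᶜ := by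
      intro n hn
      by_contra hcon
      simp only [Set.mem_iUnion, Set.mem_compl_iff, not_exists, not_not] at hcon
      exact hn (hasInfinite_of_paths h R _ hcon)
    have hmono : Monotone fun N => (A R N)ᶜ := fun a b hab =>
      Set.compl_subset_compl.2 (hanti R hab)
    calc μ {n | ¬ HasInfinite {e | Odd (n e)}} ≤ μ (⋃ N, (A R N)ᶜ) := measure_mono hsub
      _ = ⨆ N, μ (A R N)ᶜ := hmono.measure_iUnion
      _ ≤ ENNReal.ofReal ((39 / 40 : ℝ) ^ R) := iSup_le fun N => hbound R N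
  have hlim : Tendsto (fun R : ℕ => ENNReal.ofReal ((39 / 40 : ℝ) ^ R)) atTop (𝓝 0) := by
    rw [← ENNReal.ofReal_zero]
    exact (ENNReal.continuous_ofReal.tendsto 0).comp
      (tendsto_pow_atTop_nhds_zero_of_lt_one (by norm_num) (by norm_num))
  have hzero : μ {n | ¬ HasInfinite {e | Odd (n e)}} = 0 :=
    le_antisymm (ge_of_tendsto' hlim hR) zero_le
  exact hzero

end Pool.Agent.H90.SC
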