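import Pool.Agent.H90.SC.H1a

/-!
# SCUR H1b: one step inequality

If `v ∈ box` and the set of odd vertices of `H` in the box is `{v}`, then `H` contains an edge `e` at
`v`; for its other end point `u` the set `H \ {e}` has the set of odd vertices `{u}` (resp. `∅` if
`u ∉ box`) in the box. Hence `Wv v ≤ ∑ e ∋ v, x * Wv (u_e)`: choose for every `H` such an edge `e`
(or: `Wv v ≤ ∑ e ∋ v, ∑ H ∋ e, x^|H|` because every `H` contains at least one edge at `v`), and
`H ↦ H.erase e` is injective on the `H` containing `e`. The edges at `v` are `(v, i)`, with other end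
point `v + e_i`, and `(v - e_i, i)`, with other end point `v - e_i`. Divide by `W0` and use `mean_eq`.
-/

namespace Pool.Agent.H90.SC

open Classical in
private lemma H1b_edge (d N : ℕ) (x : ℝ) (hx : 0 ≤ x) (v w : Vtx d) (e : Edg d) (hvw : v ≠ w)
    (he : (e.1 = v ∧ tip e = w) ∨ (e.1 = w ∧ tip e = v)) :
    ∑ H ∈ ((touchE d N).powerset.filter (fun H => ∀ u ∈ box d N,
      (Odd (H.filter fun e => u = e.1 ∨ u = tip e).card ↔ u = v))).filter (fun H => e ∈ H),
        x ^ H.card ≤ x * Wv d N x w := by
  set A := ((touchE d N).powerset.filter (fun H => ∀ u ∈ box d N,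
      (Odd (H.filter fun e => u = e.1 ∨ u = tip e).card ↔ u = v))).filter (fun H => e ∈ H)
    with hA
  have hAe : ∀ H ∈ A, e ∈ H := fun H hH => (Finset.mem_filter.1 hH).2
  have h1 : ∑ H ∈ A, x ^ H.card = ∑ H ∈ A, x * x ^ (H.erase e).card := by
    apply Finset.sum_congr rfl
    intro H hH
    rw [← pow_succ', Finset.card_erase_add_one (hAe H hH)]
  have h2 : ∑ H ∈ A, x * x ^ (H.erase e).card =
      ∑ H' ∈ A.image (fun H => H.erase e), x * x ^ H'.card := by
    rw [Finset.sum_image]
    intro H hH H' hH' hEq
    have hH1 := hAe H hH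
    have hH2 := hAe H' hH'
    have : insert e (H.erase e) = insert e (H'.erase e) := by
      have h : H.erase e = H'.erase e := hEq
      rw [h]
    rwa [Finset.insert_erase hH1, Finset.insert_erase hH2] at this
  rw [h1, h2]
  unfold Wv
  rw [Finset.mul_sum]
  apply Finset.sum_le_sum_of_subset_of_nonneg
  · intro H' hH'
    rw [Finset.mem_image] at hH'
    obtain ⟨H, hH, rfl⟩ := hH'
    have heH := hAe H hH
    rw [hA, Finset.mem_filter, Finset.mem_filter, Finset.mem_powerset] at hH
    obtain ⟨⟨hsub, hodd⟩, -⟩ := hH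
    rw [Finset.mem_filter, Finset.mem_powerset]
    refine ⟨(Finset.erase_subset _ _).trans hsub, ?_⟩
    intro u hu
    have hou := hodd u hu
    have hfe : (H.erase e).filter (fun e => u = e.1 ∨ u = tip e) =
        (H.filter (fun e => u = e.1 ∨ u = tip e)).erase e := by
      rw [Finset.filter_erase]
    rw [hfe]
    by_cases hue : u = e.1 ∨ u = tip e
    · have hmem : e ∈ H.filter (fun e => u = e.1 ∨ u = tip e) :=
        Finset.mem_filter.2 ⟨heH, hue⟩
      have hcard := Finset.card_erase_add_one hmem
      have hvw' : u = v ∨ u = w := by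
        rcases he with ⟨h3, h4⟩ | ⟨h3, h4⟩
        · rw [h3, h4] at hue; exact hue
        · rw [h3, h4] at hue; exact hue.symm
      rw [← hcard, Nat.odd_add_one] at hou
      rcases hvw' with h | h
      · subst h
        constructor
        · intro ho
          exact absurd ho (hou.2 rfl)
        · intro h'
          exact absurd h' hvw
      · subst h
        constructor
        · intro _; rfl
        · intro _
          by_contra hno
          exact hvw (hou.1 hno).symm
    · have hnm : e ∉ H.filter (fun e => u = e.1 ∨ u = tip e) := fun h =>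
        hue (Finset.mem_filter.1 h).2
      rw [Finset.erase_eq_of_notMem hnm]
      have huv : u ≠ v := by
        intro h
        apply hue
        rcases he with ⟨h3, h4⟩ | ⟨h3, h4⟩
        · left; rw [h3]; exact h
        · right; rw [h4]; exact h
      have huw : u ≠ w := by
        intro h
        apply hue
        rcases he with ⟨h3, h4⟩ | ⟨h3, h4⟩
        · right; rw [h4]; exact h
        · left; rw [h3]; exact h
      constructor
      · intro ho; exact absurd (hou.1 ho) huv
      · intro h; exact absurd h huw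
  · intro H' _ _
    positivity

theorem Wv_step (d N : ℕ) (x : ℝ) (hx : 0 ≤ x) (v : Vtx d) (hv : v ∈ box d N) :
    Wv d N x v ≤ x *
      ∑ i : Fin d, (Wv d N x (v + Pi.single i 1) + Wv d N x (v - Pi.single i 1)) := by
  classical
  have hne1 : ∀ i : Fin d, v ≠ v + Pi.single i 1 := by
    intro i h
    have := congrFun h i
    simp at this
  have hne2 : ∀ i : Fin d, v ≠ v - Pi.single i 1 := by
    intro i h
    have := congrFun h i
    simp only [Pi.sub_apply, Pi.single_eq_same] at this
    omega
  rw [Finset.mul_sum]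
  have hstep : ∀ i : Fin d,
      (∑ H ∈ ((touchE d N).powerset.filter (fun H => ∀ u ∈ box d N,
        (Odd (H.filter fun e => u = e.1 ∨ u = tip e).card ↔ u = v))).filter
          (fun H => ((v, i) : Edg d) ∈ H), x ^ H.card) +
      (∑ H ∈ ((touchE d N).powerset.filter (fun H => ∀ u ∈ box d N,
        (Odd (H.filter fun e => u = e.1 ∨ u = tip e).card ↔ u = v))).filter
          (fun H => ((v - Pi.single i 1, i) : Edg d) ∈ H), x ^ H.card) ≤
      x * (Wv d N x (v + Pi.single i 1) + Wv d N x (v - Pi.single i 1)) := by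
    intro i
    rw [mul_add]
    apply add_le_add
    · exact H1b_edge d N x hx v (v + Pi.single i 1) (v, i) (hne1 i) (Or.inl ⟨rfl, rfl⟩)
    · refine H1b_edge d N x hx v (v - Pi.single i 1) (v - Pi.single i 1, i) (hne2 i)
        (Or.inr ⟨rfl, ?_⟩)
      unfold tip
      simp
  refine le_trans ?_ (Finset.sum_le_sum fun i _ => hstep i)
  simp_rw [Finset.sum_filter _ _ (s := ((touchE d N).powerset.filter (fun H => ∀ u ∈ box d N,
        (Odd (H.filter fun e => u = e.1 ∨ u = tip e).card ↔ u = v))))]
  simp_rw [← Finset.sum_add_distrib]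
  rw [Finset.sum_comm]
  unfold Wv
  apply Finset.sum_le_sum
  intro H hH
  rw [Finset.mem_filter, Finset.mem_powerset] at hH
  have hodd := (hH.2 v hv).2 rfl
  have hpos : 0 < (H.filter fun e => v = e.1 ∨ v = tip e).card := hodd.pos
  obtain ⟨e, he⟩ := Finset.card_pos.1 hpos
  rw [Finset.mem_filter] at he
  obtain ⟨heH, hve⟩ := he
  have hnn : ∀ i : Fin d, 0 ≤ ((if ((v, i) : Edg d) ∈ H then x ^ H.card else 0) +
      (if ((v - Pi.single i 1, i) : Edg d) ∈ H then x ^ H.card else 0)) := by
    intro i
    apply add_nonneg <;> split_ifs <;> positivity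
  refine le_trans ?_ (Finset.single_le_sum (fun i _ => hnn i) (Finset.mem_univ e.2))
  rcases hve with h | h
  · have h1 : ((v, e.2) : Edg d) ∈ H := by rw [h]; exact heH
    rw [if_pos h1]
    have : 0 ≤ (if ((v - Pi.single e.2 1, e.2) : Edg d) ∈ H then x ^ H.card else 0) := by
      split_ifs <;> positivity
    linarith
  · have h1 : ((v - Pi.single e.2 1, e.2) : Edg d) ∈ H := by
      have : v - Pi.single e.2 1 = e.1 := by
        rw [h]; unfold tip; simp
      rw [this]; exact heH
    rw [if_pos h1]
    have : 0 ≤ (if ((v, e.2) : Edg d) ∈ H then x ^ H.card else 0) := by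
      split_ifs <;> positivity
    linarith

theorem mean_step (d N : ℕ) (β : ℝ) (hβ : 0 ≤ β) (v : Vtx d) (hv : v ∈ box d N) :
    mean d N β v ≤ Real.tanh β *
      ∑ i : Fin d, (mean d N β (v + Pi.single i 1) + mean d N β (v - Pi.single i 1)) := by
  have hx : 0 ≤ Real.tanh β := by
    rw [Real.tanh_eq_sinh_div_cosh]
    exact div_nonneg (Real.sinh_nonneg_iff.2 hβ) (Real.cosh_pos β).le
  have hW := W0_pos d N (Real.tanh β) hx
  have h := Wv_step d N (Real.tanh β) hx v hv
  simp_rw [mean_eq]
  have e1 : ∀ i : Fin d, Wv d N (Real.tanh β) (v + Pi.single i 1) / W0 d N (Real.tanh β) +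
      Wv d N (Real.tanh β) (v - Pi.single i 1) / W0 d N (Real.tanh β) =
      (Wv d N (Real.tanh β) (v + Pi.single i 1) + Wv d N (Real.tanh β) (v - Pi.single i 1)) /
        W0 d N (Real.tanh β) := by
    intro i; rw [add_div]
  simp_rw [e1]
  rw [← Finset.sum_div, ← mul_div_assoc]
  exact div_le_div_of_nonneg_right h hW.le

end Pool.Agent.H90.SC
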