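import Pool.Agent.H90.SC.H1

/-!
# SCUR H2: the critical inverse temperature is at least 1/(2d)

* `magN_le`: by induction on `j ≤ N`: `mean d N β v ≤ (2 d tanh β)^j` for `v ∈ box d (N - j)`, in
  fact for all `v` with `|v_i| ≤ N - j` (`mean_le_one` for `j = 0`, `mean_step` for the step: the
  neighbours of `v ∈ box d (N - j - 1)` lie in `box d (N - j)`). At `v = 0`, `j = N`.
* `magN d N β ≥ -1`, so the `limsup` is that of a bounded sequence; if `2 d tanh β < 1` then
  `mag d β ≤ 0`.
* `betaC_ge`: if `β ≥ 0` and `mag d β > 0` then `2 d tanh β ≥ 1`, and `tanh β ≤ β`.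
-/

namespace Pool.Agent.H90.SC

open Filter

private theorem H2_tanh_nonneg {β : ℝ} (hβ : 0 ≤ β) : 0 ≤ Real.tanh β := by
  rw [Real.tanh_eq_sinh_div_cosh]
  exact div_nonneg (Real.sinh_nonneg_iff.2 hβ) (Real.cosh_pos β).le

private theorem H2_tanh_le {β : ℝ} (hβ : 0 ≤ β) : Real.tanh β ≤ β := by
  rcases hβ.eq_or_lt with h | h
  · rw [← h]
    simp
  · obtain ⟨c, hc, hs⟩ := exists_hasDerivAt_eq_slope Real.sinh Real.cosh h
      Real.continuous_sinh.continuousOn (fun x _ => Real.hasDerivAt_sinh x)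
    have h1 : Real.cosh c ≤ Real.cosh β := by
      rw [Real.cosh_le_cosh, abs_of_pos hc.1, abs_of_pos h]
      exact hc.2.le
    rw [hs, Real.sinh_zero, sub_zero, sub_zero, div_le_iff₀ h] at h1
    rw [Real.tanh_eq_sinh_div_cosh, div_le_iff₀ (Real.cosh_pos β)]
    linarith

private theorem H2_nb {d : ℕ} (v : Vtx d) (M : ℤ) (hv : ∀ i, |v i| ≤ M - 1) (i : Fin d) (s : ℤ)
    (hs : |s| = 1) (i' : Fin d) : |(v + Pi.single i s : Vtx d) i'| ≤ M := by
  have h1 := hv i'
  have h2 : |(Pi.single i s : Vtx d) i'| ≤ 1 := by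
    by_cases h : i' = i
    · subst h
      rw [Pi.single_eq_same, hs]
    · rw [Pi.single_eq_of_ne h]
      simp
  calc |(v + Pi.single i s : Vtx d) i'| ≤ |v i'| + |(Pi.single i s : Vtx d) i'| :=
        abs_add_le _ _
    _ ≤ M := by linarith

private theorem H2_ind (d N : ℕ) (β : ℝ) (hβ : 0 ≤ β) (j : ℕ) : j ≤ N → ∀ v : Vtx d,
    (∀ i, |v i| ≤ (N : ℤ) - j) → mean d N β v ≤ (2 * d * Real.tanh β) ^ j := by
  have hx := H2_tanh_nonneg hβ
  induction j with
  | zero =>
    intro _ v _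
    rw [pow_zero]
    exact mean_le_one d N β v
  | succ j ih =>
    intro hj v hv
    have hbox : v ∈ box d N := by
      unfold box
      rw [Fintype.mem_piFinset]
      intro i
      rw [Finset.mem_Icc]
      have h := abs_le.1 (hv i)
      push_cast at h
      constructor <;> linarith [h.1, h.2, (Nat.cast_nonneg j : (0 : ℤ) ≤ j)]
    have hv' : ∀ i, |v i| ≤ ((N : ℤ) - j) - 1 := by
      intro i
      have h := hv i
      push_cast at h
      linarith
    have hstep := mean_step d N β hβ v hbox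
    have hbd : ∑ i : Fin d, (mean d N β (v + Pi.single i 1) + mean d N β (v - Pi.single i 1)) ≤
        ∑ _i : Fin d, 2 * (2 * d * Real.tanh β) ^ j := by
      refine Finset.sum_le_sum fun i _ => ?_
      have e1 := ih (by omega) (v + Pi.single i 1) (H2_nb v _ hv' i 1 (by norm_num))
      have e2 := ih (by omega) (v - Pi.single i 1) (by
        have e : v - Pi.single i 1 = v + (Pi.single i (-1) : Vtx d) := by
          rw [Pi.single_neg, sub_eq_add_neg]
        rw [e]
        exact H2_nb v _ hv' i (-1) (by norm_num))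
      linarith
    rw [Finset.sum_const, Finset.card_univ, Fintype.card_fin, nsmul_eq_mul] at hbd
    calc mean d N β v ≤ Real.tanh β *
          ∑ i : Fin d, (mean d N β (v + Pi.single i 1) + mean d N β (v - Pi.single i 1)) := hstep
      _ ≤ Real.tanh β * (d * (2 * (2 * d * Real.tanh β) ^ j)) :=
          mul_le_mul_of_nonneg_left hbd hx
      _ = (2 * d * Real.tanh β) ^ (j + 1) := by ring

theorem magN_le (d N : ℕ) (β : ℝ) (hβ : 0 ≤ β) : magN d N β ≤ (2 * d * Real.tanh β) ^ N := by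
  have h := H2_ind d N β hβ N le_rfl 0 (by intro i; simp)
  exact h

theorem mag_le_zero (d : ℕ) (β : ℝ) (hβ : 0 ≤ β) (h : 2 * d * Real.tanh β < 1) :
    mag d β ≤ 0 := by
  have hx := H2_tanh_nonneg hβ
  have h0 : 0 ≤ 2 * d * Real.tanh β := by positivity
  have ht : Tendsto (fun N : ℕ => (2 * d * Real.tanh β) ^ N) atTop (nhds 0) :=
    tendsto_pow_atTop_nhds_zero_of_lt_one h0 h
  have hlow : IsBoundedUnder (· ≥ ·) atTop fun N => magN d N β :=
    isBoundedUnder_of ⟨-1, fun N => neg_one_le_mean d N β 0⟩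
  unfold mag
  rw [← ht.limsup_eq]
  exact limsup_le_limsup (Eventually.of_forall fun N => magN_le d N β hβ)
    hlow.isCoboundedUnder_le ht.isBoundedUnder_le

theorem betaC_ge (d : ℕ) (hd : 1 ≤ d) : ENNReal.ofReal (1 / (2 * d)) ≤ betaC d := by
  unfold betaC
  refine le_sInf ?_
  rintro b ⟨β, ⟨hβ, hm⟩, rfl⟩
  refine ENNReal.ofReal_le_ofReal ?_
  by_contra hcon
  have hlt := not_le.1 hcon
  have hd0 : (0 : ℝ) < d := by exact_mod_cast hd
  rw [lt_div_iff₀ (by positivity)] at hlt
  have h1 := H2_tanh_le hβ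
  have h2 : 2 * d * Real.tanh β < 1 := by nlinarith
  exact absurd (mag_le_zero d β hβ h2) (not_le.2 hm)

end Pool.Agent.H90.SC
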