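import Mathlib

/-!
# SCUR I1: choice of the parameters

`k = 2 * ((d - 2) / 12)`: then `6 k + 2 ≤ d`, `k ≥ (d - 13)/6`, and for `d ≥ 1000`, `k ≥ 164`.
`tanh` is increasing and `tanh y ≥ y - y^3/3` for `y ≥ 0` (or any cheaper lower bound, such as
`tanh y = (1 - exp(-2y))/(1 + exp(-2y)) ≥ ...`), `y = 100/d ≤ 1/10`:
`tanh (100/d) ≥ (100/d) (1 - 1/300) ≥ 16/k` because `16 d / (100 k) ≤ 96 d/(100 (d-13)) ≤ 0.973`.
-/

namespace Pool.Agent.H90.SC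

private theorem I1_tanh_mono {y β : ℝ} (h : y ≤ β) : Real.tanh y ≤ Real.tanh β := by
  rw [Real.tanh_eq_sinh_div_cosh, Real.tanh_eq_sinh_div_cosh,
    div_le_div_iff₀ (Real.cosh_pos y) (Real.cosh_pos β)]
  have h1 : 0 ≤ Real.sinh (β - y) := Real.sinh_nonneg_iff.2 (sub_nonneg.2 h)
  rw [Real.sinh_sub] at h1
  linarith

private theorem I1_tanh {y : ℝ} (h0 : 0 ≤ y) (h1 : y ≤ 1 / 10) : 995 / 1000 * y ≤ Real.tanh y := by
  rw [Real.tanh_eq_sinh_div_cosh, le_div_iff₀ (Real.cosh_pos y)]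
  have h2 : y ≤ Real.sinh y := Real.self_le_sinh_iff.2 h0
  have h3 : Real.cosh y ≤ Real.exp (y ^ 2 / 2) := Real.cosh_le_exp_half_sq y
  have h4 : 1 - y ^ 2 / 2 ≤ Real.exp (-(y ^ 2 / 2)) := by
    have := Real.add_one_le_exp (-(y ^ 2 / 2))
    linarith
  have h5 : Real.exp (y ^ 2 / 2) * Real.exp (-(y ^ 2 / 2)) = 1 := by
    rw [← Real.exp_add]
    simp
  have h6 : 0 < Real.exp (y ^ 2 / 2) := Real.exp_pos _
  have h7 : 995 / 1000 * Real.exp (y ^ 2 / 2) ≤ 1 := by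
    have h8 : y ^ 2 / 2 ≤ 5 / 1000 := by nlinarith
    have h9 : (995 / 1000 : ℝ) ≤ Real.exp (-(y ^ 2 / 2)) := by linarith
    calc 995 / 1000 * Real.exp (y ^ 2 / 2) ≤
        Real.exp (-(y ^ 2 / 2)) * Real.exp (y ^ 2 / 2) :=
          mul_le_mul_of_nonneg_right h9 h6.le
      _ = 1 := by rw [mul_comm]; exact h5
  have h10 : 995 / 1000 * Real.cosh y ≤ 1 := by linarith
  calc 995 / 1000 * y * Real.cosh y = y * (995 / 1000 * Real.cosh y) := by ring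
    _ ≤ y * 1 := mul_le_mul_of_nonneg_left h10 h0
    _ ≤ Real.sinh y := by linarith

theorem params (d : ℕ) (hd : 1000 ≤ d) (β : ℝ) (hβ : 100 / (d : ℝ) ≤ β) :
    ∃ k : ℕ, 6 * k + 2 ≤ d ∧ 100 ≤ k ∧ Even k ∧ 16 / (k : ℝ) ≤ Real.tanh β := by
  have hdR : (1000 : ℝ) ≤ d := by exact_mod_cast hd
  refine ⟨2 * ((d - 2) / 12), by omega, by omega, even_two_mul _, ?_⟩
  have hk : d ≤ 6 * (2 * ((d - 2) / 12)) + 13 := by omega
  have hkR : (d : ℝ) ≤ 6 * ((2 * ((d - 2) / 12) : ℕ) : ℝ) + 13 := by exact_mod_cast hk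
  generalize ((2 * ((d - 2) / 12) : ℕ) : ℝ) = k at hkR
  have hd0 : (0 : ℝ) < d := by linarith
  have hy0 : 0 ≤ 100 / (d : ℝ) := by positivity
  have hy1 : 100 / (d : ℝ) ≤ 1 / 10 := by
    rw [div_le_iff₀ hd0]
    linarith
  refine le_trans ?_ ((I1_tanh hy0 hy1).trans (I1_tanh_mono hβ))
  have hk0 : 0 < k := by linarith
  rw [div_le_iff₀ hk0]
  have : 995 / 1000 * (100 / (d : ℝ)) * k = 995 / 10 * k / d := by ring
  rw [this, le_div_iff₀ hd0]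
  linarith

end Pool.Agent.H90.SC
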